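import Mathlib

/-! The finite check on squarefree ternary words of length 26, on base four codes. -/

set_option autoImplicit false

namespace Pool.Agent.MP_4bd596_co

/-- search trees -/
inductive Tr
  | nil : Tr
  | node : Tr → ℕ → ℕ → Tr → Tr

/-- lookup, zero if absent -/
noncomputable def Tr.get (T : Tr) (n : ℕ) : ℕ :=
  Tr.rec 0 (fun _ k v _ l r => cond (Nat.ble n k) (cond (Nat.beq n k) v l) r) T

/-- evaluate the argument first -/
def frc (n : ℕ) (f : ℕ → Bool) : Bool :=
  match n with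
  | 0 => f 0
  | k + 1 => f (Nat.succ k)

theorem frc_eq (n : ℕ) (f : ℕ → Bool) : frc n f = f n := by cases n <;> rfl

/-- a key that does not see the names of the letters -/
def key (n : ℕ) : ℕ :=
  Nat.land (Nat.lor (Nat.xor n (Nat.shiftRight n 4))
    (Nat.shiftRight (Nat.xor n (Nat.shiftRight n 4)) 1)) 93824992236885

/-- table entry of a code -/
noncomputable def ent (T : Tr) (n : ℕ) : ℕ := T.get (key n)

/-- a square at the low end -/
def sq1 (n q : ℕ) (b : Bool) : Bool :=
  cond (Nat.beq (Nat.mod n q) (Nat.mod (Nat.div n q) q)) true b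

/-- a square with period at most 13 at the low end -/
def sq (n : ℕ) : Bool :=
  sq1 n 4 <| sq1 n 16 <| sq1 n 64 <| sq1 n 256 <| sq1 n 1024 <| sq1 n 4096 <| sq1 n 16384 <|
  sq1 n 65536 <| sq1 n 262144 <| sq1 n 1048576 <| sq1 n 4194304 <| sq1 n 16777216 <|
  sq1 n 67108864 false

/-- a word of length 26 has period 14 + j -/
def per (t j : ℕ) : Bool :=
  Nat.beq (Nat.mod t (Nat.pow 4 (Nat.sub 12 j))) (Nat.div t (Nat.pow 4 (Nat.add 14 j)))

/-- the state in which the square with period 14 + j would close -/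
def endS (t j : ℕ) : ℕ := (t / 4 ^ (12 - j) + 4 ^ (14 + j) * (t / 4 ^ (12 - j))) % 4 ^ 26

/-- cost of a run that becomes active -/
noncomputable def nw1 (T : Tr) (s t j : ℕ) : ℕ :=
  cond (per t j) (cond (per s j) 0
    (7 ^ (2 * j + 2) * (ent T (endS t j) % 10001) / 9 ^ (2 * j + 2) + 1)) 0

/-- cost of the runs that become active -/
noncomputable def nw (T : Tr) (s t m : ℕ) : ℕ :=
  Nat.rec 0 (fun j x => Nat.add (nw1 T s t j) x) m

/-- a run that is already active goes on -/
noncomputable def kill (s t m : ℕ) : Bool :=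
  Nat.rec false (fun j x => cond (per t j) (cond (per s j) true x) x) m

/-- next state -/
def nxt (s a : ℕ) : ℕ := Nat.mod (Nat.add a (Nat.mul 4 s)) 4503599627370496

/-- zero for a square, else the entry plus one -/
noncomputable def en1 (T : Tr) (t : ℕ) : ℕ := cond (sq t) 0 (Nat.succ (T.get (key t)))

/-- residual weight of a child -/
noncomputable def rr (T : Tr) (s t e : ℕ) : ℕ :=
  cond (Nat.beq e 0) 0 (Nat.sub (Nat.mod (Nat.pred e) 10001)
    (Nat.add (Nat.succ (Nat.div (Nat.mod (Nat.pred e) 10001) 150)) (nw T s t 12)))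

/-- weight of a sibling -/
noncomputable def ww (s t r : ℕ) : ℕ :=
  cond (Nat.beq r 0) 0 (cond (kill s t 8) 0 (min 10000 (r * 81 / 49)))

/-- the inequality for the potential -/
def stp (e e' w w' : ℕ) : Bool :=
  cond (Nat.beq e' 0) true (Nat.ble (2260 + e / 10001) (max w w' + (e' - 1) / 10001))

/-- the check at one state -/
noncomputable def chkS (T : Tr) (s : ℕ) : Bool :=
  frc (key s) fun k => frc (T.get k) fun e =>
  frc (nxt s 1) fun t1 => frc (nxt s 2) fun t2 => frc (nxt s 3) fun t3 =>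
  frc (en1 T t1) fun e1 => frc (en1 T t2) fun e2 => frc (en1 T t3) fun e3 =>
  frc (rr T s t1 e1) fun r1 => frc (rr T s t2 e2) fun r2 => frc (rr T s t3 e3) fun r3 =>
  frc (ww s t1 r1) fun w1 => frc (ww s t2 r2) fun w2 => frc (ww s t3 r3) fun w3 =>
  Nat.ble (9 * (e % 10001)) (7 * (r1 + r2 + r3)) && Nat.ble (e / 10001) 21000 &&
    stp e e1 w2 w3 && stp e e2 w1 w3 && stp e e3 w1 w2

/-- one branch of the enumeration -/
def br (f : ℕ → Bool) (t : ℕ) : Bool := frc t fun t => cond (sq t) true (f t)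

/-- the check at all extensions -/
noncomputable def chkA (T : Tr) (m : ℕ) : ℕ → Bool :=
  Nat.rec (chkS T) (fun _ f n => br f (Nat.add 1 (Nat.mul 4 n)) && br f (Nat.add 2 (Nat.mul 4 n)) &&
    br f (Nat.add 3 (Nat.mul 4 n))) m

end Pool.Agent.MP_4bd596_co
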