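import Pool.Agent.MP_4bd596_co.Words
import Pool.Agent.MP_4bd596_co.Chk

/-! Meaning of the finite check. -/

set_option autoImplicit false

namespace Pool.Agent.MP_4bd596_co

open Finset

/-- base four code of a word -/
def enc : List (Fin 3) → ℕ
  | [] => 0
  | a :: u => a + 1 + 4 * enc u

theorem enc_inj : ∀ {u v : List (Fin 3)}, enc u = enc v → u = v
  | [], [], _ => rfl
  | [], b :: v, h => by simp only [enc] at h; omega
  | a :: u, [], h => by simp only [enc] at h; omega
  | a :: u, b :: v, h => by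
    simp only [enc] at h
    have := a.2
    have := b.2
    rw [Fin.ext (show a.1 = b.1 by omega), enc_inj (show enc u = enc v by omega)]

theorem enc_take : ∀ (j : ℕ) (u : List (Fin 3)), enc (u.take j) = enc u % 4 ^ j
  | 0, u => by simp [enc, Nat.mod_one]
  | j + 1, [] => by simp [enc]
  | j + 1, a :: u => by
    have := a.2
    rw [List.take_succ_cons, enc, enc, enc_take j u, pow_succ', Nat.mod_mul]
    congr 1
    · omega
    · congr 2
      omega

theorem enc_drop : ∀ (j : ℕ) (u : List (Fin 3)), enc (u.drop j) = enc u / 4 ^ j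
  | 0, u => by simp
  | j + 1, [] => by simp [enc]
  | j + 1, a :: u => by
    have := a.2
    rw [List.drop_succ_cons, enc, enc_drop j u, pow_succ', ← Nat.div_div_eq_div_mul]
    congr 1
    omega

theorem enc_append : ∀ u v : List (Fin 3), enc (u ++ v) = enc u + 4 ^ u.length * enc v
  | [], v => by simp [enc]
  | a :: u, v => by
    rw [List.cons_append, enc, enc, enc_append u v, List.length_cons]
    ring

theorem sq1_iff (u : List (Fin 3)) (p : ℕ) (b : Bool) :
    sq1 (enc u) (4 ^ p) b = true ↔ u.take p = (u.drop p).take p ∨ b = true := by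
  have : Nat.beq (Nat.mod (enc u) (4 ^ p)) (Nat.mod (Nat.div (enc u) (4 ^ p)) (4 ^ p)) = true ↔
      u.take p = (u.drop p).take p := by
    rw [Nat.beq_eq]
    change enc u % 4 ^ p = enc u / 4 ^ p % 4 ^ p ↔ _
    rw [← enc_drop, ← enc_take, ← enc_take]
    exact ⟨enc_inj, fun e => by rw [← e]⟩
  rw [← this, sq1]
  cases Nat.beq _ _ <;> simp

theorem sq_iff (u : List (Fin 3)) :
    sq (enc u) = true ↔ ∃ p, 1 ≤ p ∧ p ≤ 13 ∧ u.take p = (u.drop p).take p := by
  change sq1 _ (4 ^ 1) (sq1 _ (4 ^ 2) (sq1 _ (4 ^ 3) (sq1 _ (4 ^ 4) (sq1 _ (4 ^ 5)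
    (sq1 _ (4 ^ 6) (sq1 _ (4 ^ 7) (sq1 _ (4 ^ 8) (sq1 _ (4 ^ 9) (sq1 _ (4 ^ 10) (sq1 _ (4 ^ 11)
    (sq1 _ (4 ^ 12) (sq1 _ (4 ^ 13) false)))))))))))) = true ↔ _
  simp only [sq1_iff, Bool.false_eq_true, or_false]
  constructor
  · rintro (h | h | h | h | h | h | h | h | h | h | h | h | h) <;>
      exact ⟨_, by norm_num, by norm_num, h⟩
  · rintro ⟨p, h1, h2, h⟩
    interval_cases p <;> simp only [← h, true_or, or_true]

theorem SF.sq_false {u : List (Fin 3)} (h : SF u) (hu : u ≠ []) : sq (enc u) = false := by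
  by_contra hc
  obtain ⟨p, h1, -, e⟩ := (sq_iff u).1 (by simpa using hc)
  have := List.length_pos_iff.2 hu
  have h2 := congrArg List.length e
  simp only [List.length_take, List.length_drop] at h2
  exact absurd ((km_iff h1 (by omega)).2 e) (not_le.2 (h.km_lt h1))

theorem per_iff {u : List (Fin 3)} (hu : 26 ≤ u.length) {j : ℕ} (hj : j < 12) :
    per (enc (u.take 26)) j = true ↔ 12 - j ≤ km (14 + j) u := by
  rw [per, Nat.beq_eq, km_iff (by omega) (by omega)]
  change enc _ % 4 ^ (12 - j) = enc _ / 4 ^ (14 + j) ↔ _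
  rw [← enc_drop, ← enc_take, List.take_take, List.drop_take, min_eq_left (by omega),
    show 26 - (14 + j) = 12 - j by omega]
  exact ⟨enc_inj, fun e => by rw [← e]⟩

theorem endS_eq {u : List (Fin 3)} (hu : 26 ≤ u.length) {j : ℕ} (hj : j < 12) :
    endS (enc (u.take 26)) j = enc (((u.drop (12 - j)).take (14 + j) ++
      (u.drop (12 - j)).take (14 + j)).take 26) := by
  have e : (u.take 26).drop (12 - j) = (u.drop (12 - j)).take (14 + j) := by
    rw [List.drop_take, show 26 - (12 - j) = 14 + j by omega]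
  rw [endS, ← enc_drop, e, enc_take 26, enc_append, List.length_take, List.length_drop,
    min_eq_left (by omega)]

theorem nxt_eq (u : List (Fin 3)) (a : Fin 3) :
    nxt (enc (u.take 26)) (a + 1) = enc ((a :: u).take 26) := by
  change (a + 1 + 4 * enc (u.take 26)) % 4 ^ 26 = _
  rw [← enc, ← enc_take, List.take_succ_cons, List.take_succ_cons, List.take_take]
  rfl

theorem nw_eq (T : Tr) (s t : ℕ) : ∀ m, nw T s t m = ∑ j ∈ range m, nw1 T s t j
  | 0 => rfl
  | m + 1 => by
    rw [sum_range_succ, ← nw_eq T s t m, add_comm (nw T s t m)]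
    rfl

theorem kill_false (s t : ℕ) : ∀ m, kill s t m = false → ∀ j < m, per t j = true → per s j = false
  | 0, _, j, hj, _ => by omega
  | m + 1, h, j, hj, e => by
    change cond (per t m) (cond (per s m) true (kill s t m)) (kill s t m) = false at h
    rcases (Nat.lt_succ_iff.1 hj).eq_or_lt with rfl | hj
    · rw [e] at h
      revert h
      cases per s j <;> simp
    · refine kill_false s t m ?_ j hj e
      revert h
      cases per t m <;> cases per s m <;> simp

theorem chkA_spec (T : Tr) : ∀ (m : ℕ) (u : List (Fin 3)), chkA T m (enc u) = true →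
    ∀ z : List (Fin 3), z.length = m → SF (z ++ u) → chkS T (enc (z ++ u)) = true
  | 0, u, h, z, hz, _ => by
    rw [List.length_eq_zero_iff.1 hz]
    exact h
  | m + 1, u, h, z, hz, hs => by
    obtain ⟨z, a, rfl⟩ := (List.eq_nil_or_concat' z).resolve_left (by rintro rfl; simp at hz)
    rw [List.append_assoc, List.singleton_append] at hs ⊢
    refine chkA_spec T m (a :: u) ?_ z (by simpa using hz) hs
    have h1 := (hs.of_infix (List.suffix_append _ _).isInfix).sq_false (List.cons_ne_nil _ _)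
    change (br (chkA T m) (1 + 4 * enc u) && br (chkA T m) (2 + 4 * enc u) &&
      br (chkA T m) (3 + 4 * enc u)) = true at h
    simp only [Bool.and_eq_true] at h
    have h2 : br (chkA T m) (enc (a :: u)) = true := by
      fin_cases a
      · exact h.1.1
      · exact h.1.2
      · exact h.2
    rwa [br, frc_eq, h1] at h2

/-- residual weight of the child with letter a -/
noncomputable def rA (T : Tr) (s : ℕ) (a : Fin 3) : ℕ :=
  rr T s (nxt s (a + 1)) (en1 T (nxt s (a + 1)))

/-- weight of the sibling with letter a -/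
noncomputable def wA (T : Tr) (s : ℕ) (a : Fin 3) : ℕ := ww s (nxt s (a + 1)) (rA T s a)

theorem chkS_spec {T : Tr} {s : ℕ} (h : chkS T s = true) :
    9 * (ent T s % 10001) ≤ 7 * ∑ a, rA T s a ∧ ent T s / 10001 ≤ 21000 ∧
      ∀ b : Fin 3, sq (nxt s (b + 1)) = false → ∃ a, a ≠ b ∧
        2260 + ent T s / 10001 ≤ wA T s a + ent T (nxt s (b + 1)) / 10001 := by
  simp only [chkS, frc_eq, Bool.and_eq_true, Nat.ble_eq] at h
  obtain ⟨⟨⟨⟨h1, h2⟩, h3⟩, h4⟩, h5⟩ := h
  refine ⟨by rw [Fin.sum_univ_three]; exact h1, h2, fun b hb => ?_⟩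
  have key : ∀ a a' : Fin 3, a ≠ b → a' ≠ b →
      stp (T.get (key s)) (en1 T (nxt s (b + 1))) (wA T s a) (wA T s a') = true → ∃ a, a ≠ b ∧
        2260 + ent T s / 10001 ≤ wA T s a + ent T (nxt s (b + 1)) / 10001 := by
    intro a a' ha ha' h
    rw [en1, hb, stp] at h
    change Nat.ble _ (_ + ent T (nxt s (b + 1)) / 10001) = true at h
    rw [Nat.ble_eq] at h
    rcases max_choice (wA T s a) (wA T s a') with e | e <;> rw [e] at h
    · exact ⟨a, ha, h⟩
    · exact ⟨a', ha', h⟩
  fin_cases b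
  · exact key 1 2 (by decide) (by decide) h3
  · exact key 0 2 (by decide) (by decide) h4
  · exact key 0 1 (by decide) (by decide) h5

theorem rA_cases (T : Tr) (s : ℕ) (a : Fin 3) : rA T s a = 0 ∨ sq (nxt s (a + 1)) = false ∧
    rA T s a + ent T (nxt s (a + 1)) % 10001 / 150 + 1 +
      ∑ j ∈ range 12, nw1 T s (nxt s (a + 1)) j = ent T (nxt s (a + 1)) % 10001 := by
  rw [← nw_eq, rA, en1]
  cases sq (nxt s (a + 1))
  · have : rr T s (nxt s (a + 1)) (cond false 0 (T.get (key (nxt s (a + 1)))).succ) =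
        ent T (nxt s (a + 1)) % 10001 -
          (ent T (nxt s (a + 1)) % 10001 / 150 + 1 + nw T s (nxt s (a + 1)) 12) := rfl
    rw [this]
    simp only [true_and]
    omega
  · exact .inl rfl

theorem wA_cases (T : Tr) (s : ℕ) (a : Fin 3) : wA T s a = 0 ∨
    kill s (nxt s (a + 1)) 8 = false ∧ wA T s a ≤ 10000 ∧ 49 * wA T s a ≤ 81 * rA T s a := by
  rw [wA, ww]
  cases Nat.beq (rA T s a) 0
  · cases kill s (nxt s (a + 1)) 8
    · simp only [cond_false, true_and]
      omega
    · exact .inl rfl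
  · exact .inl rfl

end Pool.Agent.MP_4bd596_co
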