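import Mathlib

/-! Squarefree ternary words and the s-index. -/

set_option autoImplicit false

namespace Pool.Agent.MP_4bd596_co

/-- no factor of the form xx with x nonempty -/
def SF (v : List (Fin 3)) : Prop := ∀ x : List (Fin 3), x ≠ [] → ¬ (x ++ x <:+: v)

/-- the nonempty squarefree word w has s-index n -/
def SIndex (w : List (Fin 3)) (n : ℕ) : Prop :=
  1 ≤ n ∧ w ≠ [] ∧ SF w ∧ (∃ y : List (Fin 3), y.length = n - 1 ∧ SF (w ++ y)) ∧
    ∀ x : List (Fin 3), n ≤ x.length → ¬ SF (w ++ x)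

end Pool.Agent.MP_4bd596_co
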