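import Pool.Agent.MP_4bd596_co.Upper

set_option autoImplicit false

namespace Pool.Agent.MP_4bd596_co.LogBound

/-- The s-index of a ternary squarefree word is at most logarithmic in its length. -/
theorem height_le (w : List (Fin 3)) (n : ℕ)
    (ha : ∃ y : List (Fin 3), y.length = n - 1 ∧
      ∀ u : List (Fin 3), u ≠ [] → ¬ (u ++ u <:+: w ++ y))
    (hb : ∀ x : List (Fin 3), n ≤ x.length →
      ∃ u : List (Fin 3), u ≠ [] ∧ (u ++ u <:+: w ++ x)) :
    n ≤ 42 * Nat.log 2 w.length + 440 := by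
  obtain ⟨y, e, hy⟩ := ha
  by_contra hc
  obtain ⟨x, hx, hs⟩ := Pool.Agent.MP_4bd596_co.extend hy (by omega) n
  obtain ⟨u, hu, h⟩ := hb x hx
  exact hs u hu h

end Pool.Agent.MP_4bd596_co.LogBound
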