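import Pool.Agent.MP_4bd596_co.LowOcc

/-! The abstract killing construction. -/

set_option autoImplicit false

namespace Pool.Agent.MP_4bd596_co.Low

variable {A : Type}

theorem occ_of_eq {W u v w : List A} (h : W = u ++ v ++ w) : Occ v W u.length :=
  h ▸ occ_mid u v w

/-- the data of the construction -/
structure Dat (A : Type) where
  M1 : List A
  M2 : List A
  R : List A
  ys : List A
  P : ℕ → List A
  t : ℕ → List A
  g : ℕ → List A
  lam : ℕ
  J : ℕ

namespace Dat

variable (D : Dat A)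

/-- the marker -/
def M : List A := D.M1 ++ D.M2

/-- the words without their first segment -/
def N : ℕ → List A
  | 0 => D.M ++ D.R
  | j + 1 => D.M ++ D.P j ++ N j ++ D.t j ++ D.g j ++ (D.M ++ D.P j ++ N j)

/-- the words of the construction -/
def C (j : ℕ) : List A := D.M ++ D.P j ++ D.N j

/-- a prelude segment -/
def sP (m : ℕ) : List A := D.M ++ D.P m ++ D.M

/-- a segment that starts with R -/
def sR (y : List A) : List A := D.M ++ D.R ++ y

/-- the end of a killing segment -/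
def ky (i : ℕ) : List A := D.t i ++ D.g i ++ D.M

/-- the possible ends -/
def End (y : List A) : Prop := y = D.ys ∨ ∃ i, i < D.J ∧ y = D.ky i

/-- first part of a prelude segment -/
def d1 (m : ℕ) : List A := D.M ++ (D.P m).take D.lam

/-- second part of a prelude segment -/
def d2 (m : ℕ) : List A := (D.P m).drop D.lam ++ D.M

/-- halves of the marker occur only in markers -/
def MS (w : List A) : Prop :=
  (∀ x, Occ D.M1 w x → Occ D.M w x) ∧
    ∀ x, Occ D.M2 w x → D.M1.length ≤ x ∧ Occ D.M w (x - D.M1.length)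

/-- no marker in the interior -/
def Ends (w : List A) : Prop := ∀ o, Occ D.M w o → o = 0 ∨ o + D.M.length = w.length

/-- hypotheses of the construction -/
structure Hyp : Prop where
  m1 : 0 < D.M1.length
  m2 : 0 < D.M2.length
  sP : ∀ m, m ≤ D.J → NoSq (D.sP m) ∧ D.MS (D.sP m) ∧ D.Ends (D.sP m)
  sR : ∀ y, D.End y → NoSq (D.sR y) ∧ D.MS (D.sR y) ∧ D.Ends (D.sR y)
  p1 : ∀ m m', m ≤ D.J → m' ≤ D.J → m ≠ m' → ¬ Occ (D.d1 m) (D.sP m') 0
  p2 : ∀ m m' x, m ≤ D.J → m' ≤ D.J → m ≠ m' → x + (D.d2 m).length = (D.sP m').length →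
    ¬ Occ (D.d2 m) (D.sP m') x
  r1 : ∀ m y, m ≤ D.J → D.End y → ¬ Occ (D.d1 m) (D.sR y) 0
  r2 : ∀ m y x, m ≤ D.J → D.End y → x + (D.d2 m).length = (D.sR y).length →
    ¬ Occ (D.d2 m) (D.sR y) x
  l0 : 0 < D.lam
  l1 : ∀ m, m ≤ D.J → D.lam < (D.P m).length
  l2 : ∀ m, m ≤ D.J → (D.P m).length + D.M.length ≤ D.R.length
  l3 : ∀ y, D.End y → y.length ≤ D.R.length
  pre : ∀ j, j < D.J → ∃ F b' t' b, D.P (j + 1) = F ++ [b'] ++ D.g j ∧ D.t j = t' ++ [b] ∧ b' ≠ b
  a1 : ∀ j, j < D.J → ¬ D.t j <+: D.ys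
  a2 : ∀ i j, i < D.J → j < D.J → i ≠ j → ¬ D.t j <+: D.ky i

variable {D}

theorem len_M : D.M.length = D.M1.length + D.M2.length := by simp [M]

theorem N_head (j : ℕ) : ∃ N', D.N j = D.M ++ N' := by
  cases j with
  | zero => exact ⟨_, rfl⟩
  | succ j => exact ⟨_, by simp only [N, List.append_assoc]; rfl⟩

theorem N_succ (j : ℕ) : D.N (j + 1) = D.C j ++ D.t j ++ D.g j ++ D.C j := rfl

theorem C_tail (j : ℕ) : ∃ X, D.C j = X ++ (D.M ++ D.P 0 ++ D.M ++ D.R) := by
  induction j with
  | zero => exact ⟨[], by simp [C, N]⟩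
  | succ j ih =>
    obtain ⟨X, hX⟩ := ih
    refine ⟨D.M ++ D.P (j + 1) ++ D.C j ++ D.t j ++ D.g j ++ X, ?_⟩
    rw [C, N_succ]
    conv_lhs => rw [← List.append_assoc, hX]
    rw [← hX]
    simp only [List.append_assoc, hX]

theorem split {d W : List A} {m x : ℕ} (hd : D.Ends d) (hm : Occ D.M W m) (h : Occ d W x) :
    x + d.length ≤ m + D.M.length ∨ m ≤ x := by
  by_contra ne
  push Not at ne
  have := hd _ (hm.restr h (by omega) (by omega))
  omega

theorem oV1 (j : ℕ) (y : List A) : Occ (D.sP j) (D.N (j + 1) ++ y) 0 := by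
  obtain ⟨N', h⟩ := N_head (D := D) j
  exact occ_of_eq (u := []) (w := N' ++ D.t j ++ D.g j ++ D.C j ++ y)
    (by rw [N_succ]; conv_lhs => rw [C, h]
        simp only [sP, C, h, List.append_assoc, List.nil_append])

theorem oV2 (j : ℕ) (y : List A) :
    Occ (D.N j ++ D.ky j) (D.N (j + 1) ++ y) (D.M.length + (D.P j).length) :=
  (occ_of_eq (u := D.M ++ D.P j) (w := D.P j ++ D.N j ++ y)
    (by simp only [N, ky, List.append_assoc])).cast (by simp)

theorem oV3 (j : ℕ) (y : List A) : Occ (D.sP j) (D.N (j + 1) ++ y)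
    ((D.C j).length + (D.t j).length + (D.g j).length) := by
  obtain ⟨N', h⟩ := N_head (D := D) j
  exact (occ_of_eq (u := D.C j ++ D.t j ++ D.g j) (w := N' ++ y)
    (by rw [N_succ]; simp only [sP, C, h, List.append_assoc])).cast (by simp; omega)

theorem oV4 (j : ℕ) (y : List A) : Occ (D.N j ++ y) (D.N (j + 1) ++ y)
    ((D.C j).length + (D.t j).length + (D.g j).length + D.M.length + (D.P j).length) :=
  (occ_of_eq (u := D.C j ++ D.t j ++ D.g j ++ D.M ++ D.P j) (w := [])
    (by simp only [N, C, List.append_assoc, List.append_nil])).cast (by simp; omega)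

theorem len_C (j : ℕ) : (D.C j).length = D.M.length + (D.P j).length + (D.N j).length := by
  simp [C]; omega

theorem len_N (j : ℕ) :
    (D.N (j + 1)).length = (D.C j).length + (D.t j).length + (D.g j).length + (D.C j).length := by
  simp [N_succ]; omega

theorem len_sP (m : ℕ) : (D.sP m).length = D.M.length + (D.P m).length + D.M.length := by
  simp [sP]; omega

theorem len_sR (y : List A) : (D.sR y).length = D.M.length + D.R.length + y.length := by
  simp [sR]; omega

theorem len_ky (i : ℕ) : (D.ky i).length = (D.t i).length + (D.g i).length + D.M.length := by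
  simp [ky]; omega

theorem oM_sP (m : ℕ) : Occ D.M (D.sP m) 0 := (occ_self (D.sP m)).fst.fst

theorem oM_sP' (m : ℕ) : Occ D.M (D.sP m) (D.M.length + (D.P m).length) :=
  (occ_right (D.M ++ D.P m) D.M).cast (by simp)

theorem oM_N (j : ℕ) (y : List A) : Occ D.M (D.N j ++ y) 0 := by
  obtain ⟨N', h⟩ := N_head (D := D) j
  rw [h]; exact (occ_self _).fst.fst

/-- the four pieces -/
theorem split4 {d y : List A} {j x : ℕ} (hd : D.Ends d) (h : Occ d (D.N (j + 1) ++ y) x) :
    x + d.length ≤ (D.sP j).length ∨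
    (D.M.length + (D.P j).length ≤ x ∧
      x + d.length ≤ D.M.length + (D.P j).length + (D.N j ++ D.ky j).length) ∨
    ((D.C j).length + (D.t j).length + (D.g j).length ≤ x ∧
      x + d.length ≤ (D.C j).length + (D.t j).length + (D.g j).length + (D.sP j).length) ∨
    ((D.C j).length + (D.t j).length + (D.g j).length + D.M.length + (D.P j).length ≤ x) := by
  have s1 := split hd ((oM_sP' j).trans (oV1 j y)) h
  have s2 := split hd ((oM_sP j).trans (oV3 j y)) h
  have s3 := split hd ((oM_sP' j).trans (oV3 j y)) h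
  have := len_sP (D := D) j
  have := len_C (D := D) j
  have := len_ky (D := D) j
  simp only [List.length_append]
  omega

/-- d at x lies inside an occurrence of S -/
def Ins (S W d : List A) (x : ℕ) : Prop :=
  ∃ z, Occ S W z ∧ z ≤ x ∧ x + d.length ≤ z + S.length

theorem Ins.up {S W W' d : List A} {x q : ℕ} (h : Ins S W d (x - q)) (o : Occ W W' q)
    (hq : q ≤ x) : Ins S W' d x := by
  obtain ⟨z, h1, h2, h3⟩ := h
  exact ⟨q + z, h1.trans o, by omega, by omega⟩

theorem loc {d : List A} (hd : D.Ends d) (j : ℕ) : ∀ (y : List A) (x : ℕ), Occ d (D.N j ++ y) x →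
    (∃ m, m < j ∧ Ins (D.sP m) (D.N j ++ y) d x) ∨
    (∃ i, i < j ∧ Ins (D.sR (D.ky i)) (D.N j ++ y) d x) ∨
    (∃ z, Occ (D.sR y) (D.N j ++ y) z ∧ z ≤ x ∧ z + (D.sR y).length = (D.N j ++ y).length) := by
  induction j with
  | zero =>
    intro y x _
    exact Or.inr (Or.inr ⟨0, occ_self _, Nat.zero_le _, by simp [sR, N]⟩)
  | succ j ih =>
    intro y x h
    rcases split4 hd h with c | c | c | c
    · exact Or.inl ⟨j, by omega, 0, oV1 j y, Nat.zero_le _, by omega⟩
    · have o := oV2 (D := D) j y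
      have h' := h.restr o c.1 c.2
      rcases ih _ _ h' with ⟨m, hm, e⟩ | ⟨i, hi, e⟩ | ⟨z, e1, e2, e3⟩
      · exact Or.inl ⟨m, by omega, e.up o c.1⟩
      · exact Or.inr (Or.inl ⟨i, by omega, e.up o c.1⟩)
      · exact Or.inr (Or.inl ⟨j, by omega, _, e1.trans o, by omega, by omega⟩)
    · exact Or.inl ⟨j, by omega, _, oV3 j y, c.1, c.2⟩
    · have o := oV4 (D := D) j y
      have l1 := len_N (D := D) j
      have l2 := len_C (D := D) j
      have hl := h.1
      simp only [List.length_append] at hl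
      have h' := h.restr o c (by simp only [List.length_append]; omega)
      rcases ih _ _ h' with ⟨m, hm, e⟩ | ⟨i, hi, e⟩ | ⟨z, e1, e2, e3⟩
      · exact Or.inl ⟨m, by omega, e.up o c⟩
      · exact Or.inr (Or.inl ⟨i, by omega, e.up o c⟩)
      · refine Or.inr (Or.inr ⟨_, e1.trans o, by omega, ?_⟩)
        simp only [List.length_append] at e3 ⊢
        omega

/-- the glue lemma along a marker -/
theorem glue {W : List A} (ms : D.MS W) {s p m : ℕ} (hp : Per W p s (s + p))
    (hm : Occ D.M W m) (h1 : s ≤ m) (h2 : m + D.M.length ≤ s + 2 * p) :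
    ∃ a lo hi, (a = m ∨ a + p = m) ∧ Occ D.M W a ∧ Occ D.M W (a + p) ∧ Per W p lo hi ∧
      lo ≤ a ∧ a + D.M.length ≤ hi ∧ lo + p ≤ hi := by
  have lm := len_M (D := D)
  have key : ∀ a, Occ D.M W a → Occ D.M W (a + p) → s ≤ a + D.M.length → a ≤ s + p →
      ∃ lo hi, Per W p lo hi ∧ lo ≤ a ∧ a + D.M.length ≤ hi ∧ lo + p ≤ hi := by
    intro a o1 o2 c1 c2
    have q := per_of_occ o1 o2
    refine ⟨min s a, max (s + p) (a + D.M.length), ⟨?_, fun i i1 i2 => ?_⟩, by omega, by omega,
      by omega⟩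
    · have := hp.1; have := q.1; omega
    · by_cases c : s ≤ i ∧ i < s + p
      · exact hp.2 i c.1 c.2
      · exact q.2 i (by omega) (by omega)
  by_cases c : m + D.M1.length ≤ s + p
  · have o1 : Occ D.M1 W m := Occ.fst (e := D.M2) hm
    have o2 := ms.1 _ (o1.fwd hp h1 c)
    obtain ⟨lo, hi, q⟩ := key m hm o2 (by omega) (by omega)
    exact ⟨m, lo, hi, Or.inl rfl, hm, o2, q⟩
  · have o1 : Occ D.M2 W (m + D.M1.length) := Occ.snd (d := D.M1) hm
    obtain ⟨e, o2⟩ := ms.2 _ (o1.bwd hp (by omega) (by omega))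
    have e' : m + D.M1.length - p - D.M1.length + p = m := by omega
    obtain ⟨lo, hi, q⟩ := key _ o2 (hm.cast e'.symm) (by omega) (by omega)
    exact ⟨_, lo, hi, Or.inr e', o2, hm.cast e'.symm, q⟩

end Dat

end Pool.Agent.MP_4bd596_co.Low
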