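import Pool.Agent.MP_4bd596_co.LowAbs

/-! The abstract killing construction: where the special factors occur. -/

set_option autoImplicit false

namespace Pool.Agent.MP_4bd596_co.Low

variable {A : Type}

namespace Dat

variable {D : Dat A}

theorem end_ky {i : ℕ} (hi : i < D.J) : D.End (D.ky i) := Or.inr ⟨i, hi, rfl⟩

theorem len_d1 (H : D.Hyp) {m : ℕ} (hm : m ≤ D.J) : (D.d1 m).length = D.M.length + D.lam := by
  have := H.l1 m hm
  simp [d1]; omega

theorem len_d2 (m : ℕ) : (D.d2 m).length = (D.P m).length - D.lam + D.M.length := by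
  simp [d2]

theorem o_d1 (m : ℕ) : Occ (D.d1 m) (D.sP m) 0 :=
  occ_of_eq (u := []) (w := (D.P m).drop D.lam ++ D.M) (by
    simp only [sP, d1, List.nil_append, List.append_assoc]
    rw [← List.append_assoc (List.take _ _), List.take_append_drop])

theorem o_d2 (H : D.Hyp) {m : ℕ} (hm : m ≤ D.J) :
    Occ (D.d2 m) (D.sP m) (D.M.length + D.lam) :=
  (occ_of_eq (u := D.d1 m) (w := []) (by
    simp only [sP, d1, d2, List.append_nil, List.append_assoc]
    rw [← List.append_assoc (List.take _ _), List.take_append_drop])).cast (len_d1 H hm)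

theorem ends_M1 (H : D.Hyp) : D.Ends D.M1 := fun o h => by
  have := h.1; have := H.m2; have := len_M (D := D); omega

theorem ends_M2 (H : D.Hyp) : D.Ends D.M2 := fun o h => by
  have := h.1; have := H.m1; have := len_M (D := D); omega

theorem ends_d1 (H : D.Hyp) {m : ℕ} (hm : m ≤ D.J) : D.Ends (D.d1 m) := fun o h => by
  have a := (H.sP m hm).2.2 _ (h.trans (o_d1 m))
  have := h.1
  have := len_d1 H hm
  have := len_sP (D := D) m
  have := H.l1 m hm
  omega

theorem ends_d2 (H : D.Hyp) {m : ℕ} (hm : m ≤ D.J) : D.Ends (D.d2 m) := fun o h => by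
  have a := (H.sP m hm).2.2 _ (h.trans (o_d2 H hm))
  have := len_d2 (D := D) m
  have := len_sP (D := D) m
  have := H.l1 m hm
  have := H.l0
  omega

theorem pos_d1 (H : D.Hyp) {m x : ℕ} (hm : m ≤ D.J) {S : List A} (hS : D.Ends S)
    (h : Occ (D.d1 m) S x) : x = 0 := by
  have a := hS _ (Occ.fst (d := D.M) h)
  have := h.1
  have := len_d1 H hm
  have := H.l0
  omega

theorem pos_d2 (H : D.Hyp) {m x : ℕ} (hm : m ≤ D.J) {S : List A} (hS : D.Ends S)
    (h : Occ (D.d2 m) S x) : x + (D.d2 m).length = S.length := by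
  have a := hS _ (Occ.snd (e := D.M) h)
  have := len_d2 (D := D) m
  have := H.l1 m hm
  simp only [List.length_drop] at a
  omega

theorem ms_of_ins {W : List A} (h1 : ∀ x, Occ D.M1 W x → ∃ S, D.MS S ∧ Ins S W D.M1 x)
    (h2 : ∀ x, Occ D.M2 W x → ∃ S, D.MS S ∧ Ins S W D.M2 x) : D.MS W := by
  refine ⟨fun x h => ?_, fun x h => ?_⟩
  · obtain ⟨S, ms, z, o, c1, c2⟩ := h1 x h
    exact ((ms.1 _ (h.restr o c1 c2)).trans o).cast (by omega)
  · obtain ⟨S, ms, z, o, c1, c2⟩ := h2 x h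
    obtain ⟨e, q⟩ := ms.2 _ (h.restr o c1 c2)
    exact ⟨by omega, (q.trans o).cast (by omega)⟩

theorem ms_N (H : D.Hyp) {j : ℕ} (hj : j ≤ D.J) {y : List A} (hy : D.End y) :
    D.MS (D.N j ++ y) := by
  have key : ∀ d x, D.Ends d → Occ d (D.N j ++ y) x → ∃ S, D.MS S ∧ Ins S (D.N j ++ y) d x := by
    intro d x hd h
    rcases loc hd j y x h with ⟨m, hm, e⟩ | ⟨i, hi, e⟩ | ⟨z, e1, e2, e3⟩
    · exact ⟨_, (H.sP m (by omega)).2.1, e⟩
    · exact ⟨_, (H.sR _ (end_ky (by omega))).2.1, e⟩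
    · exact ⟨_, (H.sR _ hy).2.1, z, e1, e2, by have := h.1; omega⟩
  exact ms_of_ins (fun x h => key _ x (ends_M1 H) h) (fun x h => key _ x (ends_M2 H) h)

theorem oC1 (j : ℕ) (y : List A) : Occ (D.sP j) (D.C j ++ y) 0 := by
  obtain ⟨N', h⟩ := N_head (D := D) j
  exact occ_of_eq (u := []) (w := N' ++ y)
    (by simp only [sP, C, h, List.append_assoc, List.nil_append])

theorem oC2 (j : ℕ) (y : List A) :
    Occ (D.N j ++ y) (D.C j ++ y) (D.M.length + (D.P j).length) :=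
  (occ_of_eq (u := D.M ++ D.P j) (w := [])
    (by simp only [C, List.append_assoc, List.append_nil])).cast (by simp)

theorem splitC {d y : List A} {j x : ℕ} (hd : D.Ends d) (h : Occ d (D.C j ++ y) x) :
    Occ d (D.sP j) x ∨ (D.M.length + (D.P j).length ≤ x ∧
      Occ d (D.N j ++ y) (x - (D.M.length + (D.P j).length))) := by
  have l1 := len_sP (D := D) j
  have l2 := len_C (D := D) j
  have l3 := h.1
  rcases split hd ((oM_sP' j).trans (oC1 j y)) h with c | c
  · exact Or.inl (h.restr (oC1 j y) (Nat.zero_le _) (by omega))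
  · refine Or.inr ⟨by omega, h.restr (oC2 j y) (by omega) ?_⟩
    simp only [List.length_append] at l3 ⊢
    omega

theorem ms_C (H : D.Hyp) {j : ℕ} (hj : j ≤ D.J) {y : List A} (hy : D.End y) :
    D.MS (D.C j ++ y) := by
  have key : ∀ d x, D.Ends d → Occ d (D.C j ++ y) x → ∃ S, D.MS S ∧ Ins S (D.C j ++ y) d x := by
    intro d x hd h
    rcases splitC hd h with c | ⟨c1, c2⟩
    · exact ⟨_, (H.sP j hj).2.1, 0, oC1 j y, Nat.zero_le _, by have := c.1; omega⟩
    · exact ⟨_, ms_N H hj hy, _, oC2 j y, c1, by have := c2.1; omega⟩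
  exact ms_of_ins (fun x h => key _ x (ends_M1 H) h) (fun x h => key _ x (ends_M2 H) h)

theorem no1_sP (H : D.Hyp) {m m' x : ℕ} (hm : m ≤ D.J) (hm' : m' ≤ D.J) (ne : m ≠ m') :
    ¬ Occ (D.d1 m) (D.sP m') x := fun h =>
  H.p1 m m' hm hm' ne (h.cast (pos_d1 H hm (H.sP m' hm').2.2 h))

theorem no2_sP (H : D.Hyp) {m m' x : ℕ} (hm : m ≤ D.J) (hm' : m' ≤ D.J) (ne : m ≠ m') :
    ¬ Occ (D.d2 m) (D.sP m') x := fun h =>
  H.p2 m m' x hm hm' ne (pos_d2 H hm (H.sP m' hm').2.2 h) h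

theorem no1_sR (H : D.Hyp) {m x : ℕ} (hm : m ≤ D.J) {y : List A} (hy : D.End y) :
    ¬ Occ (D.d1 m) (D.sR y) x := fun h =>
  H.r1 m y hm hy (h.cast (pos_d1 H hm (H.sR y hy).2.2 h))

theorem no2_sR (H : D.Hyp) {m x : ℕ} (hm : m ≤ D.J) {y : List A} (hy : D.End y) :
    ¬ Occ (D.d2 m) (D.sR y) x := fun h =>
  H.r2 m y x hm hy (pos_d2 H hm (H.sR y hy).2.2 h) h

theorem avoid {d : List A} (hd : D.Ends d) {j x : ℕ} (hj : j ≤ D.J) {y : List A} (hy : D.End y)
    (h1 : ∀ m z, m < j → ¬ Occ d (D.sP m) z) (h2 : ∀ y z, D.End y → ¬ Occ d (D.sR y) z) :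
    ¬ Occ d (D.N j ++ y) x := by
  intro h
  rcases loc hd j y x h with ⟨m, hm, z, o, c1, c2⟩ | ⟨i, hi, z, o, c1, c2⟩ | ⟨z, e1, e2, e3⟩
  · exact h1 m _ hm (h.restr o c1 c2)
  · exact h2 _ _ (end_ky (by omega)) (h.restr o c1 c2)
  · exact h2 _ _ hy (h.restr e1 e2 (by have := h.1; omega))

/-- the two occurrences of a special factor of the prelude segment j -/
theorem two {d : List A} (hd : D.Ends d) {j x q : ℕ} (hj : j < D.J) {y : List A} (hy : D.End y)
    (h0 : ∀ z, Occ d (D.sP j) z → z = q)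
    (h1 : ∀ m z, m ≤ D.J → j ≠ m → ¬ Occ d (D.sP m) z) (h2 : ∀ y z, D.End y → ¬ Occ d (D.sR y) z)
    (h : Occ d (D.C (j + 1) ++ y) x) :
    x = D.M.length + (D.P (j + 1)).length + q ∨ x = D.M.length + (D.P (j + 1)).length +
      ((D.C j).length + (D.t j).length + (D.g j).length) + q := by
  rcases splitC hd h with c | ⟨c1, c2⟩
  · exact absurd c (h1 _ _ (by omega) (by omega))
  have av : ∀ y z, D.End y → ¬ Occ d (D.N j ++ y) z := fun y z hy =>
    avoid hd (by omega) hy (fun m z hm => h1 m z (by omega) (by omega)) h2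
  rcases split4 hd c2 with c | c | c | c
  · have := h0 _ (c2.restr (oV1 j y) (Nat.zero_le _) (by omega))
    omega
  · exact absurd (c2.restr (oV2 j y) c.1 c.2) (av _ _ (end_ky hj))
  · have := h0 _ (c2.restr (oV3 j y) c.1 c.2)
    omega
  · have l1 := len_N (D := D) j
    have l2 := len_C (D := D) j
    have hl := c2.1
    simp only [List.length_append] at hl
    exact absurd (c2.restr (oV4 j y) c (by simp only [List.length_append]; omega)) (av _ _ hy)

theorem noK_sP (H : D.Hyp) {j m x : ℕ} (hj : j < D.J) (hm : m ≤ D.J) :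
    ¬ Occ (D.sR (D.ky j)) (D.sP m) x := fun h => by
  have := h.1
  have := len_sR (D := D) (D.ky j)
  have := len_sP (D := D) m
  have := len_ky (D := D) j
  have := H.l2 m hm
  have := H.m1
  have := len_M (D := D)
  omega

theorem noK_sR (H : D.Hyp) {i j x : ℕ} (hi : i < D.J) (hj : j < D.J) (ne : i ≠ j) :
    ¬ Occ (D.sR (D.ky j)) (D.sR (D.ky i)) x := fun h => by
  have l1 := h.1
  have l2 := len_sR (D := D) (D.ky j)
  have l3 := len_sR (D := D) (D.ky i)
  have l4 := len_ky (D := D) j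
  have := H.m1
  have := len_M (D := D)
  have e := (H.sR _ (end_ky hi)).2.2 _ (Occ.fst (d := D.M) (Occ.fst (d := D.M ++ D.R) h))
  have e0 : x = 0 := by omega
  subst e0
  have o1 : Occ (D.t j) (D.sR (D.ky i)) (D.M ++ D.R).length :=
    (Occ.fst (Occ.fst (Occ.snd (d := D.M ++ D.R) (e := D.ky j) h))).cast (by simp)
  have o2 : Occ (D.ky i) (D.sR (D.ky i)) (D.M ++ D.R).length := occ_right _ _
  have o3 := o1.restr o2 le_rfl (by simp only [List.length_append]; omega)
  rw [Nat.sub_self] at o3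
  exact H.a2 i j hi hj ne (occ_zero_iff.1 o3)

theorem posK (H : D.Hyp) {j x : ℕ} (hj : j < D.J)
    (h : Occ (D.sR (D.ky j)) (D.N j ++ D.ky j) x) :
    x + (D.sR (D.ky j)).length = (D.N j ++ D.ky j).length := by
  rcases loc (H.sR _ (end_ky hj)).2.2 j _ x h with
    ⟨m, hm, z, o, c1, c2⟩ | ⟨i, hi, z, o, c1, c2⟩ | ⟨z, e1, e2, e3⟩
  · exact absurd (h.restr o c1 c2) (noK_sP H hj (by omega))
  · exact absurd (h.restr o c1 c2) (noK_sR H (by omega) hj (by omega))
  · have := h.1; omega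

end Dat

end Pool.Agent.MP_4bd596_co.Low
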