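import Pool.Agent.MP_4bd596_co.LowAbs2

/-! The abstract killing construction: squarefreeness, killed branches, length. -/

set_option autoImplicit false

namespace Pool.Agent.MP_4bd596_co.Low

variable {A : Type}

namespace Dat

variable {D : Dat A}

theorem len_C_ge (j : ℕ) :
    D.M.length + (D.P 0).length + D.M.length + D.R.length ≤ (D.C j).length := by
  obtain ⟨X, h⟩ := C_tail (D := D) j
  rw [h]; simp; omega

theorem len_W (j : ℕ) (y : List A) : (D.C (j + 1) ++ y).length =
    D.M.length + (D.P (j + 1)).length + ((D.C j).length + (D.t j).length + (D.g j).length) +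
      (D.C j).length + y.length := by
  have := len_C (D := D) (j + 1)
  have := len_N (D := D) j
  simp only [List.length_append]; omega

theorem mismatch (H : D.Hyp) {j lo hi : ℕ} (hj : j < D.J) {y : List A} (hy : D.End y)
    (ht : ¬ D.t j <+: y)
    (hp : Per (D.C (j + 1) ++ y) ((D.C j).length + (D.t j).length + (D.g j).length) lo hi)
    (hl : lo + ((D.C j).length + (D.t j).length + (D.g j).length) ≤ hi) : False := by
  obtain ⟨F, b', t', b, e1, e2, ne⟩ := H.pre j hj
  have lW := len_W (D := D) j y
  have lC := len_C_ge (D := D) j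
  have l2 := H.l2 (j + 1) hj
  have l3 := H.l3 y hy
  have lP : (D.P (j + 1)).length = F.length + 1 + (D.g j).length := by rw [e1]; simp; omega
  have lt : (D.t j).length = t'.length + 1 := by rw [e2]; simp
  have l4 := hp.1
  have o1 : Occ [b'] (D.C (j + 1) ++ y) (D.M.length + F.length) :=
    (occ_of_eq (u := D.M ++ F) (w := D.g j ++ D.N (j + 1) ++ y)
      (by simp only [C, e1, List.append_assoc])).cast (by simp)
  have o2 : Occ [b] (D.C (j + 1) ++ y) (D.M.length + (D.P (j + 1)).length + (D.C j).length +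
      t'.length) :=
    (occ_of_eq (u := D.M ++ D.P (j + 1) ++ D.C j ++ t') (w := D.g j ++ D.C j ++ y)
      (by rw [C, N_succ, e2]; simp only [List.append_assoc])).cast (by simp; omega)
  have o3 : Occ (D.t j) (D.C (j + 1) ++ y)
      (D.M.length + (D.P (j + 1)).length + (D.C j).length) :=
    (occ_of_eq (u := D.M ++ D.P (j + 1) ++ D.C j) (w := D.g j ++ D.C j ++ y)
      (by rw [C, N_succ]; simp only [List.append_assoc])).cast (by simp; omega)
  have o4 : Occ y (D.C (j + 1) ++ y) (D.C (j + 1)).length := occ_right _ _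
  simp only [List.length_append] at lW l4
  by_cases c1 : hi ≤ D.M.length + F.length
  · omega
  by_cases c2 : lo ≤ D.M.length + F.length
  · have q := (o1.fwd hp c2 (by simp; omega)).2 0 (by simp)
    have q' := o2.2 0 (by simp)
    rw [show D.M.length + (D.P (j + 1)).length + (D.C j).length + t'.length + 0 =
      D.M.length + F.length + ((D.C j).length + (D.t j).length + (D.g j).length) + 0 by omega,
      q] at q'
    simp at q'
    exact ne q'
  by_cases c3 : lo ≤ D.M.length + (D.P (j + 1)).length + (D.C j).length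
  · have q := o3.fwd hp c3 (by omega)
    have l5 := q.1
    simp only [List.length_append] at l5
    have q2 := q.restr o4 (by omega) (by omega)
    exact ht (occ_zero_iff.1 (q2.cast (by omega)))
  · omega

theorem base (H : D.Hyp) {y : List A} (hy : D.End y) : NoSq (D.C 0 ++ y) := by
  intro s p hp0 hp
  have J0 : 0 ≤ D.J := Nat.zero_le _
  have o1 := oC1 (D := D) 0 y
  have o2 : Occ (D.sR y) (D.C 0 ++ y) (D.M.length + (D.P 0).length) := oC2 (D := D) 0 y
  have l1 := len_sP (D := D) 0
  have l2 := len_sR (D := D) y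
  have lW : (D.C 0 ++ y).length = D.M.length + (D.P 0).length + (D.sR y).length := by
    simp [C, N, sR]; omega
  have l3 := hp.1
  have l4 := H.l1 0 J0
  have l5 := H.l2 0 J0
  have l6 := len_d1 H J0
  have l7 := len_d2 (D := D) 0
  by_cases c1 : s + 2 * p ≤ (D.sP 0).length
  · exact (H.sP 0 J0).1.inside o1 hp0 hp (Nat.zero_le _) (by omega)
  by_cases c2 : D.M.length + (D.P 0).length ≤ s
  · exact (H.sR y hy).1.inside o2 hp0 hp c2 (by omega)
  obtain ⟨a, lo, hi, e, oa, ob, q, q1, q2, q3⟩ := glue (ms_C H J0 hy) hp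
    (((oM_sP' 0).trans o1).cast (Nat.zero_add _)) (by omega) (by omega)
  have l8 := q.1
  have l9 := ob.1
  rcases e with e | e
  · have := (H.sR y hy).2.2 _ (ob.restr o2 (by omega) (by omega))
    have o3 := ((o_d2 H J0).trans o1).fwd q (by omega) (by omega)
    exact no2_sR H J0 hy (o3.restr o2 (by omega) (by omega))
  · have := (H.sP 0 J0).2.2 _ (oa.restr o1 (Nat.zero_le _) (by omega))
    have o3 := ((o_d1 0).trans o1).fwd q (by omega) (by omega)
    exact no1_sR H J0 hy (o3.restr o2 (by omega) (by have := o3.1; omega))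

theorem step (H : D.Hyp) {j : ℕ} (hj : j < D.J) {y : List A} (hy : D.End y) (ht : ¬ D.t j <+: y)
    (ih1 : NoSq (D.C j ++ D.ky j)) (ih2 : NoSq (D.C j ++ y)) : NoSq (D.C (j + 1) ++ y) := by
  intro s p hp0 hp
  have hj' : j ≤ D.J := hj.le
  have J0 : 0 ≤ D.J := Nat.zero_le _
  have mis := fun lo hi => mismatch H (lo := lo) (hi := hi) hj hy ht
  have t1 := fun x => two (x := x) (q := 0) (ends_d1 H hj') hj hy
    (fun z h => pos_d1 H hj' (H.sP j hj').2.2 h)
    (fun m z hm ne => no1_sP H hj' hm ne) (fun y z hy => no1_sR H hj' hy)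
  have l7 := len_d2 (D := D) j
  have l8 := len_sP (D := D) j
  have l4 := H.l1 j hj'
  have t2 := fun x => two (x := x) (q := D.M.length + D.lam) (ends_d2 H hj') hj hy
    (fun z h => by have := pos_d2 H hj' (H.sP j hj').2.2 h; omega)
    (fun m z hm ne => no2_sP H hj' hm ne) (fun y z hy => no2_sR H hj' hy)
  obtain ⟨N', hN⟩ := N_head (D := D) j
  obtain ⟨X, hX⟩ := C_tail (D := D) j
  have lW := len_W (D := D) j y
  have lX : (D.C j).length =
      X.length + (D.M.length + (D.P 0).length + D.M.length + D.R.length) := by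
    rw [hX]; simp; omega
  have o1 := oC1 (D := D) (j + 1) y
  have oV := oC2 (D := D) (j + 1) y
  have o2 : Occ (D.C j ++ D.ky j) (D.C (j + 1) ++ y) (D.M.length + (D.P (j + 1)).length) :=
    (occ_of_eq (u := D.M ++ D.P (j + 1)) (w := D.P j ++ D.N j ++ y)
      (by rw [C, N_succ]; simp only [C, ky, List.append_assoc])).cast (by simp)
  have o3 : Occ (D.C j ++ y) (D.C (j + 1) ++ y) (D.M.length + (D.P (j + 1)).length +
      ((D.C j).length + (D.t j).length + (D.g j).length)) :=
    (occ_of_eq (u := D.M ++ D.P (j + 1) ++ D.C j ++ D.t j ++ D.g j) (w := [])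
      (by rw [C, N_succ]; simp only [List.append_assoc, List.append_nil])).cast (by simp; omega)
  have oA := (oV1 j y).trans oV
  have oB := (oV3 j y).trans oV
  have oK : Occ (D.sR (D.ky j)) (D.C j ++ D.ky j)
      (X.length + (D.M.length + (D.P 0).length)) :=
    (occ_of_eq (u := X ++ (D.M ++ D.P 0)) (w := [])
      (by rw [hX]; simp only [sR, List.append_assoc, List.append_nil])).cast (by simp)
  have oP : Occ (D.sP 0) (D.C j ++ D.ky j) X.length :=
    occ_of_eq (u := X) (w := D.R ++ D.ky j) (by rw [hX]; simp only [sP, List.append_assoc])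
  have oK' := oK.trans o2
  have oP' := oP.trans o2
  have l1 := len_sP (D := D) (j + 1)
  have l2 := len_ky (D := D) j
  have l3 := hp.1
  have l5 := H.l1 (j + 1) hj
  have l6 := len_d1 H hj'
  have l9 := len_sR (D := D) (D.ky j)
  have l10 := len_sP (D := D) 0
  have l11 := H.l1 0 J0
  have l12 := H.l2 0 J0
  have l13 := len_d2 (D := D) 0
  have l14 := len_C (D := D) j
  have l15 := H.l2 (j + 1) hj
  have lu : (D.C j ++ D.ky j).length = (D.C j).length + (D.ky j).length := by simp
  have lv : (D.C j ++ y).length = (D.C j).length + y.length := by simp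
  have lw : (D.N j ++ D.ky j).length = (D.N j).length + (D.ky j).length := by simp
  generalize ha1 : D.M.length + (D.P (j + 1)).length = a1 at *
  generalize hp1 : (D.C j).length + (D.t j).length + (D.g j).length = p0 at *
  by_cases c1 : s + 2 * p ≤ (D.sP (j + 1)).length
  · exact (H.sP (j + 1) hj).1.inside o1 hp0 hp (Nat.zero_le _) (by omega)
  by_cases c2 : a1 ≤ s ∧ s + 2 * p ≤ a1 + (D.C j ++ D.ky j).length
  · exact ih1.inside o2 hp0 hp c2.1 c2.2
  by_cases c3 : a1 + p0 ≤ s
  · exact ih2.inside o3 hp0 hp c3 (by omega)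
  obtain ⟨m, hm, om, m1, m2⟩ : ∃ m, (m = a1 ∨ m = a1 + p0) ∧ Occ (D.sP j) (D.C (j + 1) ++ y) m ∧
      s ≤ m ∧ m + D.M.length ≤ s + 2 * p := by
    by_cases c4 : s < a1
    · exact ⟨a1, Or.inl rfl, oA.cast (by omega), by omega, by omega⟩
    · exact ⟨a1 + p0, Or.inr rfl, oB, by omega, by omega⟩
  obtain ⟨a, lo, hi, e, oa, ob, q, q1, q2, q3⟩ := glue (ms_C H hj hy) hp
    (((oM_sP j).trans om).cast (Nat.add_zero _)) m1 m2
  have od1 := (o_d1 j).trans om
  have od2 := (o_d2 H hj').trans om
  have fin : p = p0 → False := fun e => mis lo hi (e ▸ q) (by omega)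
  rcases e with e | e
  · by_cases c5 : a + D.M.length + D.lam ≤ hi
    · have := t1 _ (od1.fwd q (by omega) (by omega))
      exact fin (by omega)
    · have hp2 : D.M.length + (D.P j).length ≤ p := by
        by_contra c
        have := (H.sP j hj').2.2 _ (ob.restr om (by omega) (by omega))
        omega
      have := t2 _ (od2.bwd q (by omega) (by omega))
      exact fin (by omega)
  · by_cases c5 : a + D.M.length + D.lam ≤ hi
    · have := t1 _ (od1.bwd q (by omega) (by omega))
      exact fin (by omega)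
    rcases hm with hm | hm
    · have := (H.sP (j + 1) hj).2.2 _ (oa.restr o1 (Nat.zero_le _) (by omega))
      omega
    · have hk := end_ky (D := D) hj
      have ha : a ≤ a1 + (X.length + (D.M.length + (D.P 0).length)) := by
        by_contra c
        have := (H.sR _ hk).2.2 _ (oa.restr oK' (by omega) (by omega))
        omega
      rcases Nat.eq_or_lt_of_le ha with ha | ha
      · have o5 := ((o_d2 H J0).trans oP').fwd q (by omega) (by omega)
        exact no2_sR H J0 hk (o5.restr oK' (by omega) (by omega))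
      · have ha' : a ≤ a1 + X.length := by
          by_contra c
          have := (H.sP 0 J0).2.2 _ (oa.restr oP' (by omega) (by omega))
          omega
        have o5 := oK'.bwd q (by omega) (by omega)
        have ek := (H.sR _ hk).2.2
        rcases splitC ek o5 with c | ⟨c6, -⟩
        · exact noK_sP H hj hj c
        · have o6 := o5.restr o2 (by omega) (by omega)
          rcases splitC ek o6 with c | ⟨c7, c8⟩
          · exact noK_sP H hj hj' c
          · have := posK H hj c8
            omega

theorem noSq_C (H : D.Hyp) (j : ℕ) : j ≤ D.J → ∀ y, (y = D.ys ∨ ∃ i, j ≤ i ∧ i < D.J ∧ y = D.ky i) →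
    NoSq (D.C j ++ y) := by
  induction j with
  | zero =>
    rintro _ y (h | ⟨i, _, h⟩)
    · exact base H (Or.inl h)
    · exact base H (Or.inr ⟨i, h⟩)
  | succ j ih =>
    intro hj y hy
    have i1 := ih (by omega) (D.ky j) (Or.inr ⟨j, le_rfl, hj, rfl⟩)
    rcases hy with h | ⟨i, h1, h2, h3⟩
    · exact step H hj (Or.inl h) (h ▸ H.a1 j hj) i1 (ih (by omega) y (Or.inl h))
    · exact step H hj (Or.inr ⟨i, h2, h3⟩) (h3 ▸ H.a2 i j h2 hj (by omega)) i1
        (ih (by omega) y (Or.inr ⟨i, by omega, h2, h3⟩))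

theorem C_suffix {i j : ℕ} (h : i ≤ j) : D.C i <:+ D.C j := by
  induction h with
  | refl => exact List.suffix_rfl
  | @step k _ ih =>
    refine ih.trans ⟨D.M ++ D.P (k + 1) ++ D.C k ++ D.t k ++ D.g k, ?_⟩
    rw [C.eq_1 D (k + 1), N_succ]; simp only [List.append_assoc]

theorem kill (H : D.Hyp) {j : ℕ} (hj : j < D.J) (r : List A) :
    ¬ NoSq (D.C D.J ++ (D.t j ++ r)) := by
  obtain ⟨F, b', t', b, e1, -, -⟩ := H.pre j hj
  obtain ⟨X, hX⟩ := C_suffix (D := D) (i := j + 1) (j := D.J) hj
  refine not_noSq_of_occ (d := D.g j ++ D.C j ++ D.t j) ?_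
    (occ_of_eq (u := X ++ D.M ++ F ++ [b']) (w := r) ?_)
  · intro e
    have := congrArg List.length e
    have := len_C_ge (D := D) j
    have := H.m1
    have := len_M (D := D)
    simp only [List.length_append, List.length_nil] at *
    omega
  · rw [← hX, C, N_succ, e1]; simp only [List.append_assoc]

theorem len_bound (H : D.Hyp) (j : ℕ) : j ≤ D.J →
    (D.C j).length + 2 * D.R.length ≤ 2 ^ j * (5 * D.R.length) := by
  induction j with
  | zero =>
    intro h
    have := H.l2 0 h
    have : (D.C 0).length = D.M.length + (D.P 0).length + D.M.length + D.R.length := by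
      simp [C, N]; omega
    omega
  | succ j ih =>
    intro h
    have := ih (by omega)
    have := len_W (D := D) j []
    have := H.l2 (j + 1) h
    have := H.l3 _ (end_ky (D := D) h)
    have := len_ky (D := D) j
    simp only [List.append_nil, List.length_nil] at *
    rw [pow_succ, mul_comm (2 ^ j) 2, mul_assoc]
    omega

/-- the result of the construction -/
theorem main (H : D.Hyp) : ∃ w : List A, D.R <:+ w ∧ NoSq (w ++ D.ys) ∧
    (∀ j, j < D.J → ∀ r, ¬ NoSq (w ++ (D.t j ++ r))) ∧ w.length ≤ 2 ^ D.J * (5 * D.R.length) := by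
  refine ⟨D.C D.J, ?_, noSq_C H _ le_rfl _ (Or.inl rfl), fun j hj r => kill H hj r, ?_⟩
  · obtain ⟨X, h⟩ := C_tail (D := D) D.J
    exact ⟨X ++ (D.M ++ D.P 0 ++ D.M), by rw [h]; simp only [List.append_assoc]⟩
  · have := len_bound H _ le_rfl
    omega

end Dat

end Pool.Agent.MP_4bd596_co.Low
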