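import Pool.Agent.MP_4bd596_co.LowOcc

/-! Boolean checks on ternary words and the uniform morphism of length 13. -/

set_option autoImplicit false

namespace Pool.Agent.MP_4bd596_co.Low

/-- ternary words -/
abbrev W3 := List (Fin 3)

/-- the letter 0 -/
def o : Fin 3 := ⟨0, by decide⟩
/-- the letter 1 -/
def i : Fin 3 := ⟨1, by decide⟩
/-- the letter 2 -/
def z : Fin 3 := ⟨2, by decide⟩

/-- equality of letters -/
def eqb (a b : Fin 3) : Bool := Nat.beq a.val b.val

theorem eqb_iff {a b : Fin 3} : eqb a b = true ↔ a = b := by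
  simp [eqb, Fin.ext_iff]

/-- prefix test -/
def pre : W3 → W3 → Bool
  | [], _ => true
  | _ :: _, [] => false
  | a :: u, b :: v => eqb a b && pre u v

theorem pre_iff : ∀ {u v : W3}, pre u v = true ↔ u <+: v
  | [], _ => by simp [pre]
  | _ :: _, [] => by simp [pre]
  | a :: u, b :: v => by simp [pre, eqb_iff, pre_iff (u := u) (v := v), List.cons_prefix_cons]

/-- equality test -/
def eqw (u v : W3) : Bool := pre u v && pre v u

theorem eqw_iff {u v : W3} : eqw u v = true ↔ u = v := by
  simp only [eqw, Bool.and_eq_true, pre_iff]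
  exact ⟨fun h => h.1.eq_of_length (le_antisymm h.1.length_le h.2.length_le),
    fun h => h ▸ ⟨List.prefix_rfl, List.prefix_rfl⟩⟩

/-- membership test -/
def memw (u : W3) (l : List W3) : Bool := l.any (eqw u)

theorem memw_iff {u : W3} {l : List W3} : memw u l = true ↔ u ∈ l := by
  simp only [memw, List.any_eq_true, eqw_iff]
  exact ⟨fun ⟨_, h, e⟩ => e ▸ h, fun h => ⟨u, h, rfl⟩⟩

/-- base four code -/
noncomputable def code (w : W3) : ℕ := List.rec 0 (fun a _ r => Nat.add a.val (Nat.mul 4 r)) w

theorem code_cons (a : Fin 3) (w : W3) : code (a :: w) = a.val + 4 * code w := rfl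

theorem code_drop : ∀ (s : ℕ) (w : W3), code (w.drop s) = code w / 4 ^ s
  | 0, w => by simp
  | s + 1, [] => by simp [code]
  | s + 1, a :: w => by
    have := a.2
    rw [List.drop_succ_cons, code_drop s w, code_cons, pow_succ', ← Nat.div_div_eq_div_mul]
    congr 1; omega

theorem code_take : ∀ (p : ℕ) (w : W3), code (w.take p) = code w % 4 ^ p
  | 0, w => by simp [code, Nat.mod_one]
  | p + 1, [] => by simp [code]
  | p + 1, a :: w => by
    have := a.2
    rw [List.take_succ_cons, code_cons, code_take p w, code_cons, pow_succ', Nat.mod_mul,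
      show (a.val + 4 * code w) % 4 = a.val by omega,
      show (a.val + 4 * code w) / 4 = code w by omega]

/-- evaluate the argument first -/
def frc (n : ℕ) (f : ℕ → Bool) : Bool :=
  match n with
  | 0 => f 0
  | k + 1 => f (Nat.succ k)

theorem frc_eq (n : ℕ) (f : ℕ → Bool) : frc n f = f n := by cases n <;> rfl

/-- no square at the low end, k periods -/
noncomputable def np (m k : ℕ) : ℕ → Bool :=
  Nat.rec (fun _ => true) (fun _ ih q =>
    cond (Nat.beq (Nat.mod m q) (Nat.mod (Nat.div m q) q)) false (ih (Nat.mul 4 q))) k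

theorem np_spec (m : ℕ) : ∀ (k j : ℕ), np m k (4 ^ j) = true → ∀ p, j ≤ p → p < j + k →
    m % 4 ^ p ≠ m / 4 ^ p % 4 ^ p
  | 0, _, _, p, h1, h2 => by omega
  | k + 1, j, h, p, h1, h2 => by
    have e : np m (k + 1) (4 ^ j) = cond (Nat.beq (m % 4 ^ j) (m / 4 ^ j % 4 ^ j)) false
      (np m k (4 * 4 ^ j)) := rfl
    rw [e] at h
    cases hb : Nat.beq (m % 4 ^ j) (m / 4 ^ j % 4 ^ j) with
    | true => rw [hb] at h; exact absurd h (by simp)
    | false =>
      rw [hb, cond_false, ← pow_succ'] at h
      rcases Nat.eq_or_lt_of_le h1 with e | e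
      · subst e; exact Nat.ne_of_beq_eq_false hb
      · exact np_spec m k (j + 1) h p e (by omega)

/-- no square at any position -/
noncomputable def sfn (n : ℕ) : ℕ → Bool :=
  Nat.rec (fun _ => true) (fun l ih m =>
    cond (np m (Nat.div (Nat.succ l) 2) 4) (frc (Nat.div m 4) ih) false) n

theorem sfn_spec : ∀ (n m : ℕ), sfn n m = true → ∀ s, s < n →
    np (m / 4 ^ s) ((n - s) / 2) 4 = true
  | 0, _, _, s, h => by omega
  | n + 1, m, h, s, hs => by
    have e : sfn (n + 1) m = cond (np m ((n + 1) / 2) 4) (frc (m / 4) (sfn n)) false := rfl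
    rw [e, frc_eq] at h
    cases hb : np m ((n + 1) / 2) 4 with
    | false => rw [hb] at h; exact absurd h (by simp)
    | true =>
      rw [hb, cond_true] at h
      rcases s with _ | s
      · simpa using hb
      · have := sfn_spec n (m / 4) h s (by omega)
        rwa [Nat.div_div_eq_div_mul, ← pow_succ', show n - s = n + 1 - (s + 1) by omega] at this

/-- squarefreeness test -/
noncomputable def sfb (w : W3) : Bool := frc (code w) fun m => frc w.length fun n => sfn n m

theorem sfb_spec {w : W3} (h : sfb w = true) : NoSq w := by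
  intro s p hp0 hp
  have l := hp.1
  rw [sfb, frc_eq, frc_eq] at h
  have h1 := sfn_spec _ _ h s (by omega)
  refine np_spec _ _ 1 (by simpa using h1) p hp0 (by omega) ?_
  rw [← code_drop, ← code_drop, ← code_take, ← code_take]
  congr 1
  apply List.ext_getElem?
  intro k
  by_cases c : k < p
  · rw [List.getElem?_take_of_lt c, List.getElem?_take_of_lt c, List.getElem?_drop,
      List.getElem?_drop, List.getElem?_drop, hp.2 (s + k) (by omega) (by omega)]
    congr 1; omega
  · rw [List.getElem?_eq_none (by simp; omega), List.getElem?_eq_none (by simp; omega)]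

/-- a square prefix -/
def sqPre (r : W3) : Bool :=
  (List.range (r.length / 2)).any fun k => pre (r.take (k + 1)) (r.drop (k + 1))

/-- a square suffix -/
def hasSq (w : W3) : Bool := sqPre w.reverse

theorem hasSq_spec {w : W3} (h : hasSq w = true) : ¬ NoSq w := by
  simp only [hasSq, sqPre, List.any_eq_true, List.mem_range, pre_iff] at h
  obtain ⟨k, hk, v, e⟩ := h
  intro hw
  refine noSq_iff.1 hw (w.reverse.take (k + 1)).reverse ?_ ?_
  · intro e0
    have := congrArg List.length e0
    simp only [List.length_reverse, List.length_take, List.length_nil] at this hk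
    omega
  · rw [← List.reverse_append, ← List.reverse_infix, List.reverse_reverse]
    refine List.IsPrefix.isInfix ⟨v, ?_⟩
    rw [List.append_assoc, e, List.take_append_drop]

/-- every occurrence is at an allowed position -/
def allOcc (d : W3) (ok : ℕ → Bool) : W3 → ℕ → Bool
  | [], _ => true
  | a :: w, k => cond (pre d (a :: w)) (ok k) true && allOcc d ok w (k + 1)

theorem allOcc_spec {d : W3} (hd : 0 < d.length) (ok : ℕ → Bool) : ∀ (w : W3) (k x : ℕ),
    allOcc d ok w k = true → Occ d w x → ok (k + x) = true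
  | [], _, _, _, h => by have := h.1; simp only [List.length_nil] at this; omega
  | a :: w, k, 0, h, ho => by
    simp only [allOcc, Bool.and_eq_true] at h
    have := h.1
    rwa [pre_iff.2 (occ_zero_iff.1 ho)] at this
  | a :: w, k, x + 1, h, ho => by
    simp only [allOcc, Bool.and_eq_true] at h
    have o1 : Occ d w x := ⟨by have := ho.1; simp at this; omega, fun j hj => by
      rw [← ho.2 j hj, show x + 1 + j = x + j + 1 by omega]; simp⟩
    have := allOcc_spec hd ok w (k + 1) x h.2 o1
    rwa [show k + 1 + x = k + (x + 1) by omega] at this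

/-- choice by a letter -/
def sel {α : Type} (a : Fin 3) (x y w : α) : α :=
  cond (Nat.beq a.val 0) x (cond (Nat.beq a.val 1) y w)

/-- the morphism on letters -/
def hl (a : Fin 3) : W3 :=
  sel a [o, i, z, i, o, z, i, z, o, i, z, i, o] [i, z, o, z, i, o, z, o, i, z, o, z, i]
    [z, o, i, o, z, i, o, i, z, o, i, o, z]

/-- first half of the marker -/
def m1 : W3 := [i, o, i, z, o, z, i, z, o, i, z]
/-- second half of the marker -/
def m2 : W3 := [i, o, z, i, z, o, i, o, z, i, o]

/-- all letters -/
def all3 (f : Fin 3 → Bool) : Bool := f o && f i && f z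

theorem all3_spec {f : Fin 3 → Bool} (h : all3 f = true) (a : Fin 3) : f a = true := by
  simp only [all3, Bool.and_eq_true] at h
  fin_cases a
  · exact h.1.1
  · exact h.1.2
  · exact h.2

/-- check of a head: marker and connector -/
noncomputable def headOK (c e e' : Fin 3) (r : W3) : Bool :=
  Nat.beq r.length 11 && pre [c] (r.drop 10) && sfb (m1 ++ m2 ++ r ++ (hl e ++ hl e')) &&
    all3 (fun a => allOcc (hl a) (Nat.beq 33) (m1 ++ m2 ++ r ++ hl e) 0) &&
    allOcc m1 (Nat.beq 0) (m1 ++ m2 ++ r ++ hl e) 0 &&
    allOcc m2 (Nat.beq 11) (m1 ++ m2 ++ r ++ hl e) 0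

/-- check of a tail; b says whether it ends with the marker -/
noncomputable def tailOK (c' c : Fin 3) (b : Bool) (t : W3) : Bool :=
  sfb (hl c' ++ hl c ++ t) && all3 (fun a => allOcc (hl a) (Nat.beq 0) (hl c ++ t) 0) &&
    allOcc m1 (fun x => b && Nat.beq (x + 9) t.length) (hl c ++ t) 0 &&
    allOcc m2 (fun x => b && Nat.beq x (t.length + 2)) (hl c ++ t) 0

/-- check of the morphism -/
noncomputable def morOK : Bool :=
  all3 fun a => all3 fun b => eqb a b ||
    (all3 (fun c => eqb b c || sfb (hl a ++ hl b ++ hl c)) &&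
      all3 (fun c => allOcc (hl c) (fun x => Nat.beq x 0 || Nat.beq x 13) (hl a ++ hl b) 0) &&
      allOcc m1 (fun _ => false) (hl a ++ hl b) 0 && allOcc m2 (fun _ => false) (hl a ++ hl b) 0)

theorem morOK_true : morOK = true := by decide +kernel

theorem len_hl (a : Fin 3) : (hl a).length = 13 := by revert a; decide

theorem last_hl (a : Fin 3) : (hl a)[12]? = some a := by revert a; decide

end Pool.Agent.MP_4bd596_co.Low
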