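import Pool.Agent.MP_4bd596_co.LowTab

/-! The check of the tables, one part. -/

set_option autoImplicit false

namespace Pool.Agent.MP_4bd596_co.Low

theorem inOK_010 : inOK o i o = true := by decide +kernel

theorem inOK_011 : inOK o i i = true := by decide +kernel

theorem inOK_012 : inOK o i z = true := by decide +kernel

theorem inOK_020 : inOK o z o = true := by decide +kernel

theorem inOK_021 : inOK o z i = true := by decide +kernel

theorem inOK_022 : inOK o z z = true := by decide +kernel

end Pool.Agent.MP_4bd596_co.Low
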