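import Pool.Agent.MP_4bd596_co.LowTab

/-! The check of the tables, one part. -/

set_option autoImplicit false

namespace Pool.Agent.MP_4bd596_co.Low

theorem inOK_100 : inOK i o o = true := by decide +kernel

theorem inOK_101 : inOK i o i = true := by decide +kernel

theorem inOK_102 : inOK i o z = true := by decide +kernel

theorem inOK_120 : inOK i z o = true := by decide +kernel

theorem inOK_121 : inOK i z i = true := by decide +kernel

theorem inOK_122 : inOK i z z = true := by decide +kernel

end Pool.Agent.MP_4bd596_co.Low
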