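import Pool.Agent.MP_4bd596_co.LowTab

/-! The check of the tables, one part. -/

set_option autoImplicit false

namespace Pool.Agent.MP_4bd596_co.Low

theorem inOK_200 : inOK z o o = true := by decide +kernel

theorem inOK_201 : inOK z o i = true := by decide +kernel

theorem inOK_202 : inOK z o z = true := by decide +kernel

theorem inOK_210 : inOK z i o = true := by decide +kernel

theorem inOK_211 : inOK z i i = true := by decide +kernel

theorem inOK_212 : inOK z i z = true := by decide +kernel

end Pool.Agent.MP_4bd596_co.Low
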