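import Pool.Agent.MP_4bd596_co.LowSeg
import Pool.Agent.MP_4bd596_co.LowT0
import Pool.Agent.MP_4bd596_co.LowT1
import Pool.Agent.MP_4bd596_co.LowT2

/-! What the tables give, and segments over a larger alphabet. -/

set_option autoImplicit false

namespace Pool.Agent.MP_4bd596_co.Low

theorem cases3 (a : Fin 3) : a = o ∨ a = i ∨ a = z := by revert a; decide

theorem inOK_all {c' c : Fin 3} (h : c' ≠ c) (a : Fin 3) : inOK c' c a = true := by
  rcases cases3 c' with rfl | rfl | rfl <;> rcases cases3 c with rfl | rfl | rfl <;>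
    rcases cases3 a with rfl | rfl | rfl
  exacts [absurd rfl h, absurd rfl h, absurd rfl h, inOK_010, inOK_011, inOK_012, inOK_020,
    inOK_021, inOK_022, inOK_100, inOK_101, inOK_102, absurd rfl h, absurd rfl h, absurd rfl h,
    inOK_120, inOK_121, inOK_122, inOK_200, inOK_201, inOK_202, inOK_210, inOK_211, inOK_212,
    absurd rfl h, absurd rfl h, absurd rfl h]

/-- properties of the inner words -/
structure InP (c' c a : Fin 3) : Prop where
  nil : [] ∈ inn c' c a
  len : (inn c' c a).length ≤ 17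
  nh : hl a ∉ inn c' c a
  prf : a ≠ c → ∀ k, k < 13 → (hl a).take k ∈ inn c' c a
  l12 : ∀ p ∈ inn c' c a, p.length ≤ 12
  dl : ∀ p ∈ inn c' c a, p.dropLast ∈ inn c' c a
  tl : ∀ p ∈ inn c' c a, Tail c' c false p
  cov : ∀ p ∈ inn c' c a, ∀ b, p ++ [b] ∈ inn c' c a ∨ p ++ [b] = hl a ∨
    hasSq (hl c' ++ hl c ++ (p ++ [b])) = true ∨ nodeOK c' c p b = true

theorem inP {c' c : Fin 3} (h : c' ≠ c) (a : Fin 3) : InP c' c a := by
  have g := inOK_all h a
  simp only [inOK, Bool.and_eq_true, memw_iff, Nat.ble_eq, Bool.or_eq_true, eqb_iff,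
    List.all_eq_true, List.mem_range, Bool.not_eq_true'] at g
  obtain ⟨⟨⟨⟨g1, g2⟩, g3⟩, g4⟩, g5⟩ := g
  refine ⟨g1, g2, fun m => ?_, fun ne => g4.resolve_left ne, fun p hp => (g5 p hp).1.1.1,
    fun p hp => (g5 p hp).1.1.2, fun p hp => tail_of (g5 p hp).1.2, fun p hp b => ?_⟩
  · rw [memw_iff.2 m] at g3; exact absurd g3 (by simp)
  · have := all3_spec (g5 p hp).2 b
    simpa only [Bool.or_eq_true, memw_iff, eqw_iff, or_assoc] using this

theorem InP.closed {c' c a : Fin 3} (H : InP c' c a) {q : W3} (v : W3) :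
    q ++ v ∈ inn c' c a → q ∈ inn c' c a := by
  induction v using List.reverseRecOn with
  | nil => simp
  | append_singleton v b ih =>
    intro h
    have := H.dl _ h
    rw [← List.append_assoc, List.dropLast_concat] at this
    exact ih this

theorem pair_of {c' c b : Fin 3} {p : W3} (h : nodeOK c' c p b = true) :
    ∃ g : W3, p.length + 1 + g.length = 32 ∧ Tail c' c true (p ++ [b] ++ g ++ (m1 ++ m2)) ∧
      ∀ e' e, e' ≠ e → ∃ (F : W3) (b' : Fin 3), F.length = p.length + 13 ∧ b' ≠ b ∧
        Tail e' e true (F ++ [b'] ++ g ++ (m1 ++ m2)) := by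
  unfold nodeOK at h
  generalize (lk (p ++ [b]) (gad c' c)).1 = g at h
  generalize (lk (p ++ [b]) (gad c' c)).2 = Ls at h
  simp only [pairOK, Bool.and_eq_true, Nat.beq_eq] at h
  obtain ⟨⟨h1, h2⟩, h3⟩ := h
  refine ⟨g, h1, tail_of h2, fun e' e ne => ?_⟩
  have h4 := all3_spec (all3_spec h3 e') e
  generalize Ls.getD (3 * e'.val + e.val) [] = L at h4
  simp only [Bool.or_eq_true, eqb_iff, ne, false_or, Bool.and_eq_true, Nat.beq_eq,
    Bool.not_eq_true'] at h4
  obtain ⟨⟨h5, h6⟩, h7⟩ := h4
  obtain ⟨b', hb⟩ : ∃ b', L.drop (p.length + 13) = [b'] :=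
    List.length_eq_one_iff.1 (by simp; omega)
  refine ⟨L.take (p.length + 13), b', by simp; omega, ?_, ?_⟩
  · rintro rfl
    rw [hb, pre_iff.2 List.prefix_rfl] at h6
    exact absurd h6 (by simp)
  · rw [← hb, List.take_append_drop]
    exact tail_of h7

theorem default_tail {e' e : Fin 3} (h : e' ≠ e) :
    ∃ t : W3, t.length = 45 ∧ Tail e' e true (t ++ (m1 ++ m2)) := by
  obtain ⟨g, h1, -, h2⟩ := pair_of node0
  obtain ⟨F, b', h3, -, h4⟩ := h2 e' e h
  exact ⟨F ++ [b'] ++ g, by simp at h1 h3 ⊢; omega, h4⟩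

variable {A : Type} {e : Fin 3 → A}

/-- squarefree, with markers only at the ends -/
structure Good (e : Fin 3 → A) (S : List A) : Prop where
  sf : NoSq S
  o0 : Occ (m1.map e ++ m2.map e) S 0
  o1 : ∀ x, Occ (m1.map e) S x → x = 0 ∨ (x + 22 = S.length ∧ Occ (m1.map e ++ m2.map e) S x)
  o2 : ∀ x, Occ (m2.map e) S x →
    x = 11 ∨ (x + 11 = S.length ∧ 11 ≤ x ∧ Occ (m1.map e ++ m2.map e) S (x - 11))

theorem occ_head (τ : ℕ → Fin 3) (s n : ℕ) (t : W3) :
    Occ (m1.map e ++ m2.map e) ((seg τ s n t).map e) 0 := by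
  rw [seg]
  simp only [List.map_append]
  exact (occ_self _).fst.fst.fst

theorem good_open (he : Function.Injective e) {τ : ℕ → Fin 3} {L s n : ℕ} {t : W3}
    (H : SegH τ L s n false t) : Good e ((seg τ s n t).map e) :=
  ⟨(noSq_map he).2 H.noSq, occ_head τ s n t,
    fun x h => Or.inl (by simpa using H.pos1 ((occ_map he).1 h)),
    fun x h => Or.inl (by simpa using H.pos2 ((occ_map he).1 h))⟩

theorem good_closed (he : Function.Injective e) {τ : ℕ → Fin 3} {L s n : ℕ} {t : W3}
    (H : SegH τ L s n true (t ++ (m1 ++ m2))) : Good e ((seg τ s n (t ++ (m1 ++ m2))).map e) := by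
  have l := H.len
  have o : Occ (m1.map e ++ m2.map e) ((seg τ s n (t ++ (m1 ++ m2))).map e)
      (33 + 13 * n + t.length) := by
    rw [← List.map_append, occ_map he, seg, ← List.append_assoc]
    exact (occ_right _ _).cast (by simp [H.head.len, len_m1, len_m2, len_blk]; omega)
  simp only [List.length_append, len_m1, len_m2] at l
  refine ⟨(noSq_map he).2 H.noSq, occ_head τ s n _, fun x h => ?_, fun x h => ?_⟩
  · rcases H.pos1 ((occ_map he).1 h) with c | c
    · exact Or.inl c
    · exact Or.inr ⟨by simpa using c.2, o.cast (by omega)⟩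
  · rcases H.pos2 ((occ_map he).1 h) with c | c
    · exact Or.inl c
    · exact Or.inr ⟨by simpa using c.2, by omega, o.cast (by omega)⟩

theorem good_fresh (he : Function.Injective e) {τ : ℕ → Fin 3} {L s n s' n' : ℕ} {p F g : W3}
    (H : SegH τ L s n false p) (H' : SegH τ L s' n' true (F ++ g ++ (m1 ++ m2))) {β : A}
    (hβ : ∀ b, e b ≠ β) :
    Good e ((seg τ s n p).map e ++ [β] ++ (g ++ (m1 ++ m2)).map e) := by
  have nm : ∀ w : W3, β ∉ w.map e := fun w h => by
    obtain ⟨b, -, hb⟩ := List.mem_map.1 h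
    exact hβ b hb
  have l' := H'.len
  have oz : Occ (g ++ (m1 ++ m2)) (seg τ s' n' (F ++ g ++ (m1 ++ m2))) (33 + 13 * n' + F.length) :=
    by
      rw [seg, List.append_assoc F, ← List.append_assoc _ F]
      exact (occ_right _ _).cast (by simp [H'.head.len, len_m1, len_m2, len_blk]; omega)
  have oL : Occ ((seg τ s n p).map e) ((seg τ s n p).map e ++ [β] ++ (g ++ (m1 ++ m2)).map e) 0 :=
    (occ_self _).fst.fst
  have oR : Occ ((g ++ (m1 ++ m2)).map e)
      ((seg τ s n p).map e ++ [β] ++ (g ++ (m1 ++ m2)).map e) ((seg τ s n p).length + 1) :=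
    (occ_right _ _).cast (by simp)
  have oM : Occ (m1.map e ++ m2.map e)
      ((seg τ s n p).map e ++ [β] ++ (g ++ (m1 ++ m2)).map e)
      ((seg τ s n p).length + 1 + g.length) := by
    have := oR
    rw [List.map_append (l₁ := g), List.map_append (l₁ := m1)] at this ⊢
    exact this.snd.cast (by simp)
  have lS : ((seg τ s n p).map e ++ [β] ++ (g ++ (m1 ++ m2)).map e).length =
      (seg τ s n p).length + 1 + g.length + 22 := by simp [len_m1, len_m2]; omega
  simp only [List.length_append, len_m1, len_m2] at l'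
  refine ⟨noSq_fresh ((noSq_map he).2 H.noSq) ((noSq_map he).2 (H'.noSq.of_occ oz)) (nm _) (nm _),
    ((occ_head τ s n p).trans oL).cast rfl, fun x h => ?_, fun x h => ?_⟩
  · have hx := h.1
    rcases occ_fresh (nm _) h with c | c
    · have := H.pos1 ((occ_map he).1 (h.restr oL (Nat.zero_le _) (by omega)))
      exact Or.inl (by simpa using this)
    · simp only [List.length_map, len_m1] at c hx
      have := H'.pos1 (((occ_map he).1 (h.restr oR c
        (by simp [len_m1, len_m2]; omega))).trans oz)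
      exact Or.inr ⟨by omega, oM.cast (by omega)⟩
  · have hx := h.1
    rcases occ_fresh (nm _) h with c | c
    · have := H.pos2 ((occ_map he).1 (h.restr oL (Nat.zero_le _) (by omega)))
      exact Or.inl (by simpa using this)
    · simp only [List.length_map, len_m2] at c hx
      have := H'.pos2 (((occ_map he).1 (h.restr oR c
        (by simp [len_m1, len_m2]; omega))).trans oz)
      exact Or.inr ⟨by omega, by omega, oM.cast (by omega)⟩

theorem exists_Q (L : ℕ) : ∃ τ, Q τ L := by
  have key : ∀ w : W3, NoSq w → Q (fun k => w.getD k o) w.length := by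
    intro w hw s p hp hl h
    refine hw s p hp ⟨by omega, fun k a b => ?_⟩
    have := h k a b
    simp only [List.getD_eq_getElem?_getD] at this
    rw [List.getElem?_eq_getElem (show k < w.length by omega),
      List.getElem?_eq_getElem (show k + p < w.length by omega)] at this ⊢
    simpa using this
  have mono : ∀ τ a b, Q τ a → b ≤ a → Q τ b := fun τ a b h hb s p hp hl => h s p hp (by omega)
  induction L with
  | zero => exact ⟨fun _ => o, fun s p hp hl => by omega⟩
  | succ L ih =>
    by_cases c : L < 4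
    · exact ⟨_, mono _ _ _ (key [o, i, o, z] (sfb_spec (by decide +kernel))) (by simp; omega)⟩
    · obtain ⟨τ, h⟩ := ih
      have H : SegH τ L 0 (L - 1) false [] := ⟨h, by omega, by omega,
        (inP (by
          have := h.ne (s := L - 2) (by omega)
          rwa [show L - 2 + 1 = 0 + (L - 1) by omega, show L - 2 = 0 + (L - 1) - 1 by omega] at this)
          o).tl _ (inP (by
          have := h.ne (s := L - 2) (by omega)
          rwa [show L - 2 + 1 = 0 + (L - 1) by omega, show L - 2 = 0 + (L - 1) - 1 by omega] at this)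
          o).nil⟩
      exact ⟨_, mono _ _ _ (key _ H.noSq) (by rw [H.len]; omega)⟩

end Pool.Agent.MP_4bd596_co.Low
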