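import Pool.Agent.MP_4bd596_co.LowNode
import Pool.Agent.MP_4bd596_co.LowAbs3

/-! The construction over an alphabet with at least three letters. -/

set_option autoImplicit false

namespace Pool.Agent.MP_4bd596_co.Low

variable {A : Type} {e : Fin 3 → A} {τ : ℕ → Fin 3} {L n0 N : ℕ}

theorem cmp {d S S' : List A} {x x' k : ℕ} (h : Occ d S x) (h' : Occ d S' x') (hk : k < d.length) :
    S[x + k]? = S'[x' + k]? := by rw [h.2 k hk, h'.2 k hk]

theorem good_spec {D : Dat A} (h1 : D.M1 = m1.map e) (h2 : D.M2 = m2.map e) {S : List A}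
    (G : Good e S) : NoSq S ∧ D.MS S ∧ D.Ends S := by
  have hM : D.M = m1.map e ++ m2.map e := by rw [Dat.M, h1, h2]
  refine ⟨G.sf, ⟨fun x h => ?_, fun x h => ?_⟩, fun x h => ?_⟩
  · rw [hM]; rw [h1] at h
    rcases G.o1 x h with c | c
    · exact c ▸ G.o0
    · exact c.2
  · rw [hM, h1]; rw [h2] at h
    simp only [List.length_map, len_m1]
    rcases G.o2 x h with c | c
    · exact ⟨by omega, G.o0.cast (by omega)⟩
    · exact c.2
  · rw [hM] at h ⊢
    rcases G.o1 x h.fst with c | c
    · exact Or.inl c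
    · exact Or.inr (by simpa [len_m1, len_m2] using c.1)

theorem gadget (he : Function.Injective e) (hq : Q τ L) (hL : n0 + N + 2 ≤ L) (h3 : 3 ≤ n0)
    {s n : ℕ} (hn : 3 ≤ n) (hs : s + n + 1 ≤ L) {ν : ℕ × W3 × A} (h : IsNode e τ n0 N ν) :
    ∃ (g : List A) (t : W3), ν.2.1.length + 1 + g.length = 32 ∧ t.length = 45 ∧
      Tail (τ (s + n - 1)) (τ (s + n)) true (t ++ (m1 ++ m2)) ∧
      (∃ F b', t.map e = F ++ [b'] ++ g ∧ b' ≠ ν.2.2) ∧
      Good e ((seg τ 0 (n0 + ν.1) ν.2.1).map e ++ [ν.2.2] ++ (g ++ (m1 ++ m2).map e)) := by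
  have I := inPU hq hL h3 h.1
  have hu := h.1
  have l := I.l12 _ h.2.1
  have ne := ctx_ne hq (s := s) (n := n) (by omega) hs
  by_cases c : ∃ b, e b = ν.2.2
  · obtain ⟨b, hb⟩ := c
    obtain ⟨h1, h2, h4⟩ := h.2.2 b hb
    obtain ⟨g, g1, g2, g3⟩ := pair_of
      ((((I.cov _ h.2.1 b).resolve_left h1).resolve_left h2).resolve_left h4)
    obtain ⟨F, b', f1, f2, f3⟩ := g3 _ _ ne
    refine ⟨g.map e, F ++ [b'] ++ g, by simpa using g1, by simp; omega, f3,
      ⟨F.map e, e b', by simp, fun x => f2 (he (x.trans hb.symm))⟩, ?_⟩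
    have G := good_closed he (⟨hq, by omega, by omega, g2⟩ : SegH τ L 0 (n0 + ν.1) true _)
    rw [← hb]
    simpa [seg] using G
  · push Not at c
    obtain ⟨t, t1, t2⟩ := default_tail ne
    obtain ⟨b', hb'⟩ : ∃ b', (t.take (ν.2.1.length + 14)).drop (ν.2.1.length + 13) = [b'] :=
      List.length_eq_one_iff.1 (by simp; omega)
    have et : t = t.take (ν.2.1.length + 14) ++ t.drop (ν.2.1.length + 14) :=
      (List.take_append_drop _ _).symm
    refine ⟨(t.drop (ν.2.1.length + 14)).map e, t, by simp; omega, t1, t2,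
      ⟨((t.take (ν.2.1.length + 14)).take (ν.2.1.length + 13)).map e, e b', ?_, c b'⟩, ?_⟩
    · rw [show [e b'] = [b'].map e from rfl, ← hb', ← List.map_append, ← List.map_append,
        List.take_append_drop, List.take_append_drop]
    · rw [et] at t2
      have G := good_fresh he (⟨hq, by omega, by omega, I.tl _ h.2.1⟩ :
        SegH τ L 0 (n0 + ν.1) false _) (⟨hq, hs, hn, t2⟩ : SegH τ L s n true _) c
      rwa [List.map_append (l₂ := m1 ++ m2)] at G

theorem shiftQ (hq : Q τ L) {a b : ℕ} (h : a < b) (hL : b + (b - a) ≤ L) :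
    ¬ ∀ k, k < b - a → τ (a + k) = τ (b + k) := fun hk =>
  hq a (b - a) (by omega) (by omega) fun k k1 k2 => by
    have := hk (k - a) (by omega)
    rwa [show a + (k - a) = k by omega, show b + (k - a) = k + (b - a) by omega] at this

theorem Dat.occ_d2' {D : Dat A} (m : ℕ) : Occ (D.d2 m) (D.sP m) (D.d1 m).length :=
  occ_of_eq (w := []) (by
    simp only [Dat.sP, Dat.d1, Dat.d2, List.append_nil, List.append_assoc]
    rw [← List.append_assoc (List.take _ _), List.take_append_drop])

theorem build [Fintype A] (he : Function.Injective e) (N : ℕ) :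
    ∃ w y : List A, w ≠ [] ∧ y.length = 13 * N ∧ NoSq (w ++ y) ∧
      (∀ r, NoSq (w ++ r) → r.length ≤ 13 * N + 12) ∧
      w.length ≤ 2 ^ ((N + 1) * (17 * Fintype.card A)) *
        (5 * (11 + 13 * (4 * ((N + 1) * (17 * Fintype.card A)) + N + 20))) := by
  generalize hJm : (N + 1) * (17 * Fintype.card A) = Jm
  obtain ⟨n0, hn0⟩ : ∃ n0, n0 = 4 * Jm + N + 20 := ⟨_, rfl⟩
  obtain ⟨τ, hq⟩ := exists_Q (n0 + N + 2)
  have hL : n0 + N + 2 ≤ n0 + N + 2 := le_rfl
  have h3 : 3 ≤ n0 := by omega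
  obtain ⟨ns, nd, mem, hJ⟩ := exists_nodes (e := e) hq hL h3
  rw [hJm] at hJ
  let ν : ℕ → ℕ × W3 × A := fun j => ns.getD j (0, [], e o)
  have hν : ∀ j, j < ns.length → IsNode e τ n0 N (ν j) := fun j hj => by
    rw [← mem]; simp only [ν, List.getD_eq_getElem?_getD, List.getElem?_eq_getElem hj]
    simp
  have hinj : ∀ a b, a < ns.length → b < ns.length → ν a = ν b → a = b := fun a b ha hb h => by
    simp only [ν, List.getD_eq_getElem?_getD, List.getElem?_eq_getElem ha,
      List.getElem?_eq_getElem hb, Option.getD_some] at h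
    exact (List.Nodup.getElem_inj_iff nd).1 h
  have ex : ∀ m, ∃ (g : List A) (t : W3), m ≤ ns.length → t.length = 45 ∧
      Tail (τ (m + 1 + (n0 - 12 - 2 * m) - 1)) (τ (m + 1 + (n0 - 12 - 2 * m))) true
        (t ++ (m1 ++ m2)) ∧ ∀ j, m = j + 1 → (ν j).2.1.length + 1 + g.length = 32 ∧
      (∃ F b', t.map e = F ++ [b'] ++ g ∧ b' ≠ (ν j).2.2) ∧
      Good e ((seg τ 0 (n0 + (ν j).1) (ν j).2.1).map e ++ [(ν j).2.2] ++
        (g ++ (m1 ++ m2).map e)) := by
    intro m
    by_cases hm : m ≤ ns.length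
    swap
    · exact ⟨[], [], fun h => absurd h hm⟩
    rcases m with _ | j
    · obtain ⟨t, t1, t2⟩ := default_tail (ctx_ne hq (s := 0 + 1) (n := n0 - 12 - 2 * 0)
        (by omega) (by omega))
      exact ⟨[], t, fun _ => ⟨t1, t2, fun j h => by omega⟩⟩
    · obtain ⟨g, t, g1, g2, g3, g4, g5⟩ := gadget he hq hL h3 (s := j + 1 + 1)
        (n := n0 - 12 - 2 * (j + 1)) (by omega) (by omega) (hν j hm)
      refine ⟨g, t, fun _ => ⟨g2, g3, fun j' h => ?_⟩⟩
      obtain rfl : j = j' := by omega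
      exact ⟨g1, g4, g5⟩
  choose g t ex using ex
  let D : Dat A :=
    { M1 := m1.map e, M2 := m2.map e
      R := (rho (τ 0) (τ (0 + 1)) ++ blk τ (0 + 1) n0).map e
      ys := (blk τ (1 + n0) N).map e
      P := fun m => (rho (τ (m + 1)) (τ (m + 1 + 1)) ++ blk τ (m + 1 + 1) (n0 - 12 - 2 * m) ++
        t m).map e
      t := fun j => tw e τ n0 (ν j), g := fun j => g (j + 1), lam := 11 + 13 * (Jm + 1)
      J := ns.length }
  have HP : ∀ m, m ≤ ns.length → SegH τ (n0 + N + 2) (m + 1) (n0 - 12 - 2 * m) true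
      (t m ++ (m1 ++ m2)) := fun m hm => ⟨hq, by omega, by omega, (ex m hm).2.1⟩
  have HR : ∀ u, u ≤ N → SegH τ (n0 + N + 2) 0 (n0 + u) false [] := fun u hu =>
    ⟨hq, by omega, by omega, (inPU hq hL h3 hu).tl _ (inPU hq hL h3 hu).nil⟩
  have eP : ∀ m, D.sP m = (seg τ (m + 1) (n0 - 12 - 2 * m) (t m ++ (m1 ++ m2))).map e := by
    intro m; simp [D, Dat.sP, Dat.M, seg]
  have eY : D.sR D.ys = (seg τ 0 (n0 + N) []).map e := by
    simp [D, Dat.sR, Dat.M, seg, blk_add]
  have eK : ∀ j, D.sR (D.ky j) = (seg τ 0 (n0 + (ν j).1) (ν j).2.1).map e ++ [(ν j).2.2] ++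
      (g (j + 1) ++ (m1 ++ m2).map e) := by
    intro j; simp [D, Dat.sR, Dat.ky, Dat.M, seg, blk_add, tw]
  have lM : D.M.length = 22 := by simp [D, Dat.M, len_m1, len_m2]
  have lP : ∀ m, m ≤ ns.length → (D.P m).length = 56 + 13 * (n0 - 12 - 2 * m) := fun m hm => by
    simp [D, (HP m hm).head.len, len_blk, (ex m hm).1]; omega
  have lR : D.R.length = 11 + 13 * n0 := by
    have := (HR 0 (Nat.zero_le _)).head.len
    simp only [D, List.length_map, List.length_append, this, len_blk]
  have lK : ∀ j, j < ns.length → (D.ky j).length = 13 * (ν j).1 + 54 := fun j hj => by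
    have := ((ex (j + 1) hj).2.2 j rfl).1
    simp [D, Dat.ky, Dat.M, tw, len_blk, len_m1, len_m2]; omega
  have lam : D.lam = 11 + 13 * (Jm + 1) := rfl
  have vP : ∀ m k, m ≤ ns.length → k ≤ n0 - 12 - 2 * m →
      (D.sP m)[32 + 13 * k]? = some (e (τ (m + 1 + k))) := fun m k hm hk => by
    rw [eP, List.getElem?_map, (HP m hm).last hk]; rfl
  have oR : ∀ y, Occ ((seg τ 0 (n0 + 0) []).map e) (D.sR y) 0 := fun y => by
    rw [show (seg τ 0 (n0 + 0) []).map e = D.M ++ D.R by simp [D, Dat.M, seg]]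
    exact occ_left _ _
  have vR : ∀ y k, k ≤ n0 → (D.sR y)[32 + 13 * k]? = some (e (τ (0 + k))) := fun y k hk => by
    have := (oR y).2 (32 + 13 * k) (by rw [List.length_map, (HR 0 (Nat.zero_le _)).len]; omega)
    rw [Nat.zero_add] at this
    rw [this, List.getElem?_map, (HR 0 (Nat.zero_le _)).last (by omega)]; rfl
  have ld1 : ∀ m, m ≤ ns.length → (D.d1 m).length = 33 + 13 * (Jm + 1) := fun m hm => by
    have := lP m hm
    simp only [Dat.d1, List.length_append, List.length_take, lM, lam]; omega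
  have ld2 : ∀ m, m ≤ ns.length → (D.d2 m).length = 67 + 13 * (n0 - 13 - 2 * m - Jm) :=
    fun m hm => by have := lP m hm; rw [Dat.len_d2, lM, lam]; omega
  have od2 : ∀ m, m ≤ ns.length → Occ (D.d2 m) (D.sP m) (33 + 13 * (Jm + 1)) := fun m hm =>
    (Dat.occ_d2' m).cast (ld1 m hm)
  have bR : ∀ y, D.End y → ∃ a x, Occ ((hl a).map e) (D.sR y) x ∧
      (D.sR y).length ≤ x + 67 := by
    rintro y (rfl | ⟨j, hj, rfl⟩)
    · refine ⟨_, _, by rw [eY]; exact (occ_map he).2 ((HR N le_rfl).oB1 (u := n0 + N - 1)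
        (by omega)), ?_⟩
      rw [eY]; simp [(HR N le_rfl).len]; omega
    · have hu := (hν j hj).1
      have H' : SegH τ (n0 + N + 2) 0 (n0 + (ν j).1) false (ν j).2.1 :=
        ⟨hq, by omega, by omega, (inPU hq hL h3 hu).tl _ (hν j hj).2.1⟩
      refine ⟨_, _, by rw [eK]; exact ((occ_map he).2 (H'.oB1 (u := n0 + (ν j).1 - 1)
        (by omega))).trans (occ_self _).fst.fst, ?_⟩
      rw [Dat.len_sR, lM, lR, lK j hj]; omega
  have H : D.Hyp := by
    refine ⟨by simp [D, len_m1], by simp [D, len_m2], fun m hm => ?_, ?_, ?_, ?_, ?_, ?_,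
      by rw [lam]; omega, fun m hm => ?_, fun m hm => ?_, ?_, fun j hj => ?_, fun j hj => ?_, ?_⟩
    · exact good_spec rfl rfl (by rw [eP]; exact good_closed he (HP m hm))
    · rintro y (rfl | ⟨j, hj, rfl⟩)
      · exact good_spec rfl rfl (by rw [eY]; exact good_open he (HR N le_rfl))
      · exact good_spec rfl rfl (by rw [eK]; exact ((ex (j + 1) hj).2.2 j rfl).2.2)
    · intro m m' hm hm' ne h
      change m ≤ ns.length at hm
      change m' ≤ ns.length at hm'
      have key : ∀ k, k ≤ Jm → τ (m + 1 + k) = τ (m' + 1 + k) := fun k hk => by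
        have := cmp (k := 32 + 13 * k) (Dat.o_d1 m) h (by rw [ld1 m hm]; omega)
        rw [Nat.zero_add, vP m k hm (by omega), vP m' k hm' (by omega)] at this
        exact he (Option.some.inj this)
      rcases Nat.lt_or_gt_of_ne ne with c | c
      · exact shiftQ hq (a := m + 1) (b := m' + 1) (by omega) (by omega)
          fun k hk => key k (by omega)
      · exact shiftQ hq (a := m' + 1) (b := m + 1) (by omega) (by omega)
          fun k hk => (key k (by omega)).symm
    · intro m m' x hm hm' ne hx h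
      change m ≤ ns.length at hm
      change m' ≤ ns.length at hm'
      rw [ld2 m hm, Dat.len_sP, lM, lP m' hm'] at hx
      have key : ∀ k, k ≤ Jm → τ (n0 - 11 - m - k) = τ (n0 - 11 - m' - k) := fun k hk => by
        have := cmp (k := 13 * (n0 - 13 - 2 * m - Jm - k) - 1) (od2 m hm) h
          (by rw [ld2 m hm]; omega)
        rw [show 33 + 13 * (Jm + 1) + (13 * (n0 - 13 - 2 * m - Jm - k) - 1) =
            32 + 13 * (n0 - 12 - 2 * m - k) by omega,
          show x + (13 * (n0 - 13 - 2 * m - Jm - k) - 1) =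
            32 + 13 * (n0 - 12 - 2 * m' - k) by omega,
          vP m _ hm (by omega), vP m' _ hm' (by omega),
          show m + 1 + (n0 - 12 - 2 * m - k) = n0 - 11 - m - k by omega,
          show m' + 1 + (n0 - 12 - 2 * m' - k) = n0 - 11 - m' - k by omega] at this
        exact he (Option.some.inj this)
      rcases Nat.lt_or_gt_of_ne ne with c | c
      · refine shiftQ hq (a := n0 - 11 - m' - (m' - m)) (b := n0 - 11 - m - (m' - m))
          (by omega) (by omega) fun k hk => ?_
        have := key (m' - m - k) (by omega)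
        rw [show n0 - 11 - m' - (m' - m) + k = n0 - 11 - m' - (m' - m - k) by omega,
          show n0 - 11 - m - (m' - m) + k = n0 - 11 - m - (m' - m - k) by omega, this]
      · refine shiftQ hq (a := n0 - 11 - m - (m - m')) (b := n0 - 11 - m' - (m - m'))
          (by omega) (by omega) fun k hk => ?_
        have := key (m - m' - k) (by omega)
        rw [show n0 - 11 - m' - (m - m') + k = n0 - 11 - m' - (m - m' - k) by omega,
          show n0 - 11 - m - (m - m') + k = n0 - 11 - m - (m - m' - k) by omega, this]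
    · intro m y hm _ h
      change m ≤ ns.length at hm
      refine shiftQ hq (a := 0) (b := m + 1) (by omega) (by omega) fun k hk => ?_
      have := cmp (k := 32 + 13 * k) (Dat.o_d1 m) h (by rw [ld1 m hm]; omega)
      rw [Nat.zero_add, vP m k hm (by omega), vR y k (by omega)] at this
      exact (he (Option.some.inj this)).symm
    · intro m y x hm hy hx h
      change m ≤ ns.length at hm
      obtain ⟨a, x', o1, l1⟩ := bR y hy
      have l2 := ld2 m hm
      have l3 := o1.1
      have o2 := (o1.restr h (by omega) (by omega)).trans (od2 m hm)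
      rw [eP] at o2
      obtain ⟨u, u1, u2⟩ := (HP m hm).sync ((occ_map he).1 o2)
      omega
    · change m ≤ ns.length at hm
      rw [lP m hm, lam]; omega
    · change m ≤ ns.length at hm
      rw [lP m hm, lM, lR]; omega
    · rintro y (rfl | ⟨j, hj, rfl⟩)
      · rw [lR]; simp [D, len_blk]; omega
      · have := (hν j hj).1
        rw [lR, lK j hj]; omega
    · obtain ⟨F, b', f1, f2⟩ := ((ex (j + 1) hj).2.2 j rfl).2.1
      refine ⟨(rho (τ (j + 1 + 1)) (τ (j + 1 + 1 + 1)) ++
        blk τ (j + 1 + 1 + 1) (n0 - 12 - 2 * (j + 1))).map e ++ F, b',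
        (blk τ (1 + n0) (ν j).1).map e ++ (ν j).2.1.map e, (ν j).2.2, ?_, ?_, f2⟩
      · simp [D, f1]
      · simp [D, tw]
    · exact anti_ys he hq hL h3 (hν j hj)
    · intro a b ha hb ne h
      rw [Dat.ky, List.append_assoc] at h
      exact ne (hinj _ _ hb ha (anti he hq hL h3 (hν b hb) (hν a ha) h)).symm
  obtain ⟨w, w1, w2, w3, w4⟩ := Dat.main H
  refine ⟨w, D.ys, ?_, by simp [D, len_blk], w2, fun r hr => ?_, ?_⟩
  · rintro rfl
    have := w1.length_le
    rw [lR] at this
    simp at this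
  · obtain ⟨u, p, hu, hp, rfl⟩ := cover he hq hL h3 (w := w)
      (List.IsSuffix.trans ⟨(rho (τ 0) (τ (0 + 1))).map e, by simp [D]⟩ w1) (fun x hx => by
        obtain ⟨j, hj, rfl⟩ := List.getElem_of_mem ((mem x).2 hx)
        have := w3 j hj []
        simpa [D, ν, List.getD_eq_getElem?_getD, List.getElem?_eq_getElem hj] using this) r hr
    have := (inPU hq hL h3 hu).l12 _ hp
    simp [len_blk]; omega
  · rw [lR, hn0] at w4
    exact w4.trans (Nat.mul_le_mul_right _ (Nat.pow_le_pow_right two_pos hJ))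

end Pool.Agent.MP_4bd596_co.Low
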