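import Pool.Agent.MP_4bd596_co.LowIn

/-! The side branches along the spine. -/

set_option autoImplicit false

namespace Pool.Agent.MP_4bd596_co.Low

variable {A : Type} {e : Fin 3 → A} {τ : ℕ → Fin 3} {L n0 N : ℕ}

theorem occ_of_eq' {W u v : List A} (h : W = u ++ v) : Occ v W u.length := h ▸ occ_right u v

/-- the next letter of the spine, or the last one at the end -/
def nx (τ : ℕ → Fin 3) (n0 N u : ℕ) : Fin 3 := if u < N then τ (1 + n0 + u) else τ (0 + (n0 + u))

/-- inner words at block u -/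
def inU (τ : ℕ → Fin 3) (n0 N u : ℕ) : List W3 :=
  inn (τ (0 + (n0 + u) - 1)) (τ (0 + (n0 + u))) (nx τ n0 N u)

/-- a side branch that has to be killed -/
def IsNode (e : Fin 3 → A) (τ : ℕ → Fin 3) (n0 N : ℕ) (ν : ℕ × W3 × A) : Prop :=
  ν.1 ≤ N ∧ ν.2.1 ∈ inU τ n0 N ν.1 ∧ ∀ b, e b = ν.2.2 → ν.2.1 ++ [b] ∉ inU τ n0 N ν.1 ∧
    ν.2.1 ++ [b] ≠ hl (nx τ n0 N ν.1) ∧
    ¬ hasSq (hl (τ (0 + (n0 + ν.1) - 1)) ++ hl (τ (0 + (n0 + ν.1))) ++ (ν.2.1 ++ [b])) = true

/-- the word of a side branch -/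
def tw (e : Fin 3 → A) (τ : ℕ → Fin 3) (n0 : ℕ) (ν : ℕ × W3 × A) : List A :=
  (blk τ (1 + n0) ν.1).map e ++ (ν.2.1.map e ++ [ν.2.2])

theorem ctx_ne (hq : Q τ L) {s n : ℕ} (h1 : 1 ≤ n) (h2 : s + n + 1 ≤ L) :
    τ (s + n - 1) ≠ τ (s + n) := by
  have := hq.ne (s := s + n - 1) (by omega)
  rwa [show s + n - 1 + 1 = s + n by omega] at this

theorem inPU (hq : Q τ L) (hL : n0 + N + 2 ≤ L) (h3 : 3 ≤ n0) {u : ℕ} (hu : u ≤ N) :
    InP (τ (0 + (n0 + u) - 1)) (τ (0 + (n0 + u))) (nx τ n0 N u) :=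
  inP (ctx_ne hq (by omega) (by omega)) _

theorem pm (he : Function.Injective e) {p v : W3} {β : A} (h : p.map e ++ [β] <+: v.map e) :
    ∃ b, e b = β ∧ p ++ [b] <+: v := by
  obtain ⟨r, hr⟩ := h
  obtain ⟨l1, l2, rfl, h1, -⟩ := List.map_eq_append_iff.1 hr.symm
  obtain ⟨l3, l4, rfl, h3, h4⟩ := List.map_eq_append_iff.1 h1
  obtain ⟨b, rfl, hb⟩ := List.map_eq_singleton_iff.1 h4
  rw [(List.map_injective_iff.2 he) h3]
  exact ⟨b, hb, List.prefix_append _ _⟩

theorem nodeA (he : Function.Injective e) (hq : Q τ L) (hL : n0 + N + 2 ≤ L) (h3 : 3 ≤ n0)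
    {ν : ℕ × W3 × A} (h : IsNode e τ n0 N ν) (hu : ν.1 < N) (Z : List A) :
    ¬ (ν.2.1.map e ++ [ν.2.2] <+: (hl (τ (1 + n0 + ν.1))).map e ++ Z) := by
  intro hp
  have I := inPU hq hL h3 h.1
  have l := I.l12 _ h.2.1
  have e1 : nx τ n0 N ν.1 = τ (1 + n0 + ν.1) := if_pos hu
  obtain ⟨b, hb, hp'⟩ := pm he (List.prefix_of_prefix_length_le hp (List.prefix_append _ _)
    (by simp [len_hl]; omega))
  obtain ⟨h1, h2, -⟩ := h.2.2 b hb
  by_cases c : ν.2.1.length + 1 < 13
  · have ne : nx τ n0 N ν.1 ≠ τ (0 + (n0 + ν.1)) := by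
      rw [e1, show 1 + n0 + ν.1 = 0 + (n0 + ν.1) + 1 by omega]
      exact (hq.ne (by omega)).symm
    have := I.prf ne _ c
    rw [List.prefix_iff_eq_take] at hp'
    rw [hp'] at h1
    simp only [List.length_append, List.length_singleton] at h1
    exact h1 (by rw [← e1]; exact this)
  · exact h2 (by rw [e1]; exact hp'.eq_of_length (by simp [len_hl]; omega))

theorem nodeB (he : Function.Injective e) (hq : Q τ L) (hL : n0 + N + 2 ≤ L) (h3 : 3 ≤ n0)
    {u : ℕ} {p p' : W3} {β β' : A} (h : IsNode e τ n0 N (u, p, β))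
    (h' : IsNode e τ n0 N (u, p', β')) {Z : List A}
    (hp : p.map e ++ [β] <+: p'.map e ++ [β'] ++ Z) : p = p' ∧ β = β' := by
  have I := inPU hq hL h3 h.1
  rcases lt_trichotomy p.length p'.length with c | c | c
  · obtain ⟨b, hb, r, hr⟩ := pm he (List.prefix_of_prefix_length_le hp
      (by rw [List.append_assoc]; exact List.prefix_append (p'.map e) _) (by simp; omega))
    exact absurd (I.closed r (hr ▸ h'.2.1)) (h.2.2 b hb).1
  · have := (List.prefix_of_prefix_length_le hp (List.prefix_append _ _)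
      (by simp; omega)).eq_of_length (by simp; omega)
    obtain ⟨h1, h2⟩ := List.append_inj' this rfl
    exact ⟨(List.map_injective_iff.2 he) h1, by simpa using h2⟩
  · obtain ⟨b, hb, r, hr⟩ := pm he (List.prefix_of_prefix_length_le (List.prefix_append _ Z)
      ((List.prefix_append (p.map e) _).trans hp) (by simp; omega))
    exact absurd (I.closed r (hr ▸ h.2.1)) (h'.2.2 b hb).1

theorem blk_split (τ : ℕ → Fin 3) (s : ℕ) {u u' : ℕ} (h : u < u') :
    blk τ s u' = blk τ s u ++ (hl (τ (s + u)) ++ blk τ (s + (u + 1)) (u' - (u + 1))) := by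
  rw [← List.append_assoc, ← blk, ← blk_add]
  congr 1; omega

theorem anti (he : Function.Injective e) (hq : Q τ L) (hL : n0 + N + 2 ≤ L) (h3 : 3 ≤ n0)
    {ν ν' : ℕ × W3 × A} (h : IsNode e τ n0 N ν) (h' : IsNode e τ n0 N ν') {Z : List A}
    (hp : tw e τ n0 ν <+: tw e τ n0 ν' ++ Z) : ν = ν' := by
  have a := h.1
  have a' := h'.1
  rcases lt_trichotomy ν.1 ν'.1 with c | c | c
  · rw [tw, tw, blk_split τ _ c] at hp
    simp only [List.map_append, List.append_assoc, List.prefix_append_right_inj] at hp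
    exact absurd hp (nodeA he hq hL h3 h (by omega) _)
  · obtain ⟨u, p, β⟩ := ν
    obtain ⟨u', p', β'⟩ := ν'
    obtain rfl : u = u' := c
    rw [tw, tw, List.append_assoc, List.prefix_append_right_inj] at hp
    obtain ⟨rfl, rfl⟩ := nodeB he hq hL h3 h h' hp
    rfl
  · rw [tw, tw, blk_split τ _ c, List.map_append, List.append_assoc, List.append_assoc,
      List.prefix_append_right_inj, List.map_append, List.append_assoc] at hp
    have l := (inPU hq hL h3 a').l12 _ h'.2.1
    exact absurd (List.prefix_of_prefix_length_le (List.prefix_append _ Z) hp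
      (by simp [len_hl]; omega)) (nodeA he hq hL h3 h' (by omega) _)

theorem anti_ys (he : Function.Injective e) (hq : Q τ L) (hL : n0 + N + 2 ≤ L) (h3 : 3 ≤ n0)
    {ν : ℕ × W3 × A} (h : IsNode e τ n0 N ν) : ¬ tw e τ n0 ν <+: (blk τ (1 + n0) N).map e := by
  intro hp
  rcases Nat.eq_or_lt_of_le h.1 with c | c
  · have := hp.length_le
    simp [tw, len_blk] at this
    omega
  · rw [tw, blk_split τ _ c] at hp
    simp only [List.map_append, List.prefix_append_right_inj] at hp
    exact nodeA he hq hL h3 h c _ hp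

theorem cover (he : Function.Injective e) (hq : Q τ L) (hL : n0 + N + 2 ≤ L) (h3 : 3 ≤ n0)
    {w : List A} (hw : (blk τ 1 n0).map e <:+ w)
    (hk : ∀ ν, IsNode e τ n0 N ν → ¬ NoSq (w ++ tw e τ n0 ν)) (r : List A) :
    NoSq (w ++ r) → ∃ u p, u ≤ N ∧ p ∈ inU τ n0 N u ∧ r = (blk τ (1 + n0) u ++ p).map e := by
  induction r using List.reverseRecOn with
  | nil => exact fun _ => ⟨0, [], Nat.zero_le _, (inPU hq hL h3 (Nat.zero_le _)).nil, by simp [blk]⟩
  | append_singleton r β ih =>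
    intro h
    obtain ⟨u, p, hu, hp, rfl⟩ := ih (h.of_occ (by rw [← List.append_assoc]; exact occ_left _ _))
    obtain ⟨X, rfl⟩ := hw
    have key : ∀ b, e b = β → NoSq (hl (τ (0 + (n0 + u) - 1)) ++ hl (τ (0 + (n0 + u))) ++
        (p ++ [b])) := by
      intro b hb
      rw [← noSq_map he]
      refine h.of_occ (occ_of_eq' (u := X ++ (blk τ 1 (n0 + u - 2)).map e) ?_)
      have e1 : blk τ 1 n0 ++ blk τ (1 + n0) u = blk τ 1 (n0 + u - 2) ++
          (hl (τ (0 + (n0 + u) - 1)) ++ hl (τ (0 + (n0 + u)))) := by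
        have e2 := blk_add τ 1 (n0 + u - 2) 2
        rw [blk2, show n0 + u - 2 + 2 = n0 + u by omega,
          show 1 + (n0 + u - 2) + 1 = 0 + (n0 + u) by omega,
          show 1 + (n0 + u - 2) = 0 + (n0 + u) - 1 by omega] at e2
        rw [← blk_add, e2]
      have e3 := congrArg (fun v => X ++ (v ++ (p ++ [b])).map e) e1
      simpa [hb] using e3
    by_cases c : IsNode e τ n0 N (u, p, β)
    · exact absurd (by simpa [tw] using h) (hk _ c)
    simp only [IsNode, hu, hp, true_and, not_forall, not_and_or, not_not] at c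
    obtain ⟨b, hb, c | c | c⟩ := c
    · exact ⟨u, p ++ [b], hu, c, by simp [hb]⟩
    · by_cases c1 : u < N
      · refine ⟨u + 1, [], c1, (inPU hq hL h3 c1).nil, ?_⟩
        rw [nx, if_pos c1] at c
        rw [blk, ← c, ← hb]; simp
      · rw [nx, if_neg c1] at c
        have := key b hb
        rw [c, List.append_assoc] at this
        refine absurd this (not_noSq_of_occ ?_ (occ_right _ _))
        intro e0
        have := congrArg List.length e0
        simp [len_hl] at this
    · exact absurd (key b hb) (hasSq_spec c)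

theorem exists_nodes [Fintype A] (hq : Q τ L) (hL : n0 + N + 2 ≤ L) (h3 : 3 ≤ n0) :
    ∃ ns : List (ℕ × W3 × A), ns.Nodup ∧ (∀ ν, ν ∈ ns ↔ IsNode e τ n0 N ν) ∧
      ns.length ≤ (N + 1) * (17 * Fintype.card A) := by
  classical
  let S : Finset (ℕ × W3 × A) := (Finset.range (N + 1)).biUnion fun u =>
    ((inU τ n0 N u).toFinset ×ˢ (Finset.univ : Finset A)).image fun x => (u, x)
  refine ⟨(S.filter (IsNode e τ n0 N)).toList, Finset.nodup_toList _, fun ν => ?_, ?_⟩
  · rw [Finset.mem_toList, Finset.mem_filter]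
    refine ⟨fun h => h.2, fun h => ⟨?_, h⟩⟩
    simp only [S, Finset.mem_biUnion, Finset.mem_range, Finset.mem_image, Finset.mem_product,
      List.mem_toFinset, Finset.mem_univ, and_true]
    exact ⟨ν.1, by have := h.1; omega, ν.2, h.2.1, rfl⟩
  · rw [Finset.length_toList]
    refine (Finset.card_filter_le _ _).trans ?_
    refine (Finset.card_biUnion_le_card_mul _ _ (17 * Fintype.card A) fun u hu => ?_).trans
      (by simp)
    refine Finset.card_image_le.trans ?_
    rw [Finset.card_product, Finset.card_univ]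
    exact Nat.mul_le_mul_right _ ((List.toFinset_card_le _).trans
      (inPU hq hL h3 (by simpa [Nat.lt_succ_iff] using hu)).len)

end Pool.Agent.MP_4bd596_co.Low
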