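import Mathlib

/-! Occurrences, periods and squares in lists, by positions. -/

set_option autoImplicit false

namespace Pool.Agent.MP_4bd596_co.Low

variable {A : Type}

/-- d occurs in w at position x -/
def Occ (d w : List A) (x : ℕ) : Prop :=
  x + d.length ≤ w.length ∧ ∀ i, i < d.length → w[x + i]? = d[i]?

/-- w has period p on the window from lo to hi -/
def Per (w : List A) (p lo hi : ℕ) : Prop :=
  hi + p ≤ w.length ∧ ∀ i, lo ≤ i → i < hi → w[i]? = w[i + p]?

/-- no square -/
def NoSq (w : List A) : Prop := ∀ s p, 0 < p → ¬ Per w p s (s + p)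

theorem occ_self (w : List A) : Occ w w 0 := ⟨by simp, fun i _ => by simp⟩

theorem occ_left (u v : List A) : Occ u (u ++ v) 0 :=
  ⟨by simp, fun i hi => by simp [List.getElem?_append_left hi]⟩

theorem occ_right (u v : List A) : Occ v (u ++ v) u.length :=
  ⟨by simp, fun i _ => by rw [List.getElem?_append_right (by omega)]; simp⟩

theorem Occ.trans {d u w : List A} {y x : ℕ} (h1 : Occ d u y) (h2 : Occ u w x) :
    Occ d w (x + y) := by
  refine ⟨by have := h1.1; have := h2.1; omega, fun i hi => ?_⟩
  have := h1.1
  rw [add_assoc, h2.2 (y + i) (by omega), h1.2 i hi]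

theorem Occ.restr {d u w : List A} {z x : ℕ} (h1 : Occ d w z) (h2 : Occ u w x) (hx : x ≤ z)
    (hz : z + d.length ≤ x + u.length) : Occ d u (z - x) := by
  refine ⟨by omega, fun i hi => ?_⟩
  rw [← h2.2 (z - x + i) (by omega), ← h1.2 i hi]
  congr 1; omega

theorem Occ.cast {d w : List A} {x y : ℕ} (h : Occ d w x) (e : x = y) : Occ d w y := e ▸ h

theorem occ_mid (u v w : List A) : Occ v (u ++ v ++ w) u.length :=
  ((occ_right u v).trans (occ_left (u ++ v) w)).cast (by simp)

theorem Occ.fst {d e w : List A} {x : ℕ} (h : Occ (d ++ e) w x) : Occ d w x :=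
  ((occ_left d e).trans h).cast (by simp)

theorem Occ.snd {d e w : List A} {x : ℕ} (h : Occ (d ++ e) w x) : Occ e w (x + d.length) :=
  (occ_right d e).trans h

theorem Occ.app {d e w : List A} {x : ℕ} (h1 : Occ d w x) (h2 : Occ e w (x + d.length)) :
    Occ (d ++ e) w x := by
  refine ⟨by have := h2.1; simp; omega, fun i hi => ?_⟩
  by_cases c : i < d.length
  · rw [List.getElem?_append_left c, h1.2 i c]
  · rw [List.getElem?_append_right (by omega), ← h2.2 (i - d.length) (by simp at hi; omega)]
    congr 1; omega

theorem Occ.fwd {d w : List A} {z p lo hi : ℕ} (h : Occ d w z) (hp : Per w p lo hi)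
    (h1 : lo ≤ z) (h2 : z + d.length ≤ hi) : Occ d w (z + p) := by
  refine ⟨by have := hp.1; omega, fun i hi => ?_⟩
  rw [← h.2 i hi, hp.2 (z + i) (by omega) (by omega)]
  congr 1; omega

theorem Occ.bwd {d w : List A} {z p lo hi : ℕ} (h : Occ d w z) (hp : Per w p lo hi)
    (h1 : lo + p ≤ z) (h2 : z + d.length ≤ hi + p) : Occ d w (z - p) := by
  refine ⟨by have := hp.1; omega, fun i hi => ?_⟩
  rw [← h.2 i hi, hp.2 (z - p + i) (by omega) (by omega)]
  congr 1; omega

theorem Per.restr {u w : List A} {x p lo hi : ℕ} (hp : Per w p lo hi) (h : Occ u w x)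
    (h1 : x ≤ lo) (h0 : lo ≤ hi) (h2 : hi + p ≤ x + u.length) : Per u p (lo - x) (hi - x) := by
  refine ⟨by omega, fun i a b => ?_⟩
  rw [← h.2 i (by omega), ← h.2 (i + p) (by omega), hp.2 (x + i) (by omega) (by omega)]
  congr 1; omega

theorem Per.lift {u w : List A} {x p lo hi : ℕ} (hp : Per u p lo hi) (h : Occ u w x) :
    Per w p (x + lo) (x + hi) := by
  have a1 := hp.1
  have a2 := h.1
  refine ⟨by omega, fun i a b => ?_⟩
  have e1 := h.2 (i - x) (by omega)
  have e2 := h.2 (i - x + p) (by omega)
  rw [show x + (i - x) = i by omega] at e1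
  rw [show x + (i - x + p) = i + p by omega] at e2
  rw [e1, e2, hp.2 (i - x) (by omega) (by omega)]

theorem Per.mono {w : List A} {p lo hi lo' hi' : ℕ} (hp : Per w p lo hi) (h1 : lo ≤ lo')
    (h2 : hi' ≤ hi) : Per w p lo' hi' :=
  ⟨by have := hp.1; omega, fun i a b => hp.2 i (by omega) (by omega)⟩

theorem NoSq.inside {u w : List A} {x s p : ℕ} (hu : NoSq u) (h : Occ u w x) (hp0 : 0 < p)
    (hp : Per w p s (s + p)) (h1 : x ≤ s) (h2 : s + 2 * p ≤ x + u.length) : False := by
  have := hp.restr h h1 (by omega) (by omega)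
  rw [show s + p - x = s - x + p by omega] at this
  exact hu _ _ hp0 this

theorem NoSq.of_occ {u w : List A} {x : ℕ} (hw : NoSq w) (h : Occ u w x) : NoSq u := by
  intro s p hp0 hp
  have := hp.lift h
  rw [← add_assoc] at this
  exact hw _ _ hp0 this

theorem per_of_occ {d w : List A} {x p : ℕ} (h1 : Occ d w x) (h2 : Occ d w (x + p)) :
    Per w p x (x + d.length) := by
  refine ⟨by have := h2.1; omega, fun i a b => ?_⟩
  have e1 := h1.2 (i - x) (by omega)
  have e2 := h2.2 (i - x) (by omega)
  rw [show x + (i - x) = i by omega] at e1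
  rw [show x + p + (i - x) = i + p by omega] at e2
  rw [e1, e2]

theorem occ_zero_iff {d w : List A} : Occ d w 0 ↔ d <+: w := by
  constructor
  · intro h
    rw [List.prefix_iff_eq_take]
    apply List.ext_getElem?
    intro i
    by_cases c : i < d.length
    · rw [List.getElem?_take_of_lt c, ← h.2 i c]; simp
    · rw [List.getElem?_eq_none (by omega), List.getElem?_eq_none (by simp; omega)]
  · rintro ⟨v, rfl⟩
    exact occ_left d v

theorem occ_drop {d w : List A} {x : ℕ} (h : Occ d w x) : Occ d (w.drop x) 0 := by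
  refine ⟨by have := h.1; simp; omega, fun i hi => ?_⟩
  rw [← h.2 i hi]; simp

theorem Occ.toInf {d w : List A} {x : ℕ} (h : Occ d w x) : d <:+: w :=
  (occ_zero_iff.1 (occ_drop h)).isInfix.trans (List.drop_suffix x w).isInfix

theorem occ_of_infix {d w : List A} (h : d <:+: w) : ∃ x, Occ d w x := by
  obtain ⟨u, v, rfl⟩ := h
  exact ⟨_, occ_mid u d v⟩

theorem Occ.eq {d w : List A} (h : Occ d w 0) (hl : d.length = w.length) : d = w :=
  (occ_zero_iff.1 h).eq_of_length hl

theorem not_noSq_of_occ {d w : List A} {x : ℕ} (hd : d ≠ []) (h : Occ (d ++ d) w x) :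
    ¬ NoSq w := fun hw =>
  hw x d.length (List.length_pos_iff.2 hd) (per_of_occ h.fst h.snd)

theorem noSq_iff {w : List A} : NoSq w ↔ ∀ x : List A, x ≠ [] → ¬ (x ++ x <:+: w) := by
  constructor
  · intro hw x hx h
    obtain ⟨z, hz⟩ := occ_of_infix h
    exact not_noSq_of_occ hx hz hw
  · intro h s p hp0 hp
    have a := hp.1
    have hl : ((w.drop s).take p).length = p := by simp; omega
    have o1 : Occ ((w.drop s).take p) w s := by
      refine ⟨by omega, fun i hi => ?_⟩
      rw [hl] at hi
      rw [List.getElem?_take_of_lt hi]; simp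
    have o2 := o1.fwd hp le_rfl (by omega)
    refine h ((w.drop s).take p) (by intro e; rw [e] at hl; simp at hl; omega) ?_
    exact (o1.app (o2.cast (by rw [hl]))).toInf

theorem occ_map {B : Type} {f : A → B} (hf : Function.Injective f) {d w : List A} {x : ℕ} :
    Occ (d.map f) (w.map f) x ↔ Occ d w x := by
  unfold Occ
  simp only [List.length_map, List.getElem?_map]
  refine and_congr_right fun _ => forall_congr' fun i => imp_congr_right fun _ => ?_
  exact (Option.map_injective hf).eq_iff

theorem noSq_map {B : Type} {f : A → B} (hf : Function.Injective f) {w : List A} :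
    NoSq (w.map f) ↔ NoSq w := by
  unfold NoSq Per
  simp only [List.length_map, List.getElem?_map, (Option.map_injective hf).eq_iff]

/-- a letter that does not occur in u and v separates squares -/
theorem noSq_fresh {u v : List A} {c : A} (hu : NoSq u) (hv : NoSq v) (cu : c ∉ u) (cv : c ∉ v) :
    NoSq (u ++ [c] ++ v) := by
  intro s p hp0 hp
  have hl := hp.1
  have key : ∀ i, (u ++ [c] ++ v)[i]? = some c → i = u.length := by
    intro i hi
    by_contra ne
    rcases Nat.lt_or_gt_of_ne ne with h | h
    · rw [List.append_assoc, List.getElem?_append_left h] at hi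
      exact cu (List.mem_of_getElem? hi)
    · rw [List.getElem?_append_right (by simp; omega)] at hi
      exact cv (List.mem_of_getElem? hi)
  have hc : (u ++ [c] ++ v)[u.length]? = some c := by simp
  simp only [List.length_append, List.length_singleton] at hl
  by_cases c1 : s + 2 * p ≤ u.length
  · exact hu.inside (by rw [List.append_assoc]; exact occ_left _ _) hp0 hp (Nat.zero_le _)
      (by omega)
  by_cases c2 : u.length + 1 ≤ s
  · exact hv.inside (occ_right (u ++ [c]) v) hp0 hp (by simpa using c2) (by simp; omega)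
  by_cases c3 : u.length < s + p
  · have := hp.2 u.length (by omega) c3
    have := key _ (this ▸ hc)
    omega
  · have := hp.2 (u.length - p) (by omega) (by omega)
    rw [show u.length - p + p = u.length by omega, hc] at this
    have := key _ this
    omega

/-- an occurrence of a word without the fresh letter lies on one side -/
theorem occ_fresh {u v d : List A} {c : A} {x : ℕ} (cd : c ∉ d) (h : Occ d (u ++ [c] ++ v) x) :
    (x + d.length ≤ u.length) ∨ u.length + 1 ≤ x := by
  by_contra ne
  push Not at ne
  have := h.2 (u.length - x) (by omega)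
  rw [show x + (u.length - x) = u.length by omega] at this
  simp at this
  exact cd (List.mem_of_getElem? this.symm)

end Pool.Agent.MP_4bd596_co.Low
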