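import Pool.Agent.MP_4bd596_co.LowTab

/-! Segments: marker, connector, image of a squarefree word, tail. -/

set_option autoImplicit false

namespace Pool.Agent.MP_4bd596_co.Low

/-- images of consecutive letters -/
def blk (τ : ℕ → Fin 3) (s : ℕ) : ℕ → W3
  | 0 => []
  | n + 1 => blk τ s n ++ hl (τ (s + n))

theorem len_blk (τ : ℕ → Fin 3) (s n : ℕ) : (blk τ s n).length = 13 * n := by
  induction n with
  | zero => rfl
  | succ n ih => simp [blk, ih, len_hl]; omega

theorem blk_add (τ : ℕ → Fin 3) (s n m : ℕ) : blk τ s (n + m) = blk τ s n ++ blk τ (s + n) m := by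
  induction m with
  | zero => simp [blk]
  | succ m ih => rw [← add_assoc, blk, ih, blk, List.append_assoc, add_assoc]

theorem occ_blk (τ : ℕ → Fin 3) (s : ℕ) {n u k : ℕ} (h : u + k ≤ n) :
    Occ (blk τ (s + u) k) (blk τ s n) (13 * u) := by
  obtain ⟨r, rfl⟩ := Nat.exists_eq_add_of_le h
  rw [blk_add, blk_add]
  exact (occ_mid _ _ _).cast (len_blk _ _ _)

theorem blk1 (τ : ℕ → Fin 3) (s : ℕ) : blk τ s 1 = hl (τ s) := by simp [blk]

theorem blk2 (τ : ℕ → Fin 3) (s : ℕ) : blk τ s 2 = hl (τ s) ++ hl (τ (s + 1)) := by simp [blk]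

theorem blk3 (τ : ℕ → Fin 3) (s : ℕ) :
    blk τ s 3 = hl (τ s) ++ hl (τ (s + 1)) ++ hl (τ (s + 2)) := by simp [blk]

/-- the first L letters have no square -/
def Q (τ : ℕ → Fin 3) (L : ℕ) : Prop :=
  ∀ s p, 0 < p → s + 2 * p ≤ L → ¬ ∀ k, s ≤ k → k < s + p → τ k = τ (k + p)

theorem Q.ne {τ : ℕ → Fin 3} {L s : ℕ} (h : Q τ L) (hs : s + 2 ≤ L) : τ s ≠ τ (s + 1) :=
  fun e => h s 1 one_pos (by omega) fun k a b => by rw [show k = s by omega]; exact e

/-- properties of a tail -/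
structure Tail (c' c : Fin 3) (b : Bool) (t : W3) : Prop where
  sf : NoSq (hl c' ++ hl c ++ t)
  bl : ∀ a x, Occ (hl a) (hl c ++ t) x → x = 0
  o1 : ∀ x, Occ m1 (hl c ++ t) x → b = true ∧ x + 9 = t.length
  o2 : ∀ x, Occ m2 (hl c ++ t) x → b = true ∧ x = t.length + 2

theorem len_m1 : m1.length = 11 := rfl
theorem len_m2 : m2.length = 11 := rfl

theorem tail_of {c' c : Fin 3} {b : Bool} {t : W3} (h : tailOK c' c b t = true) :
    Tail c' c b t := by
  simp only [tailOK, Bool.and_eq_true] at h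
  obtain ⟨⟨⟨h1, h2⟩, h3⟩, h4⟩ := h
  refine ⟨sfb_spec h1, fun a x o => ?_, fun x o => ?_, fun x o => ?_⟩
  · have := allOcc_spec (by rw [len_hl]; omega) _ _ 0 x (all3_spec h2 a) o
    simp at this; omega
  · simpa using allOcc_spec (by decide) _ _ 0 x h3 o
  · simpa using allOcc_spec (by decide) _ _ 0 x h4 o

/-- properties of a head -/
structure Head (c e e' : Fin 3) : Prop where
  len : (rho c e).length = 11
  last : (rho c e)[10]? = some c
  sf : NoSq (m1 ++ m2 ++ rho c e ++ (hl e ++ hl e'))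
  bl : ∀ a x, Occ (hl a) (m1 ++ m2 ++ rho c e ++ hl e) x → x = 33
  o1 : ∀ x, Occ m1 (m1 ++ m2 ++ rho c e ++ hl e) x → x = 0
  o2 : ∀ x, Occ m2 (m1 ++ m2 ++ rho c e ++ hl e) x → x = 11

theorem head_of {c e e' : Fin 3} (h1 : c ≠ e) (h2 : e ≠ e') : Head c e e' := by
  have a := all3_spec (all3_spec headOK_true c) e
  simp only [Bool.or_eq_true, eqb_iff, h1, false_or] at a
  have h := all3_spec a e'
  simp only [Bool.or_eq_true, eqb_iff, h2, false_or, headOK, Bool.and_eq_true] at h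
  obtain ⟨⟨⟨⟨⟨g1, g2⟩, g3⟩, g4⟩, g5⟩, g6⟩ := h
  refine ⟨by simpa using g1, ?_, sfb_spec g3, fun a x o => ?_, fun x o => ?_, fun x o => ?_⟩
  · have := (occ_zero_iff.2 (pre_iff.1 g2)).2 0 (by simp)
    simpa using this
  · have := allOcc_spec (by rw [len_hl]; omega) _ _ 0 x (all3_spec g4 a) o
    simp at this; omega
  · have := allOcc_spec (by decide) _ _ 0 x g5 o
    simp at this; omega
  · have := allOcc_spec (by decide) _ _ 0 x g6 o
    simp at this; omega

theorem mor_of {a b : Fin 3} (h : a ≠ b) : (∀ c, b ≠ c → NoSq (hl a ++ hl b ++ hl c)) ∧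
    (∀ c x, Occ (hl c) (hl a ++ hl b) x → x = 0 ∨ x = 13) ∧
    (∀ x, ¬ Occ m1 (hl a ++ hl b) x) ∧ ∀ x, ¬ Occ m2 (hl a ++ hl b) x := by
  have g := all3_spec (all3_spec morOK_true a) b
  simp only [Bool.or_eq_true, eqb_iff, h, false_or, Bool.and_eq_true] at g
  obtain ⟨⟨⟨g1, g2⟩, g3⟩, g4⟩ := g
  refine ⟨fun c hc => ?_, fun c x o => ?_, fun x o => ?_, fun x o => ?_⟩
  · have := all3_spec g1 c
    simp only [Bool.or_eq_true, eqb_iff, hc, false_or] at this
    exact sfb_spec this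
  · simpa using allOcc_spec (by rw [len_hl]; omega) _ _ 0 x (all3_spec g2 c) o
  · simpa using allOcc_spec (by decide) _ _ 0 x g3 o
  · simpa using allOcc_spec (by decide) _ _ 0 x g4 o

/-- a segment -/
def seg (τ : ℕ → Fin 3) (s n : ℕ) (t : W3) : W3 :=
  m1 ++ m2 ++ rho (τ s) (τ (s + 1)) ++ blk τ (s + 1) n ++ t

/-- hypotheses on a segment -/
structure SegH (τ : ℕ → Fin 3) (L s n : ℕ) (b : Bool) (t : W3) : Prop where
  q : Q τ L
  le : s + n + 1 ≤ L
  three : 3 ≤ n
  tail : Tail (τ (s + n - 1)) (τ (s + n)) b t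

namespace SegH

variable {τ : ℕ → Fin 3} {L s n : ℕ} {b : Bool} {t : W3}

theorem head (H : SegH τ L s n b t) : Head (τ s) (τ (s + 1)) (τ (s + 2)) :=
  head_of (H.q.ne (by have := H.le; have := H.three; omega))
    (H.q.ne (by have := H.le; have := H.three; omega))

theorem len (H : SegH τ L s n b t) : (seg τ s n t).length = 33 + 13 * n + t.length := by
  simp [seg, len_blk, H.head.len, len_m1, len_m2]; omega

theorem oB (H : SegH τ L s n b t) {u k : ℕ} (h : u + k ≤ n) :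
    Occ (blk τ (s + 1 + u) k) (seg τ s n t) (33 + 13 * u) :=
  ((occ_blk τ (s + 1) h).trans (occ_mid _ _ t)).cast
    (by simp [H.head.len, len_m1, len_m2])

theorem oB1 (H : SegH τ L s n b t) {u : ℕ} (h : u < n) :
    Occ (hl (τ (s + 1 + u))) (seg τ s n t) (33 + 13 * u) := blk1 τ _ ▸ H.oB (k := 1) h

theorem oH (H : SegH τ L s n b t) {k : ℕ} (h : k ≤ n) :
    Occ (m1 ++ m2 ++ rho (τ s) (τ (s + 1)) ++ blk τ (s + 1) k) (seg τ s n t) 0 :=
  Occ.app (Occ.fst (Occ.fst (occ_self (seg τ s n t))))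
    ((H.oB (u := 0) (k := k) (by omega)).cast (by simp [H.head.len, len_m1, len_m2]))

theorem oT (H : SegH τ L s n b t) {k : ℕ} (h : k ≤ n) :
    Occ (blk τ (s + 1 + (n - k)) k ++ t) (seg τ s n t) (33 + 13 * (n - k)) :=
  Occ.app (H.oB (by omega)) ((occ_right _ t).cast
    (by simp [H.head.len, len_m1, len_m2, len_blk]; omega))

theorem locate (H : SegH τ L s n b t) {d : W3} {x : ℕ} (hd : d.length ≤ 14)
    (h : Occ d (seg τ s n t) x) :
    Occ d (m1 ++ m2 ++ rho (τ s) (τ (s + 1)) ++ hl (τ (s + 1))) x ∨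
    (∃ u, u + 2 ≤ n ∧ 33 + 13 * u ≤ x ∧
      Occ d (hl (τ (s + 1 + u)) ++ hl (τ (s + 1 + u + 1))) (x - (33 + 13 * u))) ∨
    (33 + 13 * (n - 1) ≤ x ∧ Occ d (hl (τ (s + n)) ++ t) (x - (33 + 13 * (n - 1)))) := by
  have h3 := H.three
  have hl' := H.len
  have := h.1
  by_cases c1 : x < 33
  · have o := H.oH (k := 1) (by omega)
    rw [blk1] at o
    exact Or.inl (h.restr o (Nat.zero_le _)
      (by simp [H.head.len, len_m1, len_m2, len_hl]; omega))
  by_cases c2 : 33 + 13 * (n - 1) ≤ x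
  · have o := H.oT (k := 1) (by omega)
    rw [blk1, show s + 1 + (n - 1) = s + n by omega] at o
    exact Or.inr (Or.inr ⟨c2, h.restr o c2 (by simp [len_hl]; omega)⟩)
  · have o := H.oB (u := (x - 33) / 13) (k := 2) (by omega)
    rw [blk2] at o
    exact Or.inr (Or.inl ⟨(x - 33) / 13, by omega, by omega,
      h.restr o (by omega) (by simp [len_hl]; omega)⟩)

theorem sync (H : SegH τ L s n b t) {a : Fin 3} {x : ℕ} (h : Occ (hl a) (seg τ s n t) x) :
    ∃ u, u < n ∧ x = 33 + 13 * u := by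
  have h3 := H.three
  have := H.le
  rcases H.locate (by rw [len_hl]; omega) h with c | ⟨u, c1, c2, c3⟩ | ⟨c1, c2⟩
  · exact ⟨0, by omega, H.head.bl _ _ c⟩
  · rcases (mor_of (H.q.ne (by omega))).2.1 _ _ c3 with e | e
    · exact ⟨u, by omega, by omega⟩
    · exact ⟨u + 1, by omega, by omega⟩
  · have := H.tail.bl _ _ c2
    exact ⟨n - 1, by omega, by omega⟩

theorem pos1 (H : SegH τ L s n b t) {x : ℕ} (h : Occ m1 (seg τ s n t) x) :
    x = 0 ∨ (b = true ∧ x + 22 = (seg τ s n t).length) := by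
  have h3 := H.three
  have := H.le
  have := H.len
  rcases H.locate (by decide) h with c | ⟨u, c1, c2, c3⟩ | ⟨c1, c2⟩
  · exact Or.inl (H.head.o1 _ c)
  · exact absurd c3 ((mor_of (H.q.ne (by omega))).2.2.1 _)
  · have := H.tail.o1 _ c2
    exact Or.inr ⟨this.1, by omega⟩

theorem pos2 (H : SegH τ L s n b t) {x : ℕ} (h : Occ m2 (seg τ s n t) x) :
    x = 11 ∨ (b = true ∧ x + 11 = (seg τ s n t).length) := by
  have h3 := H.three
  have := H.le
  have := H.len
  rcases H.locate (by decide) h with c | ⟨u, c1, c2, c3⟩ | ⟨c1, c2⟩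
  · exact Or.inl (H.head.o2 _ c)
  · exact absurd c3 ((mor_of (H.q.ne (by omega))).2.2.2 _)
  · have := H.tail.o2 _ c2
    exact Or.inr ⟨this.1, by omega⟩

theorem last (H : SegH τ L s n b t) {u : ℕ} (h : u ≤ n) :
    (seg τ s n t)[32 + 13 * u]? = some (τ (s + u)) := by
  rcases u with _ | u
  · have o : Occ (rho (τ s) (τ (s + 1))) (seg τ s n t) 22 :=
      (Occ.snd (Occ.fst (H.oH (k := 0) (Nat.zero_le _)))).cast (by simp [len_m1, len_m2])
    have := o.2 10 (by rw [H.head.len]; omega)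
    rw [H.head.last] at this
    exact this
  · have := (H.oB1 (u := u) h).2 12 (by rw [len_hl]; omega)
    rw [last_hl, show s + 1 + u = s + (u + 1) by omega] at this
    rw [← this]; congr 1; omega

theorem noSq (H : SegH τ L s n b t) : NoSq (seg τ s n t) := by
  intro q p hp0 hp
  have h3 := H.three
  have hL := H.le
  have hl' := H.len
  have l1 := hp.1
  by_cases c1 : q + 2 * p ≤ 59
  · have o := H.oH (k := 2) (by omega)
    rw [blk2] at o
    exact H.head.sf.inside o hp0 hp (Nat.zero_le _)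
      (by simp [H.head.len, len_m1, len_m2, len_hl]; omega)
  by_cases c2 : 33 + 13 * (n - 2) ≤ q
  · have o := H.oT (k := 2) (by omega)
    rw [blk2, show s + 1 + (n - 2) + 1 = s + n by omega,
      show s + 1 + (n - 2) = s + n - 1 by omega] at o
    exact H.tail.sf.inside o hp0 hp c2 (by simp [len_hl]; omega)
  by_cases c3 : 33 ≤ q ∧ q + 2 * p ≤ 33 + 13 * ((q - 33) / 13) + 39
  · have o := H.oB (u := (q - 33) / 13) (k := 3) (by omega)
    rw [blk3] at o
    exact ((mor_of (H.q.ne (by omega))).1 _ (H.q.ne (by omega))).inside o hp0 hp (by omega)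
      (by simp [len_hl]; omega)
  obtain ⟨u, u1, u2, u3⟩ : ∃ u, u + 2 ≤ n ∧ q ≤ 33 + 13 * u ∧ 33 + 13 * u + 26 ≤ q + 2 * p := by
    by_cases c4 : q < 33
    · exact ⟨0, by omega, by omega, by omega⟩
    · exact ⟨(q - 33) / 13 + 1, by omega, by omega, by omega⟩
  obtain ⟨v, m, v1, v2, v3, v4⟩ : ∃ v m, v + m < n ∧ p = 13 * m ∧ q ≤ 33 + 13 * v ∧
      33 + 13 * v + 13 ≤ q + p := by
    by_cases c4 : 33 + 13 * u + 13 ≤ q + p
    · obtain ⟨w, w1, w2⟩ := H.sync ((H.oB1 (u := u) (by omega)).fwd hp u2 (by rw [len_hl]; omega))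
      exact ⟨u, w - u, by omega, by omega, u2, c4⟩
    · obtain ⟨w, w1, w2⟩ := H.sync ((H.oB1 (u := u + 1) (by omega)).bwd hp (by omega)
        (by rw [len_hl]; omega))
      exact ⟨w, u + 1 - w, by omega, by omega, by omega, by omega⟩
  by_cases c5 : q ≤ 20
  · obtain ⟨w, w1, w2⟩ := H.sync ((H.oB1 (u := m - 1) (by omega)).bwd hp (by omega)
      (by rw [len_hl]; omega))
    omega
  by_cases c6 : 33 + 13 * n + 13 ≤ q + 2 * p
  · obtain ⟨w, w1, w2⟩ := H.sync ((H.oB1 (u := n - m) (by omega)).fwd hp (by omega)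
      (by rw [len_hl]; omega))
    omega
  refine H.q (s + (q - 20) / 13) m (by omega) (by omega) fun k k1 k2 => ?_
  have e1 := H.last (u := k - s) (by omega)
  have e2 := H.last (u := k - s + m) (by omega)
  have e3 := hp.2 (32 + 13 * (k - s)) (by omega) (by omega)
  rw [e1, show 32 + 13 * (k - s) + p = 32 + 13 * (k - s + m) by omega, e2,
    show s + (k - s) = k by omega, show s + (k - s + m) = k + m by omega] at e3
  exact Option.some.inj e3

end SegH

end Pool.Agent.MP_4bd596_co.Low
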