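import Pool.Agent.MP_4bd596_co.LowChk

/-! Tables of connecting words and their check. -/

set_option autoImplicit false

namespace Pool.Agent.MP_4bd596_co.Low

/-- connectors after the marker -/
def rho (c e : Fin 3) : W3 :=
  sel c (sel e [] [i, z, i, o, z, o, i, o, z, i, o] [i, z, i, o, z, i, z, o, z, i, o]) (sel e [i,
  z, i, o, z, o, i, z, o, z, i] [] [i, z, i, o, z, o, i, z, o, z, i]) (sel e [i, z, i, o, z, i,
  z, o, i, o, z] [i, z, o, z, i, o, z, o, i, o, z] [])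

/-- inner words for a context -/
def in01 (a : Fin 3) : List W3 :=
  sel a [[], [o], [o, i], [o, i, z], [o, i, z, i], [o, i, z, i, o], [o, i, z, i, o, z], [o, i, z,
  i, o, z, i], [o, i, z, i, o, z, i, z], [o, i, z, i, o, z, i, z, o], [o, i, z, i, o, z, i, z, o,
  i], [o, i, z, i, o, z, i, z, o, i, z], [o, i, z, i, o, z, i, z, o, i, z, i], [z]] [[], [z]]
  [[], [z], [z, o], [z, o, i], [z, o, i, o], [z, o, i, o, z], [z, o, i, o, z, i], [z, o, i, o, z,
  i, o], [z, o, i, o, z, i, o, i], [z, o, i, o, z, i, o, i, z], [z, o, i, o, z, i, o, i, z, o],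
  [z, o, i, o, z, i, o, i, z, o, i], [z, o, i, o, z, i, o, i, z, o, i, o]]

/-- connecting words for a context -/
def gd01 : List (W3 × W3 × List W3) :=
  [([o, i, z, o], [i, o, z, o, i, z, i, o, i, z, o, i, o, z, i, z, o, z, i, o, i, z, i, o, z, o,
  i, z], [[], [z, o, i, z, i, o, i, z, o, i, o, z, o, i, z, o, z], [o, i, z, o, z, i, z, o, i, o,
  z, i, o, i, z, o, z], [z, o, i, o, z, i, o, i, z, i, o, z, o, i, z, o, z], [], [o, i, z, o, z,
  i, o, i, z, o, i, o, z, i, o, i, z], [i, z, o, z, i, o, z, o, i, z, i, o, z, i, z, o, z], [o,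
  i, z, o, i, o, z, o, i, z, i, o, z, i, z, o, z], []]), ([o, i, z, i, o, z, o], [i, z, o, z, i,
  o, z, o, i, z, i, o, z, i, z, o, z, i, o, i, z, o, i, o, z], [[], [z, o, i, o, z, o, i, z, i,
  o, i, z, o, z, i, z, o, i, o, z], [o, i, z, i, o, i, z, o, z, i, o, i, z, i, o, z, o, i, o, z],
  [i, z, o, z, i, z, o, i, o, z, o, i, z, i, o, z, o, i, o, z], [], [i, z, o, i, z, i, o, i, z,
  o, i, o, z, i, o, i, z, i, o, z], [z, o, i, z, o, z, i, o, z, o, i, z, i, o, i, z, o, i, o, z],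
  [z, o, i, o, z, o, i, z, i, o, i, z, o, z, i, z, o, i, o, z], []]), ([o, i, z, i, o, z, i, z,
  o, z], [i, o, z, o, i, z, i, o, i, z, o, z, i, o, i, z, i, o, z, o, i, z], [[], [z, o, i, o, z,
  i, z, o, z, i, o, i, z, i, o, z, o, i, o, z, i, z, o], [i, z, o, i, z, i, o, z, o, i, z, o, z,
  i, o, z, o, i, o, z, i, z, o], [i, z, o, i, o, z, i, o, i, z, i, o, z, o, i, z, o, z, i, o, i,
  z, o], [], [o, i, z, o, z, i, o, z, o, i, o, z, i, z, o, i, z, i, o, z, i, z, o], [i, z, o, i,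
  o, z, o, i, z, o, z, i, o, z, o, i, z, i, o, z, i, z, o], [z, o, i, o, z, i, z, o, z, i, o, i,
  z, i, o, z, o, i, o, z, i, z, o], []]), ([o, i, z, i, o, z, i, z, o, i, o], [z, o, i, z, i, o,
  i, z, o, z, i, o, i, z, i, o, z, i, z, o, z], [[], [o, i, z, i, o, z, i, z, o, i, o, z, o, i,
  z, i, o, i, z, o, i, o, z, i], [i, z, o, z, i, o, z, o, i, o, z, i, o, i, z, i, o, z, o, i, z,
  o, z, i], [i, z, o, i, o, z, i, o, i, z, o, z, i, z, o, i, o, z, o, i, z, o, z, i], [], [o, i,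
  z, i, o, i, z, o, z, i, o, z, o, i, z, i, o, i, z, o, i, o, z, i], [z, o, i, z, o, z, i, z, o,
  i, o, z, i, o, i, z, i, o, z, o, i, o, z, i], [z, o, i, o, z, o, i, z, o, z, i, o, i, z, o, i,
  o, z, o, i, z, o, z, i], []]), ([z, o], [i, o, z, o, i, z, i, o, z, i, z, o, i, o, z, o, i, z,
  o, z, i, o, i, z, i, o, z, o, i, z], [[], [o, i, z, i, o, z, o, i, z, i, o, i, z, o, z], [i, z,
  o, z, i, o, i, z, i, o, z, i, z, o, z], [i, z, o, z, i, o, z, o, i, o, z, i, z, o, z], [], [o,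
  i, z, i, o, i, z, o, i, o, z, i, z, o, z], [i, z, o, i, o, z, o, i, z, i, o, i, z, o, z], [z,
  o, i, o, z, o, i, z, i, o, z, i, z, o, z], []]), ([o], [i, z, o, i, o, z, o, i, z, o, z, i, o,
  z, o, i, o, z, i, z, o, i, z, i, o, i, z, o, i, o, z], [[], [z, o, i, o, z, o, i, z, i, o, i,
  z, o, z], [o, i, z, o, z, i, o, z, o, i, z, i, o, z], [i, z, o, i, o, z, i, z, o, i, z, i, o,
  z], [], [o, i, z, o, z, i, o, z, o, i, z, i, o, z], [i, z, o, i, o, z, i, z, o, i, z, i, o, z],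
  [z, o, i, o, z, o, i, z, i, o, i, z, o, z], []]), ([z, o, i, z], [i, o, z, o, i, z, o, z, i, o,
  z, o, i, o, z, i, z, o, i, z, i, o, i, z, o, i, o, z], [[], [o, i, z, o, i, o, z, i, z, o, i,
  z, i, o, i, z, o], [i, z, o, i, z, i, o, z, i, z, o, z, i, o, i, z, o], [i, z, o, i, o, z, i,
  z, o, i, z, i, o, z, i, z, o], [], [i, z, o, i, z, i, o, z, i, z, o, z, i, o, i, z, o], [i, z,
  o, i, o, z, i, z, o, i, z, i, o, z, i, z, o], [o, i, z, o, i, o, z, i, z, o, i, z, i, o, i, z,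
  o], []]), ([z, o, i, o, z, o], [i, z, o, z, i, o, i, z, o, i, o, z, o, i, z, i, o, z, o, i, o,
  z, i, z, o, z], [[], [o, i, z, i, o, z, i, z, o, z, i, o, z, o, i, z, i, o, z], [i, z, o, i, z,
  i, o, z, o, i, z, o, z, i, z, o, i, o, z], [i, z, o, i, o, z, i, z, o, z, i, o, z, o, i, z, i,
  o, z], [], [o, i, z, i, o, i, z, o, i, o, z, i, z, o, i, z, i, o, z], [z, o, i, z, o, z, i, z,
  o, i, z, i, o, i, z, o, i, o, z], [z, o, i, z, i, o, i, z, o, z, i, o, z, o, i, z, i, o, z],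
  []]), ([z, o, i, o, z, i, z], [o, z, i, o, i, z, o, z, i, z, o, i, o, z, i, o, i, z, i, o, z,
  o, i, o, z], [[], [o, i, z, i, o, z, o, i, o, z, i, z, o, z, i, o, i, z, o, i], [i, z, o, z, i,
  o, i, z, i, o, z, o, i, z, i, o, i, z, o, i], [i, z, o, i, o, z, o, i, z, i, o, i, z, o, z, i,
  o, z, o, i], [], [i, z, o, z, i, o, i, z, o, i, o, z, o, i, z, i, o, z, o, i], [z, o, i, o, z,
  i, z, o, i, o, z, o, i, z, i, o, i, z, o, i], [z, o, i, z, i, o, i, z, o, i, o, z, o, i, z, i,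
  o, z, o, i], []]), ([z, o, i, o, z, i, o, i, z, i], [o, z, i, z, o, i, o, z, o, i, z, i, o, z,
  o, i, o, z, i, z, o, z], [[], [z, o, i, o, z, i, z, o, z, i, o, i, z, i, o, z, o, i, z, i, o,
  i, z], [i, z, o, z, i, o, i, z, i, o, z, o, i, o, z, i, z, o, z, i, o, i, z], [i, z, o, i, o,
  z, o, i, z, o, z, i, o, i, z, o, i, o, z, i, o, i, z], [], [i, z, o, i, z, i, o, i, z, o, i, o,
  z, i, o, i, z, i, o, z, o, i, z], [i, z, o, i, o, z, i, o, i, z, o, z, i, o, z, o, i, o, z, i,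
  o, i, z], [o, i, z, o, i, o, z, i, o, i, z, o, z, i, o, z, o, i, z, i, o, i, z], []]), ([z, o,
  i, o, z, i, o, i, z, o, z], [i, o, z, o, i, z, i, o, z, i, z, o, z, i, o, i, z, o, i, o, z],
  [[], [o, i, z, i, o, z, o, i, o, z, i, z, o, z, i, o, i, z, i, o, z, i, z, o], [o, i, z, o, z,
  i, z, o, i, o, z, i, z, o, z, i, o, i, z, o, z, i, z, o], [i, z, o, i, o, z, i, z, o, z, i, o,
  i, z, i, o, z, o, i, o, z, i, z, o], [], [o, i, z, o, z, i, z, o, i, o, z, o, i, z, i, o, z, o,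
  i, o, z, i, z, o], [z, o, i, o, z, i, o, i, z, i, o, z, o, i, z, i, o, i, z, o, z, i, z, o],
  [o, i, z, i, o, z, o, i, o, z, i, z, o, i, z, i, o, i, z, o, z, i, z, o], []])]

/-- inner words for a context -/
def in02 (a : Fin 3) : List W3 :=
  sel a [[], [o], [o, i], [o, i, z], [o, i, z, i], [o, i, z, i, o], [o, i, z, i, o, z], [o, i, z,
  i, o, z, i], [o, i, z, i, o, z, i, z], [o, i, z, i, o, z, i, z, o], [o, i, z, i, o, z, i, z, o,
  i], [o, i, z, i, o, z, i, z, o, i, z], [o, i, z, i, o, z, i, z, o, i, z, i]] [[], [i], [i, z],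
  [i, z, o], [i, z, o, z], [i, z, o, z, i], [i, z, o, z, i, o], [i, z, o, z, i, o, z], [i, z, o,
  z, i, o, z, o], [i, z, o, z, i, o, z, o, i], [i, z, o, z, i, o, z, o, i, z], [i, z, o, z, i, o,
  z, o, i, z, o], [i, z, o, z, i, o, z, o, i, z, o, z], [i, o], [i, z, o, z, i, o, z, o, i, o]]
  [[]]

/-- connecting words for a context -/
def gd02 : List (W3 × W3 × List W3) :=
  [([i], [z, o, i, z, i, o, i, z, o, z, i, z, o, i, o, z, i, z, o, z, i, o, i, z, o, i, o, z, o,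
  i, z], [[], [z, o, i, z, i, o, z, o, i, z, o, z, i, o], [i, z, o, i, z, i, o, z, i, z, o, z, i,
  o], [i, z, o, i, o, z, i, o, i, z, o, z, i, o], [], [i, z, o, i, z, i, o, z, i, z, o, z, i, o],
  [i, z, o, i, o, z, i, o, i, z, o, z, i, o], [o, i, z, o, i, o, z, o, i, z, o, z, i, o], []]),
  ([o, i, z, o], [z, i, o, z, o, i, z, i, o, i, z, o, z, i, o, i, z, i, o, z, o, i, o, z, i, z,
  o, z], [[], [o, i, z, i, o, z, o, i, o, z, i, z, o, z, i, o, i], [o, i, z, i, o, z, o, i, o, z,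
  i, z, o, z, i, o, i], [i, z, o, z, i, z, o, i, o, z, i, z, o, z, i, o, i], [], [o, i, z, i, o,
  z, o, i, o, z, i, z, o, z, i, o, i], [z, o, i, z, o, z, i, o, i, z, o, i, o, z, i, o, i], [o,
  i, z, i, o, z, o, i, o, z, i, z, o, z, i, o, i], []]), ([o, i, z, i, o, i], [z, o, i, o, z, i,
  o, i, z, i, o, z, o, i, o, z, i, z, o, z, i, o, z, o, i, z], [[], [z, o, i, o, z, i, o, i, z,
  i, o, z, o, i, z, o, z, i, o], [o, i, z, o, z, i, o, i, z, o, i, o, z, i, z, o, z, i, o], [i,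
  z, o, z, i, o, z, o, i, z, i, o, z, i, z, o, z, i, o], [], [i, z, o, i, z, i, o, i, z, o, i, o,
  z, i, z, o, z, i, o], [z, o, i, o, z, i, o, i, z, i, o, z, o, i, z, o, z, i, o], [o, i, z, i,
  o, z, i, z, o, i, o, z, o, i, z, o, z, i, o], []]), ([o, i, z, i, o, z, o], [i, o, z, i, z, o,
  z, i, o, z, o, i, z, i, o, i, z, o, z, i, z, o, i, o, z], [[], [o, i, z, o, i, o, z, o, i, z,
  i, o, i, z, o, z, i, o, i, z], [i, z, o, z, i, o, i, z, i, o, z, o, i, z, o, z, i, o, i, z],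
  [z, o, i, o, z, i, z, o, z, i, o, i, z, o, i, o, z, o, i, z], [], [i, z, o, i, z, i, o, z, o,
  i, o, z, i, z, o, z, i, o, i, z], [z, o, i, o, z, i, z, o, i, z, i, o, i, z, o, z, i, o, i, z],
  [o, i, z, o, i, o, z, o, i, z, i, o, i, z, o, z, i, o, i, z], []]), ([o, i, z, i, o, z, i, z,
  o, z], [i, o, z, o, i, z, i, o, i, z, o, z, i, o, i, z, i, o, z, o, i, z], [[], [z, o, i, z, i,
  o, z, i, z, o, i, o, z, o, i, z, o, z, i, o, i, z, o], [i, z, o, z, i, o, i, z, i, o, z, o, i,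
  z, i, o, i, z, o, z, i, z, o], [z, o, i, z, o, z, i, o, z, o, i, o, z, i, z, o, i, z, i, o, i,
  z, o], [], [i, z, o, z, i, o, i, z, i, o, z, o, i, z, i, o, i, z, o, z, i, z, o], [z, o, i, o,
  z, i, z, o, z, i, o, i, z, i, o, z, o, i, o, z, i, z, o], [z, o, i, z, i, o, i, z, o, i, o, z,
  i, z, o, i, z, i, o, z, i, z, o], []]), ([o, i, z, i, o, z, i, z, o, i, o], [z, o, i, z, i, o,
  i, z, o, z, i, o, i, z, i, o, z, o, i, o, z], [[], [z, o, i, z, i, o, i, z, o, i, o, z, i, z,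
  o, z, i, o, z, o, i, o, z, i], [i, z, o, i, z, i, o, i, z, o, z, i, o, i, z, i, o, z, o, i, z,
  o, z, i], [i, z, o, z, i, z, o, i, o, z, i, o, i, z, o, z, i, o, z, o, i, o, z, i], [], [i, z,
  o, i, z, i, o, z, o, i, o, z, i, z, o, i, o, z, o, i, z, o, z, i], [z, o, i, z, o, z, i, z, o,
  i, o, z, i, z, o, z, i, o, z, o, i, o, z, i], [z, o, i, z, i, o, i, z, o, i, o, z, i, z, o, z,
  i, o, z, o, i, o, z, i], []]), ([o], [i, z, o, z, i, o, i, z, i, o, z, o, i, o, z, i, z, o, i,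
  z, i, o, i, z, o, i, o, z, o, i, z], [[], [o, i, z, o, i, o, z, i, o, i, z, i, o, z], [o, i, z,
  o, z, i, o, z, o, i, z, i, o, z], [i, z, o, i, o, z, i, z, o, i, z, i, o, z], [], [o, i, z, o,
  z, i, o, z, o, i, z, i, o, z], [z, o, i, z, o, z, i, z, o, i, z, i, o, z], [o, i, z, o, i, o,
  z, i, o, i, z, i, o, z], []]), ([i, z, o, i], [z, i, o, i, z, o, z, i, z, o, i, o, z, o, i, z,
  i, o, i, z, o, i, o, z, i, z, o, z], [[], [z, o, i, z, i, o, z, i, z, o, z, i, o, z, o, i, o],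
  [o, i, z, i, o, z, i, z, o, z, i, o, i, z, o, i, o], [i, z, o, z, i, o, z, o, i, z, i, o, i, z,
  o, i, o], [], [o, i, z, i, o, z, i, z, o, z, i, o, i, z, o, i, o], [i, z, o, i, o, z, i, z, o,
  z, i, o, i, z, o, i, o], [o, i, z, i, o, z, i, z, o, z, i, o, i, z, o, i, o], []]), ([i, z, o,
  z, i, o, i], [z, i, o, z, o, i, z, i, o, i, z, o, i, o, z, i, o, i, z, i, o, z, o, i, z], [[],
  [o, i, z, i, o, z, i, z, o, i, o, z, o, i, z, i, o, i, z, o], [i, z, o, i, z, i, o, i, z, o, z,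
  i, z, o, i, o, z, i, z, o], [z, o, i, z, o, z, i, z, o, i, o, z, o, i, z, i, o, i, z, o], [],
  [i, z, o, i, z, i, o, i, z, o, z, i, z, o, i, o, z, i, z, o], [i, z, o, z, i, o, i, z, i, o, z,
  o, i, o, z, i, o, i, z, o], [z, o, i, o, z, o, i, z, o, z, i, o, z, o, i, o, z, i, z, o], []]),
  ([i, z, o, z, i, o, z, o, i, z, i], [o, z, i, z, o, i, o, z, o, i, z, o, z, i, o, i, z, o, i,
  o, z], [[], [o, i, z, i, o, z, o, i, z, o, z, i, z, o, i, o, z, o, i, z, i, o, i, z], [i, z, o,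
  i, z, i, o, z, o, i, z, o, z, i, o, z, o, i, o, z, i, o, i, z], [i, z, o, i, o, z, o, i, z, i,
  o, z, o, i, o, z, i, z, o, z, i, o, i, z], [], [i, z, o, z, i, o, z, o, i, o, z, i, z, o, i, o,
  z, o, i, z, i, o, i, z], [i, z, o, z, i, z, o, i, o, z, o, i, z, i, o, z, i, z, o, z, i, o, i,
  z], [z, o, i, z, i, o, z, o, i, o, z, i, z, o, i, o, z, o, i, z, i, o, i, z], []]), ([i, z, o,
  z, i, o, z, o, i, o, z], [i, z, o, i, o, z, o, i, z, i, o, i, z, o, z, i, z, o, i, o, z], [[],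
  [o, i, z, i, o, z, o, i, z, o, z, i, z, o, i, o, z, o, i, z, o, z, i, o], [i, z, o, i, z, i, o,
  i, z, o, z, i, o, z, o, i, o, z, i, z, o, z, i, o], [z, o, i, z, o, z, i, o, i, z, i, o, z, o,
  i, o, z, i, z, o, i, z, i, o], [], [i, z, o, z, i, o, i, z, i, o, z, i, z, o, i, o, z, o, i, z,
  o, z, i, o], [i, z, o, z, i, o, z, o, i, o, z, i, z, o, i, o, z, o, i, z, o, z, i, o], [z, o,
  i, o, z, i, o, i, z, i, o, z, o, i, z, o, z, i, z, o, i, z, i, o], []])]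

/-- inner words for a context -/
def in10 (a : Fin 3) : List W3 :=
  sel a [[], [z], [z, i]] [[], [i], [i, z], [i, z, o], [i, z, o, z], [i, z, o, z, i], [i, z, o,
  z, i, o], [i, z, o, z, i, o, z], [i, z, o, z, i, o, z, o], [i, z, o, z, i, o, z, o, i], [i, z,
  o, z, i, o, z, o, i, z], [i, z, o, z, i, o, z, o, i, z, o], [i, z, o, z, i, o, z, o, i, z, o,
  z], [z], [i, z, o, z, i, z], [i, z, o, z, i, o, z, o, i, o], [z, i]] [[], [z], [z, o], [z, o,
  i], [z, o, i, o], [z, o, i, o, z], [z, o, i, o, z, i], [z, o, i, o, z, i, o], [z, o, i, o, z,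
  i, o, i], [z, o, i, o, z, i, o, i, z], [z, o, i, o, z, i, o, i, z, o], [z, o, i, o, z, i, o, i,
  z, o, i], [z, o, i, o, z, i, o, i, z, o, i, o], [z, i]]

/-- connecting words for a context -/
def gd10 : List (W3 × W3 × List W3) :=
  [([i], [z, o, i, o, z, i, z, o, i, z, i, o, z, o, i, z, o, z, i, z, o, i, z, i, o, i, z, o, i,
  o, z], [[], [z, o, i, z, i, o, z, o, i, z, o, z, i, o], [i, z, o, i, z, i, o, z, i, z, o, z, i,
  o], [i, z, o, i, o, z, i, o, i, z, o, z, i, o], [], [i, z, o, i, z, i, o, z, i, z, o, z, i, o],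
  [i, z, o, i, o, z, i, o, i, z, o, z, i, o], [z, o, i, z, i, o, z, o, i, z, o, z, i, o], []]),
  ([z, o], [i, o, z, i, z, o, i, o, z, o, i, z, o, z, i, o, i, z, i, o, z, i, z, o, i, o, z, o,
  i, z], [[], [o, i, z, i, o, z, o, i, o, z, i, z, o, i, z], [o, i, z, i, o, z, o, i, o, z, i, z,
  o, i, z], [z, o, i, z, o, z, i, z, o, i, o, z, o, i, z], [], [o, i, z, i, o, z, o, i, o, z, i,
  z, o, i, z], [z, o, i, z, o, z, i, z, o, i, o, z, o, i, z], [o, i, z, i, o, z, o, i, o, z, i,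
  z, o, i, z], []]), ([i, z, o, i], [o, z, i, o, i, z, o, z, i, z, o, i, o, z, i, z, o, z, i, o,
  i, z, i, o, z, o, i, z], [[], [z, o, i, o, z, o, i, z, i, o, z, o, i, o, z, i, z], [i, z, o, z,
  i, o, i, z, i, o, z, o, i, o, z, i, z], [z, o, i, z, o, z, i, o, z, o, i, z, i, o, z, i, z],
  [], [i, z, o, z, i, o, i, z, i, o, z, o, i, o, z, i, z], [i, z, o, z, i, o, i, z, i, o, z, o,
  i, o, z, i, z], [o, i, z, o, i, o, z, i, z, o, i, z, i, o, z, i, z], []]), ([i, z, o, z, i, o,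
  i], [z, i, o, z, o, i, z, i, o, i, z, o, i, o, z, o, i, z, i, o, z, o, i, o, z], [[], [o, i, z,
  o, i, o, z, o, i, z, i, o, z, o, i, o, z, i, z, o], [i, z, o, i, z, i, o, i, z, o, z, i, z, o,
  i, o, z, i, z, o], [z, o, i, z, o, z, i, z, o, i, o, z, o, i, z, i, o, i, z, o], [], [o, i, z,
  o, z, i, z, o, i, z, i, o, z, o, i, o, z, i, z, o], [i, z, o, z, i, o, i, z, i, o, z, o, i, o,
  z, i, o, i, z, o], [o, i, z, i, o, z, i, z, o, i, o, z, o, i, z, i, o, i, z, o], []]), ([i, z,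
  o, z, i, o, z, o, i, z, i], [o, i, z, o, z, i, z, o, i, o, z, i, z, o, z, i, o, z, o, i, z],
  [[], [o, i, z, o, i, o, z, i, z, o, z, i, o, i, z, i, o, z, i, z, o, i, o, z], [i, z, o, i, z,
  i, o, i, z, o, i, o, z, i, z, o, z, i, o, i, z, i, o, z], [z, o, i, z, o, z, i, z, o, i, z, i,
  o, i, z, o, z, i, o, i, z, i, o, z], [], [o, i, z, o, z, i, o, i, z, i, o, z, o, i, o, z, i, z,
  o, i, z, i, o, z], [i, z, o, i, o, z, i, z, o, i, z, i, o, z, o, i, o, z, i, z, o, i, o, z],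
  [z, o, i, z, i, o, z, i, z, o, i, o, z, o, i, z, i, o, i, z, o, i, o, z], []]), ([i, z, o, z,
  i, z, o], [i, o, z, o, i, z, i, o, i, z, o, z, i, o, z, o, i, z, i, o, z, i, z, o, z], [[], [o,
  i, z, o, i, o, z, o, i, z, i, o, i, z, o, z, i, o, i, z], [i, z, o, i, z, i, o, z, o, i, o, z,
  i, z, o, z, i, o, i, z], [i, z, o, i, o, z, o, i, z, i, o, z, i, z, o, z, i, o, i, z], [], [i,
  z, o, i, z, i, o, z, o, i, o, z, i, z, o, z, i, o, i, z], [i, z, o, i, o, z, o, i, z, i, o, z,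
  i, z, o, z, i, o, i, z], [o, i, z, o, i, o, z, o, i, z, i, o, i, z, o, z, i, o, i, z], []]),
  ([i, z, o, z, i, o, z, o, i, o, z], [i, z, o, i, o, z, o, i, z, i, o, i, z, o, i, o, z, i, z,
  o, z], [[], [o, i, z, i, o, z, o, i, o, z, i, z, o, i, z, i, o, z, i, z, o, z, i, o], [i, z, o,
  i, z, i, o, i, z, o, z, i, z, o, i, o, z, o, i, z, o, z, i, o], [z, o, i, z, o, z, i, z, o, i,
  z, i, o, z, o, i, o, z, i, z, o, z, i, o], [], [i, z, o, i, z, i, o, i, z, o, z, i, z, o, i, o,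
  z, o, i, z, o, z, i, o], [i, z, o, i, o, z, o, i, z, o, z, i, o, z, o, i, o, z, i, z, o, z, i,
  o], [z, o, i, o, z, i, o, i, z, o, z, i, o, z, o, i, o, z, i, z, o, z, i, o], []]), ([z, o, i,
  z], [o, z, i, z, o, i, z, i, o, i, z, o, z, i, o, i, z, i, o, z, o, i, o, z, i, z, o, z], [[],
  [z, o, i, z, i, o, z, i, z, o, z, i, o, i, z, o, i], [i, z, o, i, z, i, o, z, i, z, o, z, i, o,
  z, o, i], [i, z, o, i, o, z, o, i, z, o, z, i, o, i, z, o, i], [], [o, i, z, o, z, i, o, z, o,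
  i, z, i, o, i, z, o, i], [z, o, i, z, o, z, i, z, o, i, z, i, o, i, z, o, i], [z, o, i, z, i,
  o, z, o, i, z, o, z, i, o, z, o, i], []]), ([z, o, i, o, z, i, z], [o, i, z, i, o, z, i, z, o,
  i, o, z, o, i, z, o, z, i, o, i, z, o, i, o, z], [[], [z, o, i, z, i, o, z, i, z, o, z, i, o,
  i, z, o, i, o, z, i], [i, z, o, i, z, i, o, z, i, z, o, z, i, o, z, o, i, o, z, i], [i, z, o,
  z, i, z, o, i, o, z, o, i, z, i, o, i, z, o, z, i], [], [i, z, o, i, z, i, o, z, i, z, o, z, i,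
  o, z, o, i, o, z, i], [z, o, i, z, o, z, i, o, i, z, o, i, o, z, o, i, z, o, z, i], [z, o, i,
  z, i, o, z, i, z, o, z, i, o, i, z, o, i, o, z, i], []]), ([z, o, i, o, z, i, o, i, z, i], [o,
  z, i, z, o, i, o, z, o, i, z, i, o, z, o, i, o, z, i, z, o, z], [[], [z, o, i, o, z, i, z, o,
  z, i, o, i, z, i, o, z, o, i, z, i, o, i, z], [i, z, o, z, i, o, i, z, i, o, z, o, i, o, z, i,
  z, o, z, i, o, i, z], [z, o, i, o, z, i, z, o, z, i, o, i, z, i, o, z, o, i, z, i, o, i, z],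
  [], [i, z, o, i, z, i, o, z, o, i, z, o, z, i, z, o, i, o, z, i, o, i, z], [z, o, i, o, z, i,
  z, o, z, i, o, i, z, i, o, z, o, i, z, i, o, i, z], [z, o, i, o, z, i, z, o, z, i, o, i, z, i,
  o, z, o, i, z, i, o, i, z], []]), ([z, o, i, o, z, i, o, i, z, o, z], [i, o, z, o, i, z, i, o,
  z, i, z, o, z, i, o, i, z, o, i, o, z], [[], [z, o, i, z, i, o, z, o, i, o, z, i, z, o, z, i,
  o, i, z, o, z, i, z, o], [o, i, z, i, o, i, z, o, i, o, z, i, z, o, z, i, o, i, z, o, z, i, z,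
  o], [i, z, o, z, i, o, z, o, i, o, z, i, z, o, z, i, o, i, z, o, z, i, z, o], [], [i, z, o, i,
  z, i, o, z, i, z, o, i, o, z, o, i, z, o, z, i, o, i, z, o], [z, o, i, o, z, i, o, i, z, i, o,
  z, o, i, z, i, o, i, z, o, z, i, z, o], [o, i, z, o, i, o, z, i, o, i, z, o, z, i, o, z, o, i,
  z, i, o, i, z, o], []])]

/-- inner words for a context -/
def in12 (a : Fin 3) : List W3 :=
  sel a [[], [o], [o, i], [o, i, z], [o, i, z, i], [o, i, z, i, o], [o, i, z, i, o, z], [o, i, z,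
  i, o, z, i], [o, i, z, i, o, z, i, z], [o, i, z, i, o, z, i, z, o], [o, i, z, i, o, z, i, z, o,
  i], [o, i, z, i, o, z, i, z, o, i, z], [o, i, z, i, o, z, i, z, o, i, z, i]] [[], [i], [i, z],
  [i, z, o], [i, z, o, z], [i, z, o, z, i], [i, z, o, z, i, o], [i, z, o, z, i, o, z], [i, z, o,
  z, i, o, z, o], [i, z, o, z, i, o, z, o, i], [i, z, o, z, i, o, z, o, i, z], [i, z, o, z, i, o,
  z, o, i, z, o], [i, z, o, z, i, o, z, o, i, z, o, z], [i, z, o, z, i, o, z, o, i, o]] [[]]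

/-- connecting words for a context -/
def gd12 : List (W3 × W3 × List W3) :=
  [([i], [z, o, i, z, i, o, i, z, o, i, o, z, i, o, i, z, i, o, z, o, i, z, o, z, i, o, z, o, i,
  o, z], [[], [z, o, i, z, i, o, z, o, i, z, o, z, i, o], [i, z, o, i, z, i, o, z, i, z, o, z, i,
  o], [i, z, o, i, o, z, i, o, i, z, o, z, i, o], [], [i, z, o, i, z, i, o, z, i, z, o, z, i, o],
  [i, z, o, i, o, z, i, o, i, z, o, z, i, o], [o, i, z, o, i, o, z, o, i, z, o, z, i, o], []]),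
  ([o, i, z, o], [z, i, o, z, o, i, o, z, i, z, o, z, i, o, i, z, i, o, z, i, z, o, i, o, z, o,
  i, z], [[], [z, o, i, o, z, o, i, z, i, o, i, z, o, z, i, o, i], [i, z, o, i, z, i, o, z, o, i,
  z, o, z, i, z, o, i], [z, o, i, z, o, z, i, o, z, o, i, o, z, i, z, o, i], [], [i, z, o, i, z,
  i, o, z, o, i, z, o, z, i, z, o, i], [z, o, i, z, o, z, i, o, z, o, i, o, z, i, z, o, i], [z,
  o, i, o, z, o, i, z, i, o, i, z, o, z, i, o, i], []]), ([o, i, z, i, o, i], [z, o, i, o, z, i,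
  z, o, i, z, i, o, z, o, i, z, o, z, i, o, i, z, o, i, o, z], [[], [o, i, z, o, i, o, z, o, i,
  z, i, o, z, i, z, o, z, i, o], [o, i, z, i, o, i, z, o, i, o, z, i, o, i, z, o, z, i, o], [z,
  o, i, z, o, z, i, z, o, i, o, z, o, i, z, o, z, i, o], [], [i, z, o, z, i, o, z, o, i, o, z, i,
  o, i, z, o, z, i, o], [i, z, o, z, i, o, z, o, i, z, i, o, z, i, z, o, z, i, o], [z, o, i, o,
  z, i, o, i, z, i, o, z, o, i, z, o, z, i, o], []]), ([o, i, z, i, o, z, o], [i, o, z, i, z, o,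
  i, o, z, o, i, z, o, z, i, o, i, z, o, i, o, z, o, i, z], [[], [z, o, i, o, z, i, z, o, z, i,
  o, z, o, i, o, z, i, o, i, z], [o, i, z, o, z, i, z, o, i, z, i, o, i, z, o, z, i, o, i, z],
  [z, o, i, o, z, i, o, i, z, o, z, i, z, o, i, o, z, o, i, z], [], [o, i, z, i, o, z, o, i, o,
  z, i, z, o, z, i, o, z, o, i, z], [i, z, o, z, i, o, i, z, i, o, z, o, i, o, z, i, z, o, i, z],
  [o, i, z, i, o, z, o, i, z, i, o, i, z, o, i, o, z, o, i, z], []]), ([o, i, z, i, o, z, i, z,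
  o, z], [i, o, z, o, i, z, i, o, i, z, o, z, i, o, i, z, i, o, z, o, i, z], [[], [z, o, i, o, z,
  i, z, o, z, i, o, i, z, i, o, z, o, i, o, z, i, z, o], [o, i, z, o, z, i, o, z, o, i, o, z, i,
  z, o, i, z, i, o, z, i, z, o], [z, o, i, o, z, i, o, i, z, o, z, i, o, z, o, i, z, i, o, z, i,
  z, o], [], [o, i, z, o, z, i, o, i, z, o, i, o, z, i, o, i, z, i, o, z, i, z, o], [i, z, o, z,
  i, z, o, i, o, z, i, z, o, z, i, o, i, z, o, z, i, z, o], [o, i, z, i, o, z, o, i, z, o, z, i,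
  o, z, o, i, z, i, o, z, i, z, o], []]), ([o, i, z, i, o, z, i, z, o, i, o], [z, o, i, z, i, o,
  i, z, o, z, i, o, i, z, i, o, z, o, i, o, z], [[], [z, o, i, o, z, i, z, o, z, i, o, z, o, i,
  z, i, o, i, z, o, i, o, z, i], [o, i, z, o, z, i, o, z, o, i, o, z, i, z, o, i, o, z, o, i, z,
  o, z, i], [i, z, o, i, o, z, i, z, o, z, i, o, i, z, o, i, o, z, o, i, z, o, z, i], [], [o, i,
  z, i, o, z, o, i, o, z, i, o, i, z, o, z, i, o, z, o, i, o, z, i], [i, z, o, i, o, z, o, i, z,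
  o, z, i, o, i, z, i, o, z, o, i, z, o, z, i], [z, o, i, z, i, o, z, i, z, o, i, o, z, o, i, z,
  i, o, z, o, i, o, z, i], []]), ([o], [i, z, o, z, i, o, i, z, o, i, o, z, i, z, o, i, z, i, o,
  z, i, z, o, z, i, o, z, o, i, o, z], [[], [o, i, z, o, i, o, z, i, o, i, z, i, o, z], [o, i, z,
  o, z, i, o, z, o, i, z, i, o, z], [z, o, i, z, o, z, i, z, o, i, z, i, o, z], [], [o, i, z, o,
  z, i, o, z, o, i, z, i, o, z], [z, o, i, z, o, z, i, z, o, i, z, i, o, z], [o, i, z, o, i, o,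
  z, i, o, i, z, i, o, z], []]), ([i, z, o, i], [z, i, o, i, z, o, i, o, z, o, i, z, o, z, i, o,
  z, o, i, z, i, o, i, z, o, i, o, z], [[], [o, i, z, o, i, o, z, i, o, i, z, i, o, z, i, z, o],
  [o, i, z, o, z, i, o, z, o, i, z, i, o, z, i, z, o], [z, o, i, z, o, z, i, z, o, i, z, i, o, z,
  i, z, o], [], [o, i, z, o, z, i, o, z, o, i, z, i, o, z, i, z, o], [z, o, i, z, o, z, i, z, o,
  i, z, i, o, z, i, z, o], [o, i, z, o, i, o, z, i, o, i, z, i, o, z, i, z, o], []]), ([i, z, o,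
  z, i, o, i], [z, i, o, z, o, i, o, z, i, o, i, z, i, o, z, i, z, o, z, i, o, z, o, i, z], [[],
  [o, i, z, i, o, z, i, z, o, i, o, z, o, i, z, i, o, i, z, o], [o, i, z, o, z, i, o, i, z, i, o,
  z, o, i, z, i, o, i, z, o], [i, z, o, z, i, o, i, z, i, o, z, o, i, o, z, i, o, i, z, o], [],
  [i, z, o, z, i, o, i, z, i, o, z, o, i, o, z, i, o, i, z, o], [i, z, o, z, i, o, i, z, i, o, z,
  o, i, o, z, i, o, i, z, o], [o, i, z, o, i, o, z, o, i, z, i, o, z, o, i, o, z, i, z, o], []]),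
  ([i, z, o, z, i, o, z, o, i, z, i], [o, i, z, o, z, i, o, i, z, i, o, z, o, i, o, z, i, z, o,
  i, z], [[], [o, i, z, i, o, z, i, z, o, z, i, o, z, o, i, o, z, i, o, i, z, i, o, z], [o, i, z,
  o, z, i, o, i, z, i, o, z, i, z, o, z, i, o, i, z, o, i, o, z], [z, o, i, o, z, i, z, o, z, i,
  o, i, z, o, i, o, z, i, o, i, z, i, o, z], [], [i, z, o, i, z, i, o, z, i, z, o, z, i, o, i, z,
  o, z, i, z, o, i, o, z], [i, z, o, i, o, z, i, z, o, i, z, i, o, z, o, i, o, z, i, z, o, i, o,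
  z], [z, o, i, z, i, o, i, z, o, i, o, z, i, o, i, z, o, z, i, z, o, i, o, z], []]), ([i, z, o,
  z, i, o, z, o, i, o, z], [i, z, o, i, o, z, o, i, z, o, z, i, z, o, i, o, z, i, z, o, z], [[],
  [z, o, i, z, i, o, i, z, o, z, i, o, z, o, i, o, z, i, z, o, i, z, i, o], [i, z, o, i, z, i, o,
  z, i, z, o, z, i, o, i, z, i, o, z, o, i, z, i, o], [i, z, o, z, i, o, i, z, i, o, z, i, z, o,
  i, o, z, o, i, z, o, z, i, o], [], [o, i, z, o, z, i, o, i, z, i, o, z, i, z, o, z, i, o, z, o,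
  i, z, i, o], [z, o, i, o, z, i, z, o, i, z, i, o, i, z, o, i, o, z, i, z, o, z, i, o], [z, o,
  i, o, z, i, o, i, z, i, o, z, o, i, z, o, z, i, z, o, i, z, i, o], []])]

/-- inner words for a context -/
def in20 (a : Fin 3) : List W3 :=
  sel a [[], [z]] [[], [i], [i, z], [i, z, o], [i, z, o, z], [i, z, o, z, i], [i, z, o, z, i, o],
  [i, z, o, z, i, o, z], [i, z, o, z, i, o, z, o], [i, z, o, z, i, o, z, o, i], [i, z, o, z, i,
  o, z, o, i, z], [i, z, o, z, i, o, z, o, i, z, o], [i, z, o, z, i, o, z, o, i, z, o, z], [z],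
  [i, z, o, z, i, z], [i, z, o, z, i, o, z, o, i, o]] [[], [z], [z, o], [z, o, i], [z, o, i, o],
  [z, o, i, o, z], [z, o, i, o, z, i], [z, o, i, o, z, i, o], [z, o, i, o, z, i, o, i], [z, o, i,
  o, z, i, o, i, z], [z, o, i, o, z, i, o, i, z, o], [z, o, i, o, z, i, o, i, z, o, i], [z, o, i,
  o, z, i, o, i, z, o, i, o]]

/-- connecting words for a context -/
def gd20 : List (W3 × W3 × List W3) :=
  [([i], [z, o, i, o, z, i, z, o, z, i, o, i, z, o, z, i, z, o, i, o, z, o, i, z, i, o, z, i, z,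
  o, z], [[], [o, i, z, o, i, o, z, o, i, z, o, z, i, o], [i, z, o, i, z, i, o, z, i, z, o, z, i,
  o], [i, z, o, i, o, z, i, o, i, z, o, z, i, o], [], [i, z, o, i, z, i, o, z, i, z, o, z, i, o],
  [i, z, o, i, o, z, i, o, i, z, o, z, i, o], [z, o, i, z, i, o, z, o, i, z, o, z, i, o], []]),
  ([z, o], [i, o, z, i, z, o, i, o, z, o, i, z, i, o, z, o, i, o, z, i, z, o, z, i, o, z, o, i,
  o, z], [[], [z, o, i, z, i, o, z, i, z, o, z, i, o, i, z], [o, i, z, o, z, i, z, o, i, o, z, i,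
  o, i, z], [i, z, o, z, i, o, z, o, i, o, z, i, o, i, z], [], [o, i, z, o, z, i, z, o, i, o, z,
  i, o, i, z], [z, o, i, o, z, i, z, o, z, i, o, z, o, i, z], [o, i, z, o, i, o, z, i, z, o, z,
  i, o, i, z], []]), ([i, z, o, i], [o, z, i, z, o, i, z, i, o, z, o, i, z, o, z, i, o, i, z, o,
  i, o, z, i, z, o, i, z], [[], [o, i, z, o, i, o, z, i, o, i, z, i, o, z, o, i, z], [i, z, o, i,
  z, i, o, z, i, z, o, i, o, z, o, i, z], [z, o, i, z, o, z, i, o, i, z, o, i, o, z, o, i, z],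
  [], [i, z, o, i, z, i, o, z, i, z, o, i, o, z, o, i, z], [z, o, i, z, o, z, i, o, i, z, o, i,
  o, z, o, i, z], [o, i, z, o, i, o, z, i, o, i, z, i, o, z, o, i, z], []]), ([i, z, o, z, i, o,
  i], [z, i, o, z, o, i, z, i, o, i, z, o, i, o, z, o, i, z, i, o, z, i, z, o, z], [[], [o, i, z,
  i, o, z, o, i, z, o, z, i, z, o, i, o, z, i, z, o], [i, z, o, i, z, i, o, i, z, o, z, i, z, o,
  i, o, z, i, z, o], [i, z, o, z, i, o, i, z, i, o, z, o, i, o, z, i, o, i, z, o], [], [o, i, z,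
  i, o, i, z, o, z, i, o, i, z, i, o, z, o, i, z, o], [i, z, o, i, o, z, o, i, z, o, z, i, z, o,
  i, o, z, i, z, o], [z, o, i, o, z, i, z, o, z, i, o, i, z, i, o, z, o, i, z, o], []]), ([i, z,
  o, z, i, o, z, o, i, z, i], [o, z, i, z, o, i, o, z, o, i, z, o, z, i, o, i, z, o, i, o, z],
  [[], [o, i, z, o, i, o, z, i, z, o, i, z, i, o, i, z, o, i, o, z, i, o, i, z], [i, z, o, i, z,
  i, o, z, i, z, o, z, i, o, i, z, o, i, o, z, i, o, i, z], [z, o, i, z, o, z, i, o, z, o, i, o,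
  z, i, z, o, i, z, i, o, z, o, i, z], [], [o, i, z, i, o, z, i, z, o, z, i, o, i, z, i, o, z, o,
  i, z, i, o, i, z], [z, o, i, o, z, i, z, o, z, i, o, i, z, i, o, z, o, i, o, z, i, o, i, z],
  [o, i, z, o, i, o, z, i, o, i, z, o, z, i, o, z, o, i, o, z, i, o, i, z], []]), ([i, z, o, z,
  i, z, o], [i, o, z, o, i, z, i, o, z, i, z, o, z, i, o, z, o, i, o, z, i, z, o, i, z], [[], [z,
  o, i, o, z, o, i, z, i, o, i, z, o, i, o, z, i, z, o, z], [i, z, o, z, i, o, i, z, i, o, z, o,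
  i, z, i, o, i, z, o, z], [z, o, i, z, o, z, i, o, i, z, o, i, o, z, i, o, i, z, o, z], [], [o,
  i, z, o, z, i, z, o, i, o, z, o, i, z, i, o, i, z, o, z], [i, z, o, z, i, o, i, z, i, o, z, o,
  i, z, i, o, i, z, o, z], [o, i, z, o, i, o, z, i, z, o, i, z, i, o, z, o, i, z, o, z], []]),
  ([i, z, o, z, i, o, z, o, i, o, z], [i, z, o, i, o, z, o, i, z, o, z, i, o, i, z, i, o, z, o,
  i, z], [[], [o, i, z, i, o, z, i, z, o, i, o, z, o, i, z, i, o, z, i, z, o, z, i, o], [i, z, o,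
  z, i, o, i, z, o, i, o, z, i, o, i, z, i, o, z, o, i, z, i, o], [i, z, o, z, i, o, i, z, i, o,
  z, o, i, z, o, z, i, o, z, o, i, z, i, o], [], [i, z, o, z, i, o, i, z, i, o, z, o, i, z, o, z,
  i, o, z, o, i, z, i, o], [z, o, i, z, o, z, i, z, o, i, z, i, o, z, o, i, o, z, i, z, o, z, i,
  o], [o, i, z, o, i, o, z, o, i, z, o, z, i, z, o, i, o, z, i, z, o, z, i, o], []]), ([z, o, i,
  z], [o, z, i, z, o, i, z, i, o, z, i, z, o, i, o, z, o, i, z, o, z, i, o, z, o, i, o, z], [[],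
  [z, o, i, z, i, o, z, i, z, o, z, i, o, i, z, o, i], [i, z, o, i, z, i, o, z, i, z, o, z, i, o,
  z, o, i], [z, o, i, z, o, z, i, z, o, i, z, i, o, i, z, o, i], [], [i, z, o, i, z, i, o, z, i,
  z, o, z, i, o, z, o, i], [z, o, i, z, o, z, i, z, o, i, z, i, o, i, z, o, i], [o, i, z, o, i,
  o, z, o, i, z, o, z, i, o, z, o, i], []]), ([z, o, i, o, z, i, z], [o, z, i, o, i, z, i, o, z,
  i, z, o, z, i, o, z, o, i, o, z, i, z, o, i, z], [[], [o, i, z, o, i, o, z, o, i, z, i, o, i,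
  z, o, z, i, z, o, i], [o, i, z, i, o, z, i, z, o, z, i, o, i, z, o, z, i, z, o, i], [z, o, i,
  o, z, i, z, o, i, z, i, o, i, z, o, z, i, z, o, i], [], [o, i, z, i, o, i, z, o, i, o, z, i, z,
  o, z, i, o, z, o, i], [i, z, o, z, i, z, o, i, o, z, i, z, o, z, i, o, i, z, o, i], [o, i, z,
  i, o, z, o, i, o, z, i, z, o, z, i, o, i, z, o, i], []]), ([z, o, i, o, z, i, o, i, z, i], [o,
  z, i, z, o, i, o, z, o, i, z, i, o, z, o, i, o, z, i, z, o, z], [[], [o, i, z, o, i, o, z, o,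
  i, z, o, z, i, o, z, o, i, o, z, i, o, i, z], [o, i, z, i, o, z, o, i, o, z, i, z, o, i, o, z,
  o, i, z, i, o, i, z], [i, z, o, i, o, z, o, i, z, o, z, i, o, i, z, o, i, o, z, i, o, i, z],
  [], [i, z, o, z, i, o, i, z, i, o, z, o, i, o, z, i, z, o, z, i, o, i, z], [z, o, i, o, z, i,
  z, o, z, i, o, i, z, i, o, z, o, i, z, i, o, i, z], [o, i, z, i, o, z, o, i, o, z, i, z, o, i,
  o, z, o, i, z, i, o, i, z], []]), ([z, o, i, o, z, i, o, i, z, o, z], [i, z, o, i, o, z, i, z,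
  o, z, i, o, i, z, i, o, z, o, i, o, z], [[], [o, i, z, i, o, z, o, i, z, o, z, i, z, o, i, o,
  z, o, i, z, o, z, i, o], [o, i, z, o, z, i, z, o, i, o, z, i, o, i, z, i, o, z, i, z, o, z, i,
  o], [z, o, i, o, z, i, o, i, z, i, o, z, i, z, o, z, i, o, z, o, i, z, i, o], [], [o, i, z, o,
  z, i, z, o, i, o, z, i, o, i, z, i, o, z, i, z, o, z, i, o], [i, z, o, z, i, o, z, o, i, z, i,
  o, z, i, z, o, i, o, z, o, i, z, i, o], [o, i, z, i, o, z, i, z, o, z, i, o, z, o, i, o, z, i,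
  z, o, i, z, i, o], []])]

/-- inner words for a context -/
def in21 (a : Fin 3) : List W3 :=
  sel a [[], [o], [o, i], [o, i, z], [o, i, z, i], [o, i, z, i, o], [o, i, z, i, o, z], [o, i, z,
  i, o, z, i], [o, i, z, i, o, z, i, z], [o, i, z, i, o, z, i, z, o], [o, i, z, i, o, z, i, z, o,
  i], [o, i, z, i, o, z, i, z, o, i, z], [o, i, z, i, o, z, i, z, o, i, z, i], [z], [o, z]] [[],
  [z]] [[], [z], [z, o], [z, o, i], [z, o, i, o], [z, o, i, o, z], [z, o, i, o, z, i], [z, o, i,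
  o, z, i, o], [z, o, i, o, z, i, o, i], [z, o, i, o, z, i, o, i, z], [z, o, i, o, z, i, o, i, z,
  o], [z, o, i, o, z, i, o, i, z, o, i], [z, o, i, o, z, i, o, i, z, o, i, o]]

/-- connecting words for a context -/
def gd21 : List (W3 × W3 × List W3) :=
  [([o, i, z, o], [i, o, z, o, i, z, i, o, z, i, z, o, z, i, o, i, z, i, o, z, o, i, o, z, i, z,
  o, z], [[], [z, o, i, z, i, o, i, z, o, i, o, z, o, i, z, o, z], [o, i, z, i, o, z, i, z, o, i,
  o, z, o, i, z, o, z], [z, o, i, o, z, i, o, i, z, i, o, z, o, i, z, o, z], [], [i, z, o, i, z,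
  i, o, i, z, o, i, o, z, i, z, o, z], [z, o, i, o, z, i, o, i, z, i, o, z, o, i, z, o, z], [z,
  o, i, o, z, i, o, i, z, i, o, z, o, i, z, o, z], []]), ([o, i, z, i, o, z, o], [i, z, o, z, i,
  o, z, o, i, z, i, o, z, i, z, o, z, i, o, i, z, o, i, o, z], [[], [o, i, z, o, i, o, z, i, z,
  o, i, z, i, o, i, z, o, i, o, z], [i, z, o, i, z, i, o, z, o, i, z, o, z, i, o, z, o, i, o, z],
  [z, o, i, z, o, z, i, o, z, o, i, o, z, i, o, i, z, i, o, z], [], [o, i, z, i, o, i, z, o, z,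
  i, o, i, z, i, o, z, o, i, o, z], [z, o, i, z, o, z, i, o, z, o, i, o, z, i, o, i, z, i, o, z],
  [z, o, i, o, z, o, i, z, i, o, i, z, o, z, i, z, o, i, o, z], []]), ([o, i, z, i, o, z, i, z,
  o, z], [i, o, z, o, i, z, i, o, i, z, o, z, i, z, o, i, o, z, i, z, o, z], [[], [o, i, z, i, o,
  z, o, i, z, o, z, i, o, z, o, i, z, i, o, z, i, z, o], [o, i, z, o, z, i, o, i, z, o, i, o, z,
  i, o, i, z, i, o, z, i, z, o], [i, z, o, z, i, z, o, i, o, z, o, i, z, i, o, z, o, i, o, z, i,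
  z, o], [], [i, z, o, i, z, i, o, z, o, i, z, o, z, i, z, o, i, z, i, o, i, z, o], [z, o, i, z,
  o, z, i, o, z, o, i, o, z, i, o, i, z, i, o, z, i, z, o], [o, i, z, i, o, z, o, i, o, z, i, z,
  o, z, i, o, i, z, o, z, i, z, o], []]), ([o, i, z, i, o, z, i, z, o, i, o], [z, o, i, z, i, o,
  i, z, o, z, i, o, z, o, i, o, z, i, z, o, z], [[], [o, i, z, i, o, z, o, i, o, z, i, o, i, z,
  o, z, i, o, z, o, i, o, z, i], [o, i, z, o, z, i, z, o, i, o, z, i, o, i, z, i, o, z, o, i, z,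
  o, z, i], [i, z, o, z, i, o, i, z, i, o, z, i, z, o, z, i, o, i, z, o, i, o, z, i], [], [i, z,
  o, z, i, o, z, o, i, z, i, o, i, z, o, i, o, z, o, i, z, o, z, i], [i, z, o, z, i, o, z, o, i,
  o, z, i, o, i, z, i, o, z, o, i, z, o, z, i], [o, i, z, i, o, z, o, i, o, z, i, z, o, i, z, i,
  o, z, o, i, z, o, z, i], []]), ([z, o], [i, o, z, i, z, o, z, i, o, z, o, i, o, z, i, z, o, i,
  z, i, o, z, o, i, o, z, i, z, o, z], [[], [z, o, i, z, i, o, i, z, o, i, o, z, o, i, z], [i, z,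
  o, i, z, i, o, i, z, o, z, i, o, i, z], [i, z, o, z, i, o, z, o, i, o, z, i, o, i, z], [], [i,
  z, o, z, i, o, z, o, i, o, z, i, o, i, z], [z, o, i, z, o, z, i, z, o, i, o, z, o, i, z], [z,
  o, i, o, z, i, z, o, z, i, o, z, o, i, z], []]), ([o], [i, z, o, i, o, z, o, i, z, o, z, i, z,
  o, i, z, i, o, z, o, i, z, o, z, i, o, z, o, i, o, z], [[], [o, i, z, o, i, o, z, i, o, i, z,
  i, o, z], [o, i, z, o, z, i, o, z, o, i, z, i, o, z], [i, z, o, i, o, z, i, z, o, i, z, i, o,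
  z], [], [o, i, z, o, z, i, o, z, o, i, z, i, o, z], [i, z, o, i, o, z, i, z, o, i, z, i, o, z],
  [o, i, z, o, i, o, z, i, o, i, z, i, o, z], []]), ([z, o, i, z], [i, o, z, o, i, z, o, z, i, o,
  z, o, i, z, i, o, z, i, z, o, z, i, o, z, o, i, o, z], [[], [o, i, z, o, i, o, z, i, o, i, z,
  i, o, z, i, z, o], [i, z, o, i, z, i, o, z, i, z, o, z, i, o, i, z, o], [z, o, i, z, o, z, i,
  o, z, o, i, z, i, o, i, z, o], [], [i, z, o, i, z, i, o, z, i, z, o, z, i, o, i, z, o], [i, z,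
  o, i, o, z, i, z, o, i, z, i, o, z, i, z, o], [o, i, z, o, i, o, z, i, o, i, z, i, o, z, i, z,
  o], []]), ([z, o, i, o, z, o], [i, z, o, z, i, o, z, o, i, o, z, i, z, o, z, i, o, i, z, o, i,
  o, z, o, i, z], [[], [o, i, z, o, i, o, z, o, i, z, o, z, i, o, i, z, i, o, z], [i, z, o, i, z,
  i, o, i, z, o, i, o, z, o, i, z, i, o, z], [z, o, i, z, o, z, i, z, o, i, o, z, i, o, i, z, i,
  o, z], [], [o, i, z, o, z, i, o, z, o, i, o, z, i, o, i, z, i, o, z], [i, z, o, z, i, o, z, o,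
  i, o, z, i, z, o, i, z, i, o, z], [z, o, i, z, i, o, i, z, o, i, o, z, i, o, i, z, i, o, z],
  []]), ([z, o, i, o, z, i, z], [o, z, i, o, i, z, i, o, z, o, i, z, o, z, i, o, i, z, i, o, z,
  i, z, o, z], [[], [z, o, i, z, i, o, z, o, i, o, z, i, z, o, z, i, o, z, o, i], [i, z, o, z, i,
  o, z, o, i, z, i, o, i, z, o, z, i, z, o, i], [i, z, o, i, o, z, i, z, o, z, i, o, i, z, o, z,
  i, z, o, i], [], [o, i, z, i, o, i, z, o, i, o, z, i, z, o, z, i, o, z, o, i], [z, o, i, o, z,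
  i, z, o, i, z, i, o, i, z, o, z, i, z, o, i], [z, o, i, o, z, o, i, z, i, o, z, i, z, o, z, i,
  o, z, o, i], []]), ([z, o, i, o, z, i, o, i, z, i], [o, z, i, z, o, i, o, z, o, i, z, i, o, z,
  o, i, o, z, i, z, o, z], [[], [o, i, z, i, o, z, o, i, o, z, i, z, o, i, o, z, o, i, z, i, o,
  i, z], [o, i, z, i, o, i, z, o, z, i, o, i, z, i, o, z, o, i, z, i, o, i, z], [z, o, i, o, z,
  i, z, o, z, i, o, i, z, i, o, z, o, i, z, i, o, i, z], [], [i, z, o, z, i, o, i, z, i, o, z, o,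
  i, o, z, i, z, o, z, i, o, i, z], [z, o, i, z, o, z, i, z, o, i, z, i, o, i, z, o, i, o, z, i,
  o, i, z], [o, i, z, i, o, z, o, i, o, z, i, z, o, i, o, z, o, i, z, i, o, i, z], []]), ([z, o,
  i, o, z, i, o, i, z, o, z], [i, o, z, o, i, z, i, o, z, i, z, o, z, i, o, i, z, o, i, o, z],
  [[], [z, o, i, z, i, o, z, o, i, o, z, i, z, o, z, i, o, i, z, o, z, i, z, o], [o, i, z, i, o,
  z, i, z, o, z, i, o, i, z, i, o, z, o, i, o, z, i, z, o], [i, z, o, z, i, z, o, i, o, z, i, o,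
  i, z, i, o, z, o, i, o, z, i, z, o], [], [i, z, o, z, i, o, i, z, o, i, o, z, o, i, z, i, o, i,
  z, o, z, i, z, o], [i, z, o, z, i, z, o, i, o, z, i, z, o, z, i, o, z, o, i, o, z, i, z, o],
  [z, o, i, z, i, o, i, z, o, i, o, z, o, i, z, i, o, i, z, o, z, i, z, o], []])]

/-- inner words -/
def inn (c' c a : Fin 3) : List W3 :=
  sel c' (sel c [] (in01 a) (in02 a)) (sel c (in10 a) [] (in12 a)) (sel c (in20 a) (in21 a) [])

/-- connecting words -/
def gad (c' c : Fin 3) : List (W3 × W3 × List W3) :=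
  sel c' (sel c [] gd01 gd02) (sel c gd10 [] gd12) (sel c gd20 gd21 [])

/-- lookup -/
def lk (v : W3) : List (W3 × W3 × List W3) → W3 × List W3
  | [] => ([], [])
  | x :: l => cond (eqw v x.1) x.2 (lk v l)

/-- check of a pair of connectors -/
noncomputable def pairOK (c' c : Fin 3) (p : W3) (b : Fin 3) (g : W3) (Ls : List W3) : Bool :=
  Nat.beq (p.length + 1 + g.length) 32 && tailOK c' c true (p ++ [b] ++ g ++ (m1 ++ m2)) &&
    all3 fun e' => all3 fun e => eqb e' e ||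
      (Nat.beq (Ls.getD (3 * e'.val + e.val) []).length (p.length + 14) &&
        !(pre [b] ((Ls.getD (3 * e'.val + e.val) []).drop (p.length + 13))) &&
        tailOK e' e true (Ls.getD (3 * e'.val + e.val) [] ++ g ++ (m1 ++ m2)))

/-- check of a node -/
noncomputable def nodeOK (c' c : Fin 3) (p : W3) (b : Fin 3) : Bool :=
  pairOK c' c p b (lk (p ++ [b]) (gad c' c)).1 (lk (p ++ [b]) (gad c' c)).2

/-- check of the inner words -/
noncomputable def inOK (c' c a : Fin 3) : Bool :=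
  memw [] (inn c' c a) && Nat.ble (inn c' c a).length 17 && !(memw (hl a) (inn c' c a)) &&
    (eqb a c || (List.range 13).all fun k => memw ((hl a).take k) (inn c' c a)) &&
    (inn c' c a).all fun p => Nat.ble p.length 12 && memw p.dropLast (inn c' c a) &&
      tailOK c' c false p && all3 fun b => memw (p ++ [b]) (inn c' c a) ||
        eqw (p ++ [b]) (hl a) || hasSq (hl c' ++ hl c ++ (p ++ [b])) || nodeOK c' c p b

theorem headOK_true : (all3 fun c => all3 fun e => eqb c e || all3 fun e' => eqb e e' ||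
    headOK c e e' (rho c e)) = true := by decide +kernel

theorem node0 : nodeOK o i [] o = true := by decide +kernel

end Pool.Agent.MP_4bd596_co.Low
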