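import Pool.Agent.MP_4bd596_co.LowInst
import Pool.Agent.MP_4bd596_co.Defs

/-! Words of every s-index and exponential length, over every alphabet with at least three
letters. -/

set_option autoImplicit false

namespace Pool.Agent.MP_4bd596_co

namespace Low

variable {A : Type}

theorem exact_index {w y : List A} {n B : ℕ} (hn : 1 ≤ n) (hy : n - 1 ≤ y.length)
    (h1 : NoSq (w ++ y)) (h2 : ∀ r, NoSq (w ++ r) → r.length ≤ B) :
    ∃ v : List A, v.length ≤ B ∧ NoSq (w ++ v) ∧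
      (∃ y : List A, y.length = n - 1 ∧ NoSq (w ++ v ++ y)) ∧
      ∀ x : List A, n ≤ x.length → ¬ NoSq (w ++ v ++ x) := by
  classical
  have hP : ∃ r : List A, r.length = Nat.findGreatest
      (fun l => ∃ r : List A, r.length = l ∧ NoSq (w ++ r)) B ∧ NoSq (w ++ r) :=
    Nat.findGreatest_spec (P := fun l => ∃ r : List A, r.length = l ∧ NoSq (w ++ r))
      (h2 y h1) ⟨y, rfl, h1⟩
  have hM : ∀ r : List A, NoSq (w ++ r) → r.length ≤ Nat.findGreatest
      (fun l => ∃ r : List A, r.length = l ∧ NoSq (w ++ r)) B := fun r hr =>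
    Nat.le_findGreatest (h2 r hr) ⟨r, rfl, hr⟩
  obtain ⟨r, r1, r2⟩ := hP
  rw [← r1] at hM
  have l1 := hM y h1
  have l2 := h2 r r2
  have e : w ++ r.take (r.length - (n - 1)) ++ r.drop (r.length - (n - 1)) = w ++ r := by
    rw [List.append_assoc, List.take_append_drop]
  refine ⟨r.take (r.length - (n - 1)), by simp; omega, r2.of_occ (e ▸ occ_left _ _),
    ⟨r.drop (r.length - (n - 1)), by simp; omega, e ▸ r2⟩, fun x hx h => ?_⟩
  rw [List.append_assoc] at h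
  have := hM _ h
  simp at this
  omega

theorem lower_gen [Fintype A] {e : Fin 3 → A} (he : Function.Injective e) :
    ∃ C : ℕ, ∀ n, 1 ≤ n → ∃ w : List A, w ≠ [] ∧ w.length ≤ C ^ n ∧ NoSq w ∧
      (∃ y : List A, y.length = n - 1 ∧ NoSq (w ++ y)) ∧
      ∀ x : List A, n ≤ x.length → ¬ NoSq (w ++ x) := by
  generalize hk : Fintype.card A = k
  have k3 : 3 ≤ k := by
    rw [← hk]; simpa using Fintype.card_le_of_injective e he
  refine ⟨2 ^ (10000 * k), fun n hn => ?_⟩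
  obtain ⟨w, y, w0, y1, h1, h2, h3⟩ := build he n
  obtain ⟨v, v1, v2, v3, v4⟩ := exact_index hn (by omega) h1 h2
  refine ⟨w ++ v, by simp [w0], ?_, v2, v3, v4⟩
  rw [hk] at h3
  obtain ⟨q, hq⟩ : ∃ q, q = k * n := ⟨_, rfl⟩
  have q1 : 3 * n ≤ q := hq ▸ Nat.mul_le_mul_right _ k3
  have q2 : k ≤ q := hq ▸ Nat.le_mul_of_pos_right _ hn
  have q3 : (n + 1) * (17 * k) = 17 * q + 17 * k := by rw [hq]; ring
  rw [q3] at h3
  have p1 : 2 ^ (17 * q + 17 * k) ≤ 2 ^ (34 * q) := Nat.pow_le_pow_right two_pos (by omega)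
  have p2 : 1 ≤ 2 ^ (34 * q) := Nat.one_le_two_pow
  have p3 : 9966 * q < 2 ^ (9966 * q) := Nat.lt_two_pow_self
  have p4 : 2 ^ (17 * q + 17 * k) * (5 * (11 + 13 * (4 * (17 * q + 17 * k) + n + 20))) ≤
      2 ^ (34 * q) * (9500 * q) := Nat.mul_le_mul p1 (by omega)
  have p5 : 1 * (466 * q) ≤ 2 ^ (34 * q) * (466 * q) := Nat.mul_le_mul_right _ p2
  have p6 : 2 ^ (34 * q) * (9966 * q) ≤ 2 ^ (34 * q) * 2 ^ (9966 * q) :=
    Nat.mul_le_mul_left _ p3.le
  rw [← pow_mul, show 10000 * k * n = 34 * q + 9966 * q by rw [hq]; ring, pow_add,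
    List.length_append]
  have p7 : 2 ^ (34 * q) * (9966 * q) = 2 ^ (34 * q) * (9500 * q) + 2 ^ (34 * q) * (466 * q) := by
    ring
  omega

end Low

/-- ternary words of every s-index, of exponential length -/
theorem lower : ∃ C : ℕ, ∀ n, 1 ≤ n → ∃ w : List (Fin 3), SIndex w n ∧ w.length ≤ C ^ n := by
  obtain ⟨C, h⟩ := Low.lower_gen (e := (id : Fin 3 → Fin 3)) Function.injective_id
  refine ⟨C, fun n hn => ?_⟩
  obtain ⟨w, h0, h1, h2, ⟨y, h3, h4⟩, h5⟩ := h n hn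
  exact ⟨w, ⟨hn, h0, Low.noSq_iff.1 h2, ⟨y, h3, Low.noSq_iff.1 h4⟩,
    fun x hx c => h5 x hx (Low.noSq_iff.2 c)⟩, h1⟩

end Pool.Agent.MP_4bd596_co
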