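import Pool.Agent.MP_4bd596_co.Code

/-! The potential. -/

set_option autoImplicit false

noncomputable section

namespace Pool.Agent.MP_4bd596_co

open Finset

variable (T : Tr)

/-- weight of the state of a word -/
def cc (u : List (Fin 3)) : ℝ := (ent T (enc (u.take 26)) % 10001 : ℕ)

/-- threat of the period p -/
def gg (p : ℕ) (u : List (Fin 3)) : ℝ :=
  if 26 - p ≤ km p u then (7 / 9 : ℝ) ^ (p - km p u) *
    cc T ((u.drop (km p u)).take p ++ (u.drop (km p u)).take p) else 0

/-- squarefree with positive potential -/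
def Good (u : List (Fin 3)) : Prop :=
  SF u ∧ ∑ p ∈ Icc 14 u.length, gg T p u < cc T u

/-- threats that go on with the letter a -/
def ct (a : Fin 3) (u : List (Fin 3)) : ℝ :=
  ∑ p ∈ Icc 14 u.length, if u[p - 1]? = some a then 9 / 7 * gg T p u else 0

theorem cc_nonneg (u : List (Fin 3)) : 0 ≤ cc T u := Nat.cast_nonneg _

theorem cc_le (u : List (Fin 3)) : cc T u ≤ 10000 := by
  have := Nat.mod_lt (ent T (enc (u.take 26))) (show 10001 > 0 by norm_num)
  rw [cc]
  exact_mod_cast Nat.lt_succ_iff.1 this

theorem gg_nonneg (p : ℕ) (u : List (Fin 3)) : 0 ≤ gg T p u := by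
  have := cc_nonneg T ((u.drop (km p u)).take p ++ (u.drop (km p u)).take p)
  rw [gg]
  split_ifs <;> positivity

theorem ct_nonneg (a : Fin 3) (u : List (Fin 3)) : 0 ≤ ct T a u :=
  sum_nonneg fun p _ => by
    have := gg_nonneg T p u
    split_ifs <;> positivity

theorem not_good {u : List (Fin 3)} (h : SF u) {a : Fin 3}
    (hs : sq (enc ((a :: u).take 26)) = false) (hg : ¬Good T (a :: u)) :
    cc T (a :: u) ≤ ∑ p ∈ Icc 14 (a :: u).length, gg T p (a :: u) := by
  by_contra hc
  refine hg ⟨h.cons fun p hp => ?_, not_le.1 hc⟩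
  by_contra hk
  rw [not_lt] at hk
  have h1 := (km_spec hp (a :: u) (p - 1) (by omega)).1
  have h2 := (km_iff hp (by omega)).1 hk
  by_cases h13 : p ≤ 13
  · have : sq (enc ((a :: u).take 26)) = true := (sq_iff _).2 ⟨p, hp, h13, by
      rw [List.take_take, List.drop_take, List.take_take, min_eq_left (by omega),
        min_eq_left (by omega), h2]⟩
    rw [hs] at this
    exact Bool.false_ne_true this
  · have h3 : km p (a :: u) = p := by
      have := h.km_lt hp
      rw [km] at hk ⊢
      split_ifs at hk ⊢ <;> omega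
    refine hc (le_trans (le_of_eq ?_) (single_le_sum (fun q _ => gg_nonneg T q (a :: u))
      (a := p) (mem_Icc.2 ⟨by omega, by omega⟩)))
    rw [gg, h3, if_pos (by omega), Nat.sub_self, pow_zero, one_mul]
    nth_rewrite 1 [← h2]
    rw [← List.take_add, cc, cc, List.take_take, min_eq_left (by omega)]

theorem gg_cons {u : List (Fin 3)} (h : SF u) (hu : 26 ≤ u.length) (a : Fin 3) {p : ℕ}
    (hp : 14 ≤ p) (hl : p ≤ u.length + 1) :
    gg T p (a :: u) ≤ (if u[p - 1]? = some a then 9 / 7 * gg T p u else 0) +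
      if p < 26 then (nw1 T (enc (u.take 26)) (enc ((a :: u).take 26)) (p - 14) : ℝ)
      else (7 / 9 : ℝ) ^ p * cc T (a :: u) := by
  have h0 : 0 ≤ if p < 26 then (nw1 T (enc (u.take 26)) (enc ((a :: u).take 26)) (p - 14) : ℝ)
      else (7 / 9 : ℝ) ^ p * cc T (a :: u) := by
    have := cc_nonneg T (a :: u)
    split_ifs <;> positivity
  have h1 := gg_nonneg T p u
  have hk := h.km_lt (p := p) (by omega)
  by_cases e : u[p - 1]? = some a
  · have k1 : km p (a :: u) = km p u + 1 := by rw [km, if_pos e]
    rw [if_pos e]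
    by_cases c1 : 26 - p ≤ km p u
    · refine le_add_of_le_of_nonneg (le_of_eq ?_) h0
      rw [gg, gg, k1, if_pos c1, if_pos (by omega), List.drop_succ_cons,
        show p - km p u = p - (km p u + 1) + 1 by omega, pow_succ]
      ring
    by_cases c2 : 26 - p ≤ km p u + 1
    · refine le_add_of_nonneg_of_le (by positivity) ?_
      obtain ⟨j, rfl⟩ : ∃ j, p = 14 + j := ⟨p - 14, by omega⟩
      have hj : j < 12 := by omega
      have hu' : 26 ≤ (a :: u).length := by rw [List.length_cons]; omega
      have p1 := (per_iff hu' hj).2 (by omega)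
      have p2 : per (enc (u.take 26)) j = false := by
        by_contra hc
        have := (per_iff hu hj).1 (by simpa using hc)
        omega
      rw [if_pos (by omega), Nat.add_sub_cancel_left, nw1, p1, p2, endS_eq hu' hj, gg,
        if_pos (by omega), show km (14 + j) (a :: u) = 12 - j by omega,
        show 14 + j - (12 - j) = 2 * j + 2 by omega, cc, cond_true, cond_false]
      generalize ent T _ % 10001 = c
      have := (Nat.cast_lt (α := ℝ)).2 (Nat.lt_div_mul_add (a := 7 ^ (2 * j + 2) * c)
        (b := 9 ^ (2 * j + 2)) (by positivity))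
      rw [div_pow, div_mul_eq_mul_div, div_le_iff₀ (by positivity)]
      push_cast at this ⊢
      linarith
    · rw [gg, k1, if_neg c2]
      positivity
  · have k1 : km p (a :: u) = 0 := by rw [km, if_neg e]
    rw [if_neg e, zero_add, gg, k1]
    split_ifs with c1 c2
    · omega
    · rw [Nat.sub_zero, List.drop_zero, cc, cc, List.take_append_of_le_length (by
        rw [List.length_take, List.length_cons]; omega), List.take_take, min_eq_left (by omega)]
    · positivity
    · omega

theorem rA_le {u : List (Fin 3)} (h : SF u) (hu : 26 ≤ u.length) {a : Fin 3}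
    (hg : ¬Good T (a :: u)) : (rA T (enc (u.take 26)) a : ℝ) ≤ ct T a u := by
  rcases rA_cases T (enc (u.take 26)) a with e | ⟨hs, e⟩
  · rw [e, Nat.cast_zero]
    exact ct_nonneg T a u
  rw [nxt_eq] at hs e
  have h1 := (not_good T h hs hg).trans (sum_le_sum fun p hp =>
    gg_cons T h hu a (mem_Icc.1 hp).1 (mem_Icc.1 hp).2)
  rw [sum_add_distrib, List.length_cons, sum_Icc_succ_top (by omega), if_neg (by simp), add_zero,
    ← ct, ← Ico_add_one_right_eq_Icc,
    ← sum_Ico_consecutive _ (show 14 ≤ 26 by norm_num) (by omega)] at h1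
  have h2 : ∑ p ∈ Ico 14 26, (if p < 26 then
      (nw1 T (enc (u.take 26)) (enc ((a :: u).take 26)) (p - 14) : ℝ)
      else (7 / 9 : ℝ) ^ p * cc T (a :: u)) =
      ∑ j ∈ range 12, (nw1 T (enc (u.take 26)) (enc ((a :: u).take 26)) j : ℝ) := by
    rw [sum_Ico_eq_sum_range]
    exact sum_congr rfl fun j hj => by
      rw [if_pos (by have := mem_range.1 hj; omega), Nat.add_sub_cancel_left]
  have h3 : ∑ p ∈ Ico 26 (u.length + 1 + 1), (if p < 26 then
      (nw1 T (enc (u.take 26)) (enc ((a :: u).take 26)) (p - 14) : ℝ)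
      else (7 / 9 : ℝ) ^ p * cc T (a :: u)) ≤ 1 / 150 * cc T (a :: u) := by
    rw [sum_congr rfl fun p hp => if_neg (not_lt.2 (mem_Ico.1 hp).1), ← sum_mul]
    refine mul_le_mul_of_nonneg_right ?_ (cc_nonneg T _)
    exact (geom_sum_Ico_le_of_lt_one (by norm_num) (by norm_num)).trans (by norm_num)
  have h4 := congrArg (Nat.cast (R := ℝ)) e
  have h5 := (Nat.cast_lt (α := ℝ)).2 (Nat.lt_div_mul_add
    (a := ent T (enc ((a :: u).take 26)) % 10001) (b := 150) (by norm_num))
  rw [h2] at h1
  rw [cc] at h1 h3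
  generalize ent T (enc ((a :: u).take 26)) % 10001 = c at h1 h3 h4 h5
  push_cast at h4 h5
  linarith

variable {T}

theorem Good.child (hT : ∀ s : List (Fin 3), s.length = 26 → SF s → chkS T (enc s) = true)
    {u : List (Fin 3)} (h : Good T u) (hu : 26 ≤ u.length) : ∃ a, Good T (a :: u) := by
  by_contra hc
  rw [not_exists] at hc
  have h1 := (chkS_spec (hT (u.take 26) (by rw [List.length_take]; omega)
    (h.1.of_infix (List.take_prefix _ _).isInfix))).1
  have h2 := sum_le_sum fun a (_ : a ∈ (univ : Finset (Fin 3))) => rA_le T h.1 hu (hc a)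
  have h3 : ∑ a, ct T a u ≤ 9 / 7 * ∑ p ∈ Icc 14 u.length, gg T p u := by
    unfold ct
    rw [sum_comm, mul_sum]
    refine sum_le_sum fun p _ => ?_
    have := gg_nonneg T p u
    rcases u[p - 1]? with _ | b
    · simp only [reduceCtorEq, if_false, sum_const_zero]
      positivity
    · simp
  have h4 := (Nat.cast_le (α := ℝ)).2 h1
  have h5 := h.2
  rw [cc] at h5
  generalize ent T (enc (u.take 26)) % 10001 = c at h4 h5
  push_cast at h4
  linarith

theorem Good.ext (hT : ∀ s : List (Fin 3), s.length = 26 → SF s → chkS T (enc s) = true)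
    {u : List (Fin 3)} (h : Good T u) (hu : 26 ≤ u.length) :
    ∀ m, ∃ z : List (Fin 3), z.length = m ∧ Good T (z ++ u)
  | 0 => ⟨[], rfl, h⟩
  | m + 1 => by
    obtain ⟨z, e, hz⟩ := h.ext hT hu m
    obtain ⟨a, ha⟩ := hz.child hT (by rw [List.length_append]; omega)
    exact ⟨a :: z, by simp [e], ha⟩

theorem wA_le {u : List (Fin 3)} (h : SF u) (hu : 26 ≤ u.length) {a : Fin 3}
    (hg : ¬Good T (a :: u)) : (wA T (enc (u.take 26)) a : ℝ) ≤
      10000 * ∑ p ∈ (Icc 22 u.length).filter (fun p => u[p - 1]? = some a),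
        (7 / 9 : ℝ) ^ (p - km p u - 3) := by
  rcases wA_cases T (enc (u.take 26)) a with e | ⟨hk, e1, e2⟩
  · rw [e, Nat.cast_zero]
    positivity
  by_cases hc : ∃ p ∈ (Icc 22 u.length).filter (fun p => u[p - 1]? = some a), p - km p u ≤ 3
  · obtain ⟨p, hp, hp'⟩ := hc
    have := single_le_sum (f := fun p => (7 / 9 : ℝ) ^ (p - km p u - 3))
      (fun q _ => by positivity) hp
    simp only [Nat.sub_eq_zero_of_le hp', pow_zero] at this
    have e3 := (Nat.cast_le (α := ℝ)).2 e1
    push_cast at e3
    linarith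
  simp only [not_exists, not_and, not_le] at hc
  have h1 : ct T a u ≤ 49 / 81 * (10000 * ∑ p ∈ (Icc 22 u.length).filter
      (fun p => u[p - 1]? = some a), (7 / 9 : ℝ) ^ (p - km p u - 3)) := by
    rw [ct, ← sum_filter, mul_sum, mul_sum,
      ← sum_subset (s₁ := (Icc 22 u.length).filter fun p => u[p - 1]? = some a)
        (filter_subset_filter _ (Icc_subset_Icc_left (by norm_num)))]
    · refine sum_le_sum fun p hp => ?_
      have := hc p hp
      have h2 := cc_le T ((u.drop (km p u)).take p ++ (u.drop (km p u)).take p)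
      rw [gg]
      split_ifs
      · rw [show p - km p u = p - km p u - 3 + 3 by omega, pow_add, Nat.add_sub_cancel]
        have h3 : (0 : ℝ) ≤ (7 / 9 : ℝ) ^ (p - km p u - 3) := by positivity
        nlinarith
      · rw [mul_zero]
        positivity
    · intro p hp hp'
      simp only [mem_filter, mem_Icc] at hp hp'
      obtain ⟨j, rfl⟩ : ∃ j, p = 14 + j := ⟨p - 14, by omega⟩
      have hj : j < 8 := by
        by_contra hj
        exact hp' ⟨⟨by omega, hp.1.2⟩, hp.2⟩
      rw [gg, if_neg, mul_zero]
      intro c1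
      rw [nxt_eq] at hk
      have p1 := (per_iff (u := a :: u) (j := j) (by rw [List.length_cons]; omega) (by omega)).2
        (by rw [km, if_pos hp.2]; omega)
      have p2 := (per_iff hu (j := j) (by omega)).2 (by omega)
      rw [kill_false _ _ 8 hk j hj p1] at p2
      exact Bool.false_ne_true p2
  have h2 := rA_le T h hu hg
  have e3 := (Nat.cast_le (α := ℝ)).2 e2
  push_cast at e3
  linarith

theorem path_le (hT : ∀ s : List (Fin 3), s.length = 26 → SF s → chkS T (enc s) = true)
    {v : List (Fin 3)} (h : SF v) : ∀ W : ℕ, W + 26 ≤ v.length →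
    (∀ i < W, ∀ a, v[i]? ≠ some a → ¬Good T (a :: v.drop (i + 1))) →
    (2260 * W + (ent T (enc ((v.drop W).take 26)) / 10001 : ℕ) : ℝ) ≤
      10000 * SS v W v.length 3 + (ent T (enc (v.take 26)) / 10001 : ℕ)
  | 0, _, _ => by simp [SS, Pr]
  | W + 1, hW, hg => by
    have ih := path_le hT h W (by omega) fun i hi => hg i (by omega)
    have hl : 26 ≤ (v.drop (W + 1)).length := by rw [List.length_drop]; omega
    have hs : SF (v.drop (W + 1)) := h.of_infix (List.drop_suffix _ _).isInfix
    have hb : W < v.length := by omega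
    have e : v.drop W = v[W] :: v.drop (W + 1) := List.drop_eq_getElem_cons hb
    obtain ⟨a, ha, h1⟩ := (chkS_spec (hT ((v.drop (W + 1)).take 26)
      (by rw [List.length_take]; omega) (hs.of_infix (List.take_prefix _ _).isInfix))).2.2 (v[W]'hb) (by
        rw [nxt_eq, ← e]
        refine (h.of_infix ((List.take_prefix _ _).isInfix.trans
          (List.drop_suffix _ _).isInfix)).sq_false ?_
        rw [e]
        exact List.cons_ne_nil _ _)
    have ha' : v[W]? ≠ some a := by
      rw [List.getElem?_eq_getElem hb]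
      exact fun c => ha (Option.some.inj c).symm
    have h2 := wA_le hs hl (hg W (by omega) a ha')
    rw [nxt_eq, ← e] at h1
    have h3 : SS v W v.length 3 + ∑ p ∈ (Icc 22 (v.drop (W + 1)).length).filter
        (fun p => (v.drop (W + 1))[p - 1]? = some a),
        (7 / 9 : ℝ) ^ (p - km p (v.drop (W + 1)) - 3) ≤ SS v (W + 1) v.length 3 := by
      simp only [SS, Pr, sum_filter, sum_product]
      rw [sum_range_succ, ← sum_filter, ← sum_filter]
      refine add_le_add le_rfl (sum_le_sum_of_subset_of_nonneg (fun p hp => ?_)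
        fun _ _ _ => by positivity)
      simp only [mem_filter, mem_Icc, List.length_drop, List.getElem?_drop] at hp ⊢
      refine ⟨by omega, ?_⟩
      rw [show W + p = W + 1 + (p - 1) by omega, hp.2]
      exact ha'
    have h4 := (Nat.cast_le (α := ℝ)).2 h1
    generalize ent T (enc ((v.drop (W + 1)).take 26)) / 10001 = f1 at h4 ⊢
    generalize ent T (enc ((v.drop W).take 26)) / 10001 = f2 at h4 ih
    generalize ent T (enc (v.take 26)) / 10001 = f3 at ih ⊢
    push_cast at h4 ⊢
    linarith

theorem window (hT : ∀ s : List (Fin 3), s.length = 26 → SF s → chkS T (enc s) = true)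
    {v : List (Fin 3)} (h : SF v) {W m : ℕ} (hW : W + 26 ≤ v.length) (hm : v.length < 2 ^ m)
    (hb : 20000 * m + 21000 < 486 * W) :
    ∃ i < W, ∃ a, Good T (a :: v.drop (i + 1)) := by
  by_contra hc
  have h1 := path_le hT h W hW fun i hi a _ hg => hc ⟨i, hi, a, hg⟩
  have h2 := SS_three h W hm
  have h3 := (Nat.cast_le (α := ℝ)).2 (chkS_spec (hT (v.take 26)
    (by rw [List.length_take]; omega) (h.of_infix (List.take_prefix _ _).isInfix))).2.1
  have h4 := (Nat.cast_lt (α := ℝ)).2 hb
  have h5 : (0 : ℝ) ≤ (ent T (enc ((v.drop W).take 26)) / 10001 : ℕ) := Nat.cast_nonneg _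
  generalize ent T (enc ((v.drop W).take 26)) / 10001 = f2 at h1 h5
  generalize ent T (enc (v.take 26)) / 10001 = f3 at h1 h3
  push_cast at h3 h4
  linarith

end Pool.Agent.MP_4bd596_co
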