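import Pool.Agent.MP_4bd596_co.Tab

/-! The finite check succeeds, part 4. -/

set_option autoImplicit false

namespace Pool.Agent.MP_4bd596_co

theorem run11 : chkA tab 24 11 = true := by decide +kernel

end Pool.Agent.MP_4bd596_co
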