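import Pool.Agent.MP_4bd596_co.Upper

/-! Finite subtrees of the tree of ternary squarefree words have logarithmic size. -/

set_option autoImplicit false

noncomputable section

namespace Pool.Agent.MP_4bd596_co

open Finset

theorem SF.ratio {x : List (Fin 3)} (h : SF x) {p q : ℕ} (h1 : 1 ≤ p) (hpq : p < q)
    (hp : p < 4 * (km p x + 1)) (hq : q < 4 * (km q x + 1)) : 5 * p < 4 * q := by
  by_contra hc
  obtain ⟨r, rfl⟩ : ∃ r, q = p + r := ⟨q - p, by omega⟩
  refine h.no_sq p r (by omega) ?_ fun j hj => ?_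
  · have := (km_spec (p := p + r) (by omega) x (r - 1) (by omega)).1
    omega
  · rw [add_comm p j, ← (km_spec h1 x j (by omega)).2, add_assoc,
      ← (km_spec (p := p + r) (by omega) x j (by omega)).2]

theorem sparse (S : Finset ℕ) : (∀ p ∈ S, ∀ q ∈ S, p < q → 5 * p < 4 * q) →
    ∀ R : ℝ, 0 < R → (∀ p ∈ S, R ≤ p) → ∑ p ∈ S, (1 / p : ℝ) ≤ 5 / R ∧
      ∀ n : ℝ, R ≤ 5 / 4 * n → (∀ p ∈ S, (p : ℝ) ≤ n) → R * (5 / 4) ^ S.card ≤ 5 / 4 * n := by
  induction S using Finset.induction_on_min with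
  | empty => exact fun _ R hR _ => ⟨by rw [sum_empty]; positivity, fun n h _ => by simpa using h⟩
  | insert a s ha ih =>
    intro h R hR h1
    have hn : a ∉ s := fun c => lt_irrefl _ (ha a c)
    have h2 := h1 a (mem_insert_self _ _)
    have h3 : (0 : ℝ) < a := hR.trans_le h2
    obtain ⟨k1, k2⟩ := ih (fun p hp q hq => h p (mem_insert_of_mem hp) q (mem_insert_of_mem hq))
      (5 / 4 * a) (by positivity) fun p hp => by
        have := (Nat.cast_lt (α := ℝ)).2
          (h a (mem_insert_self _ _) p (mem_insert_of_mem hp) (ha p hp))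
        push_cast at this
        linarith
    constructor
    · rw [sum_insert hn]
      have e : (5 / (5 / 4 * a) : ℝ) = 4 * (1 / a) := by field_simp
      have : (5 / a : ℝ) ≤ 5 / R := by gcongr
      have e2 : (5 / a : ℝ) = 5 * (1 / a) := by ring
      linarith
    · intro n _ h4
      have := k2 n (by linarith [h4 a (mem_insert_self _ _)]) fun p hp =>
        h4 p (mem_insert_of_mem hp)
      rw [card_insert_of_notMem hn, pow_succ]
      have h5 : (0 : ℝ) < (5 / 4) ^ s.card := by positivity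
      nlinarith

/-- threats of long periods -/
def la (P n : ℕ) (x : List (Fin 3)) : ℝ := ∑ p ∈ Ioc P n, (7 / 9 : ℝ) ^ (p - km p x)

/-- the reserve of one period -/
def mm (p k : ℕ) : ℝ := 7 / 2 * ((min p (4 * k - p) : ℕ) / p) * (1 - (7 / 9 : ℝ) ^ (p - k))

/-- the reserve of a word -/
def mu (P n : ℕ) (x : List (Fin 3)) : ℝ := ∑ p ∈ Ioc P n, mm p (km p x)

theorem mm_nonneg (p k : ℕ) : 0 ≤ mm p k :=
  mul_nonneg (by positivity) (sub_nonneg.2 (pow_le_one₀ (by norm_num) (by norm_num)))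

theorem mm_zero (p : ℕ) : mm p 0 = 0 := by simp [mm]

theorem mm_le {p : ℕ} (hp : 1 ≤ p) (k : ℕ) :
    mm p k ≤ if p < 4 * (k + 1) then 7 / 2 else 0 := by
  rw [mm]
  split_ifs with h
  · have h1 : ((min p (4 * k - p) : ℕ) / p : ℝ) ≤ 1 :=
      div_le_one_of_le₀ (Nat.cast_le.2 (min_le_left _ _)) (Nat.cast_nonneg _)
    have h2 : (0 : ℝ) ≤ (min p (4 * k - p) : ℕ) / p := by positivity
    have h3 : (0 : ℝ) ≤ (7 / 9) ^ (p - k) := by positivity
    nlinarith
  · rw [show min p (4 * k - p) = 0 by omega]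
    simp

theorem mm_step {p k : ℕ} (hk : k < p) : mm p (k + 1) + (7 / 9 : ℝ) ^ (p - k) ≤
    mm p k + ((if p < 4 * (k + 1) then 14 * (1 / p : ℝ) else 0) + (8 / 9 : ℝ) ^ p) := by
  have hp : (0 : ℝ) < p := Nat.cast_pos.2 (by omega)
  have e : (7 / 9 : ℝ) ^ (p - (k + 1)) = 9 / 7 * (7 / 9 : ℝ) ^ (p - k) := by
    rw [show p - k = p - (k + 1) + 1 by omega, pow_succ]
    ring
  have h1 : ((min p (4 * k - p) : ℕ) / p : ℝ) ≤ (min p (4 * (k + 1) - p) : ℕ) / p := by
    gcongr
    omega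
  have h2 : 7 / 2 * (((min p (4 * (k + 1) - p) : ℕ) / p : ℝ) - (min p (4 * k - p) : ℕ) / p) ≤
      if p < 4 * (k + 1) then 14 * (1 / p : ℝ) else 0 := by
    split_ifs with h
    · have := (Nat.cast_le (α := ℝ)).2
        (show min p (4 * (k + 1) - p) ≤ min p (4 * k - p) + 4 by omega)
      rw [Nat.cast_add, Nat.cast_ofNat] at this
      rw [← sub_div, mul_div_assoc', mul_one_div, div_le_div_iff_of_pos_right hp]
      linarith
    · rw [show min p (4 * k - p) = 0 by omega, show min p (4 * (k + 1) - p) = 0 by omega]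
      simp
  have h3 : (1 - ((min p (4 * k - p) : ℕ) / p : ℝ)) * (7 / 9 : ℝ) ^ (p - k) ≤ (8 / 9 : ℝ) ^ p := by
    by_cases h : p ≤ 2 * k
    · rw [show min p (4 * k - p) = p by omega, div_self hp.ne', sub_self, zero_mul]
      positivity
    · have h4 : (7 / 9 : ℝ) ^ (p - k) ≤ (8 / 9 : ℝ) ^ p :=
        calc (7 / 9 : ℝ) ^ (p - k) ≤ ((8 / 9 : ℝ) ^ 2) ^ (p - k) := by gcongr; norm_num
          _ = (8 / 9 : ℝ) ^ (2 * (p - k)) := by rw [pow_mul]
          _ ≤ _ := pow_le_pow_of_le_one (by norm_num) (by norm_num) (by omega)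
      have h5 : (0 : ℝ) ≤ (min p (4 * k - p) : ℕ) / p * (7 / 9 : ℝ) ^ (p - k) := by positivity
      linarith
  have h4 : (0 : ℝ) ≤ (7 / 9) ^ (p - k) := by positivity
  rw [mm, mm, e]
  generalize ((min p (4 * k - p) : ℕ) / p : ℝ) = A at h1 h2 h3 ⊢
  generalize ((min p (4 * (k + 1) - p) : ℕ) / p : ℝ) = B at h1 h2 ⊢
  nlinarith [mul_nonneg (sub_nonneg.2 h1) h4]

theorem mu_step {P : ℕ} (hP : 300 ≤ P) (n : ℕ) {y : List (Fin 3)} (h : SF y) :
    la P n y + ∑ a, mu P n (a :: y) ≤ mu P n y + (70 / P + 1 / 10 ^ 9) := by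
  have h1 : ∑ a, mu P n (a :: y) ≤ ∑ p ∈ Ioc P n, mm p (km p y + 1) := by
    unfold mu
    rw [sum_comm]
    refine sum_le_sum fun p _ => ?_
    have : ∀ a, mm p (km p (a :: y)) = if y[p - 1]? = some a then mm p (km p y + 1) else 0 :=
      fun a => by rw [km, apply_ite (mm p), mm_zero]
    simp only [this]
    rcases y[p - 1]? with _ | b
    · simpa using mm_nonneg _ _
    · simp
  have h2 := sum_le_sum fun p (hp : p ∈ Ioc P n) =>
    mm_step (h.km_lt (p := p) (by have := mem_Ioc.1 hp; omega))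
  rw [sum_add_distrib, sum_add_distrib, sum_add_distrib, ← sum_filter, ← mul_sum] at h2
  have h3 := (sparse ((Ioc P n).filter fun p => p < 4 * (km p y + 1)) (fun p hp q hq hpq => by
    simp only [mem_filter, mem_Ioc] at hp hq
    exact h.ratio (by omega) hpq hp.2 hq.2) P (Nat.cast_pos.2 (by omega)) fun p hp =>
      Nat.cast_le.2 (mem_Ioc.1 (mem_filter.1 hp).1).1.le).1
  have h4 : ∑ p ∈ Ioc P n, (8 / 9 : ℝ) ^ p ≤ 1 / 10 ^ 9 :=
    calc _ ≤ ∑ p ∈ Ico 300 (n + 1), (8 / 9 : ℝ) ^ p :=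
          sum_le_sum_of_subset_of_nonneg (fun p hp => by
            rw [mem_Ioc] at hp; rw [mem_Ico]; omega) fun _ _ _ => by positivity
      _ ≤ (8 / 9 : ℝ) ^ 300 / (1 - 8 / 9) :=
          geom_sum_Ico_le_of_lt_one (by norm_num) (by norm_num)
      _ = ((8 / 9 : ℝ) ^ 100) ^ 3 / (1 - 8 / 9) := by rw [← pow_mul]
      _ ≤ (1 / 10 ^ 4 : ℝ) ^ 3 / (1 - 8 / 9) := by gcongr; norm_num
      _ ≤ _ := by norm_num
  have e : (70 / P : ℝ) = 14 * (5 / P) := by ring
  unfold la mu at *
  linarith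

theorem mu_le {P : ℕ} (hP : 300 ≤ P) (n : ℕ) {y : List (Fin 3)} (h : SF y) {l : ℕ}
    (hl : y.length < 2 ^ l) : mu P n y ≤ 7 / 2 * (4 * l + 1) := by
  have h1 : mu P n y ≤ _ := sum_le_sum fun p (hp : p ∈ Ioc P n) =>
    mm_le (by have := mem_Ioc.1 hp; omega) (km p y)
  rw [← sum_filter, sum_const, nsmul_eq_mul] at h1
  have h2 : (1 : ℝ) ≤ 2 ^ l := one_le_pow₀ (by norm_num)
  have h3 := (sparse ((Ioc P n).filter fun p => p < 4 * (km p y + 1)) (fun p hp q hq hpq => by
    simp only [mem_filter, mem_Ioc] at hp hq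
    exact h.ratio (by omega) hpq hp.2 hq.2) 1 one_pos fun p hp =>
      Nat.one_le_cast.2 (by have := mem_Ioc.1 (mem_filter.1 hp).1; omega)).2 (2 ^ l)
      (by linarith) fun p hp => by
        simp only [mem_filter, mem_Ioc] at hp
        have := (km_spec (p := p) (by omega) y 0 (by omega)).1
        exact_mod_cast (show p ≤ 2 ^ l by omega)
  generalize ((Ioc P n).filter fun p => p < 4 * (km p y + 1)).card = c at h1 h3
  have h4 : c ≤ 4 * l + 1 := by
    by_contra hc
    have k1 : (5 / 4 : ℝ) ^ (4 * l + 2) ≤ (5 / 4) ^ c := pow_le_pow_right₀ (by norm_num) (by omega)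
    have k2 : (2 : ℝ) ^ l ≤ ((5 / 4) ^ 4) ^ l := by gcongr; norm_num
    rw [pow_add, pow_mul] at k1
    linarith
  have h5 := (Nat.cast_le (α := ℝ)).2 h4
  push_cast at h5
  linarith

theorem tree_sum {P : ℕ} (hP : 300 ≤ P) (n : ℕ) (u : List (Fin 3)) (X : Finset (List (Fin 3)))
    (h1 : ∀ z ∈ X, SF (z ++ u)) (h2 : ∀ a z, a :: z ∈ X → z ∈ X) :
    ∑ z ∈ X, la P n (z ++ u) ≤ mu P n u + (70 / P + 1 / 10 ^ 9) * X.card := by
  have h0 : ∀ x, 0 ≤ mu P n x := fun x => sum_nonneg fun _ _ => mm_nonneg _ _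
  have h3 := sum_le_sum fun z hz => mu_step hP n (h1 z hz)
  rw [sum_add_distrib, sum_add_distrib, sum_const, nsmul_eq_mul, ← sum_product'] at h3
  have h4 : ∑ z ∈ X, mu P n (z ++ u) ≤
      mu P n u + ∑ t ∈ X ×ˢ univ, mu P n (t.2 :: (t.1 ++ u)) := by
    have e := sum_image (s := X ×ˢ (univ : Finset (Fin 3))) (g := fun t => t.2 :: t.1)
      (f := fun z => mu P n (z ++ u)) (fun s _ t _ e => by
        rw [List.cons.injEq] at e
        exact Prod.ext e.2 e.1)
    simp only [List.cons_append] at e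
    rw [← e]
    refine le_trans (sum_le_sum_of_subset_of_nonneg (t := insert [] ((X ×ˢ univ).image
      fun t : List (Fin 3) × Fin 3 => t.2 :: t.1)) (fun z hz => ?_) fun _ _ _ => h0 _) ?_
    · rcases z with _ | ⟨a, z⟩
      · exact mem_insert_self _ _
      · exact mem_insert_of_mem (mem_image.2 ⟨(z, a), by simpa using h2 a z hz, rfl⟩)
    · rw [sum_insert (by simp), List.nil_append]
  linarith

theorem window_long {v : List (Fin 3)} (h : SF v) {K P m n : ℕ} (hK : K + 26 ≤ v.length)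
    (hn : v.length ≤ n) (hm : P < 2 ^ m)
    (hg : ∀ i < K, ∀ a, ¬Good tab (a :: v.drop (i + 1))) :
    (486 / 10000 * K : ℝ) ≤ 21 / 10 + 2 * m + 3 * ∑ i ∈ range K, la P n (v.drop (i + 1)) := by
  have h1 := path_le tab_ok h K hK fun i hi a _ => hg i hi a
  have h2 := SS_three h K hm
  have h3 := (Nat.cast_le (α := ℝ)).2 (chkS_spec (tab_ok (v.take 26)
    (by rw [List.length_take]; omega) (h.of_infix (List.take_prefix _ _).isInfix))).2.1
  have h4 : SS v K v.length 3 ≤ SS v K P 3 + 3 * ∑ i ∈ range K, la P n (v.drop (i + 1)) := by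
    have e : 3 * ∑ i ∈ range K, la P n (v.drop (i + 1)) =
        ∑ x ∈ range K ×ˢ Ioc P n, 3 * (7 / 9 : ℝ) ^ df v x := by
      rw [← mul_sum, sum_product]
      rfl
    have e2 : ∑ x ∈ range K ×ˢ Ioc P n, (7 / 9 : ℝ) ^ (df v x - 3) ≤
        ∑ x ∈ range K ×ˢ Ioc P n, 3 * (7 / 9 : ℝ) ^ df v x := sum_le_sum fun x _ => by
      have k1 : (7 / 9 : ℝ) ^ (df v x - 3 + 3) ≤ (7 / 9 : ℝ) ^ df v x :=
        pow_le_pow_of_le_one (by norm_num) (by norm_num) (by omega)
      have k2 : (0 : ℝ) ≤ (7 / 9 : ℝ) ^ (df v x - 3) := by positivity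
      rw [pow_add] at k1
      linarith
    refine le_trans ?_ (add_le_add le_rfl (e2.trans e.ge))
    rw [SS, SS, ← sum_union (disjoint_left.2 fun x h1 h2 => by
      simp only [Pr, mem_filter, mem_product, mem_Icc, mem_Ioc] at h1 h2
      omega)]
    refine sum_le_sum_of_subset_of_nonneg (fun x hx => ?_) fun _ _ _ => by positivity
    simp only [Pr, mem_union, mem_filter, mem_product, mem_Icc, mem_Ioc] at hx ⊢
    by_cases hc : x.2 ≤ P
    · exact .inl ⟨⟨hx.1.1, hx.1.2.1, hc⟩, hx.2⟩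
    · exact .inr ⟨hx.1.1, by omega, by omega⟩
  have h5 : (0 : ℝ) ≤ (ent tab (enc ((v.drop K).take 26)) / 10001 : ℕ) := Nat.cast_nonneg _
  generalize ent tab (enc ((v.drop K).take 26)) / 10001 = f2 at h1 h5
  generalize ent tab (enc (v.take 26)) / 10001 = f3 at h1 h3
  push_cast at h3
  linarith

theorem card_high {u : List (Fin 3)} (hu : 26 ≤ u.length) (hs : SF u) {H l K P m : ℕ}
    (hH : ∀ z : List (Fin 3), SF (z ++ u) → z.length ≤ H) (hl : u.length < 2 ^ l)
    (hP : 300 ≤ P) (hm : P < 2 ^ m) (hK : 1 ≤ K) (X : Finset (List (Fin 3)))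
    (hX : ∀ z, z ∈ X ↔ ∃ y : List (Fin 3), y.length = K ∧ SF (y ++ z ++ u)) :
    (X.card * (486 / 10000 * K - (21 / 10 + 2 * m)) : ℝ) ≤
      3 * K * (7 / 2 * (4 * l + 1) + (70 / P + 1 / 10 ^ 9) * (K * X.card)) := by
  have : ∀ z, ∃ y : List (Fin 3), z ∈ X → y.length = K ∧ SF (y ++ z ++ u) := fun z => by
    by_cases hz : z ∈ X
    · exact ((hX z).1 hz).imp fun y h _ => h
    · exact ⟨[], fun h => absurd h hz⟩
  choose y hy using this
  have e : ∀ z ∈ X, ∀ i < K, (y z ++ z ++ u).drop (i + 1) = (y z ++ z).drop (i + 1) ++ u :=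
    fun z hz i hi => List.drop_append_of_le_length (by
      rw [List.length_append, (hy z hz).1]; omega)
  obtain ⟨Y, hY⟩ : ∃ Y, Y = (range K ×ˢ X).image fun t => (y t.2 ++ t.2).drop (t.1 + 1) :=
    ⟨_, rfl⟩
  have hY' : ∀ s, s ∈ Y ↔ ∃ i < K, ∃ z ∈ X, (y z ++ z).drop (i + 1) = s := fun s => by
    simp only [hY, mem_image, mem_product, mem_range, Prod.exists]
    exact ⟨fun ⟨i, z, h, e⟩ => ⟨i, h.1, z, h.2, e⟩, fun ⟨i, h, z, h', e⟩ => ⟨i, z, ⟨h, h'⟩, e⟩⟩
  have h1 := tree_sum hP (H + u.length) u Y (fun s hs => by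
    obtain ⟨i, hi, z, hz, rfl⟩ := (hY' s).1 hs
    rw [← e z hz i hi]
    exact (hy z hz).2.of_infix (List.drop_suffix _ _).isInfix) (fun a s hs => by
    obtain ⟨i, hi, z, hz, e⟩ := (hY' _).1 hs
    by_cases hc : i + 1 < K
    · exact (hY' s).2 ⟨i + 1, hc, z, hz, by rw [← List.tail_drop, e, List.tail_cons]⟩
    · rw [List.drop_left' (by rw [(hy z hz).1]; omega)] at e
      subst e
      have hs' : s ∈ X := (hX s).2 ⟨(y (a :: s) ++ [a]).drop 1, by simp [(hy _ hz).1], by
        refine (hy _ hz).2.of_infix (List.IsSuffix.isInfix ?_)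
        rw [show y (a :: s) ++ a :: s = y (a :: s) ++ [a] ++ s by simp, List.append_assoc,
          List.append_assoc (y (a :: s) ++ [a]),
          ← List.drop_append_of_le_length (by simp)]
        exact List.drop_suffix _ _⟩
      exact (hY' s).2 ⟨K - 1, by omega, s, hs', List.drop_left' (by rw [(hy s hs').1]; omega)⟩)
  have h2 := mu_le hP (H + u.length) hs hl
  have h3 : Y.card ≤ K * X.card := by
    rw [hY]
    exact card_image_le.trans (by rw [card_product, card_range])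
  have h4 := sum_le_sum fun z (hz : z ∈ X) => window_long (hy z hz).2 (K := K) (P := P)
    (n := H + u.length) (by simp [(hy z hz).1]; omega)
    (by have := hH _ (hy z hz).2; rw [List.length_append]; omega) hm fun i hi a hg => by
      rw [e z hz i hi] at hg
      obtain ⟨x, e1, hx⟩ := hg.ext tab_ok (by simp; omega) (H + 1)
      have := hH (x ++ a :: (y z ++ z).drop (i + 1)) (by simpa using hx.1)
      rw [List.length_append] at this
      omega
  rw [sum_add_distrib, sum_const, sum_const, nsmul_eq_mul, nsmul_eq_mul, ← mul_sum,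
    sum_comm] at h4
  have h5 : ∑ i ∈ range K, ∑ z ∈ X, la P (H + u.length) ((y z ++ z ++ u).drop (i + 1)) ≤
      ∑ _i ∈ range K, ∑ s ∈ Y, la P (H + u.length) (s ++ u) := sum_le_sum fun i hi => by
    rw [mem_range] at hi
    rw [sum_congr rfl fun z hz => congrArg _ (e z hz i hi), ← sum_image (s := X)
      (g := fun z => (y z ++ z).drop (i + 1)) (f := fun s => la P (H + u.length) (s ++ u))]
    · refine sum_le_sum_of_subset_of_nonneg (fun s hs => ?_) fun _ _ _ =>
        sum_nonneg fun _ _ => by positivity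
      obtain ⟨z, hz, rfl⟩ := mem_image.1 hs
      exact (hY' _).2 ⟨i, hi, z, hz, rfl⟩
    · intro z hz z' hz' e
      have := congrArg (List.drop (K - (i + 1))) e
      simp only [List.drop_drop] at this
      rwa [List.drop_left' (by rw [(hy z hz).1]; omega),
        List.drop_left' (by rw [(hy z' hz').1]; omega)] at this
  rw [sum_const, card_range, nsmul_eq_mul] at h5
  have h6 : (Y.card : ℝ) ≤ K * X.card := by exact_mod_cast h3
  have h7 : ∑ s ∈ Y, la P (H + u.length) (s ++ u) ≤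
      7 / 2 * (4 * l + 1) + (70 / P + 1 / 10 ^ 9) * (K * X.card) :=
    h1.trans (add_le_add h2 (by gcongr))
  have h8 := mul_le_mul_of_nonneg_left h7 (Nat.cast_nonneg (α := ℝ) K)
  linarith

theorem size_le : ∃ C : ℕ, ∀ w : List (Fin 3), {y | SF (w ++ y)}.Finite →
    {y | SF (w ++ y)}.ncard ≤ C * (Nat.log 2 w.length + 1) := by
  classical
  have hB := List.finite_length_le (Fin 3) 4000
  refine ⟨hB.toFinset.card * 4001, fun w hw => ?_⟩
  obtain ⟨H, hH⟩ : ∃ H, ∀ y, SF (w ++ y) → y.length ≤ H := by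
    obtain ⟨H, h⟩ := (hw.image List.length).bddAbove
    exact ⟨H, fun y hy => h ⟨y, hy, rfl⟩⟩
  rw [Set.ncard_eq_toFinset_card _ hw]
  by_cases hu : w.length < 26
  · refine (card_le_card (t := hB.toFinset) fun y hy => ?_).trans (by
      rw [mul_assoc]; exact Nat.le_mul_of_pos_right _ (by positivity))
    rw [Set.Finite.mem_toFinset] at hy ⊢
    by_contra hc
    have : Nat.log 2 w.length < 5 := Nat.log_lt_of_lt_pow' (by norm_num) (by omega)
    obtain ⟨x, h1, h2⟩ := extend hy (by simp at hc; omega) (H + 1)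
    have := hH x h2
    omega
  by_cases hs : SF w
  swap
  · rw [card_eq_zero.2 (eq_empty_of_forall_notMem fun y hy => hs
      (((Set.Finite.mem_toFinset _).1 hy).of_infix (List.prefix_append _ _).isInfix))]
    exact Nat.zero_le _
  have hr : ∀ z : List (Fin 3), SF (z ++ w.reverse) ↔ SF (w ++ z.reverse) := fun z =>
    ⟨fun h => by simpa using h.reverse, fun h => by simpa using h.reverse⟩
  obtain ⟨X, hX⟩ : ∃ X : Finset (List (Fin 3)), ∀ z, z ∈ X ↔
      ∃ y : List (Fin 3), y.length = 4000 ∧ SF (y ++ z ++ w.reverse) := by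
    refine ⟨(hw.toFinset.image List.reverse).filter fun z =>
      ∃ y : List (Fin 3), y.length = 4000 ∧ SF (y ++ z ++ w.reverse), fun z => ?_⟩
    rw [mem_filter, and_iff_right_iff_imp]
    rintro ⟨y, -, h⟩
    rw [List.append_assoc] at h
    exact mem_image.2 ⟨z.reverse, (Set.Finite.mem_toFinset _).2
      ((hr z).1 (h.of_infix (List.suffix_append _ _).isInfix)), List.reverse_reverse _⟩
  have h1 := card_high (u := w.reverse) (by simpa using hu) hs.reverse (H := H)
    (l := Nat.log 2 w.length + 1) (K := 4000) (P := 1000000000) (m := 30)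
    (fun z hz => by simpa using hH _ ((hr z).1 hz))
    (by simpa using Nat.lt_pow_succ_log_self (by norm_num) _) (by norm_num) (by norm_num)
    (by norm_num) X hX
  have h2 : X.card ≤ 2000 * (Nat.log 2 w.length + 1) + 2000 * (Nat.log 2 w.length + 1) := by
    have h0 : (0 : ℝ) ≤ Nat.log 2 w.length := Nat.cast_nonneg _
    refine (Nat.cast_le (α := ℝ)).1 ?_
    push_cast at h1 ⊢
    linarith
  have h3 : hw.toFinset.card ≤ _ := (card_le_card (t := (hB.toFinset ×ˢ insert [] X).image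
    fun t => (t.1 ++ t.2).reverse) fun y hy => by
      rw [Set.Finite.mem_toFinset] at hy
      refine mem_image.2 ⟨(y.reverse.take 4000, y.reverse.drop 4000), mem_product.2
        ⟨(Set.Finite.mem_toFinset _).2 (List.length_take_le _ _), ?_⟩, by simp⟩
      by_cases hc : y.length ≤ 4000
      · rw [List.drop_of_length_le (by simpa using hc)]
        exact mem_insert_self _ _
      · refine mem_insert_of_mem ((hX _).2 ⟨y.reverse.take 4000, by simp; omega, ?_⟩)
        rw [List.take_append_drop, hr, List.reverse_reverse]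
        exact hy).trans card_image_le
  rw [card_product] at h3
  have h4 := card_insert_le [] X
  rw [mul_assoc]
  exact h3.trans (Nat.mul_le_mul_left _ (by omega))

end Pool.Agent.MP_4bd596_co
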