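import Pool.Agent.MP_4bd596_co.Pot
import Pool.Agent.MP_4bd596_co.Run1
import Pool.Agent.MP_4bd596_co.Run2
import Pool.Agent.MP_4bd596_co.Run3
import Pool.Agent.MP_4bd596_co.Run4
import Pool.Agent.MP_4bd596_co.Run5
import Pool.Agent.MP_4bd596_co.Run6

/-! The s-index is at most logarithmic in the length. -/

set_option autoImplicit false

namespace Pool.Agent.MP_4bd596_co

theorem chkA_succ (T : Tr) (m n : ℕ) : chkA T (m + 1) n = (br (chkA T m) (1 + 4 * n) &&
    br (chkA T m) (2 + 4 * n) && br (chkA T m) (3 + 4 * n)) := rfl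

theorem br_of {f : ℕ → Bool} {t : ℕ} (h : sq t = true ∨ f t = true) : br f t = true := by
  rw [br, frc_eq]
  rcases h with h | h <;> rw [h]
  · rfl
  · exact Bool.cond_self _ _

theorem run : chkA tab 26 0 = true := by
  have h1 : chkA tab 25 1 = true := by
    rw [chkA_succ, br_of (.inl (by decide)), br_of (.inr run6), br_of (.inr run7)]
    rfl
  have h2 : chkA tab 25 2 = true := by
    rw [chkA_succ, br_of (.inr run9), br_of (t := 2 + 4 * 2) (.inl (by decide)),
      br_of (.inr run11)]
    rfl
  have h3 : chkA tab 25 3 = true := by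
    rw [chkA_succ, br_of (.inr run13), br_of (.inr run14), br_of (.inl (by decide))]
    rfl
  rw [chkA_succ, br_of (.inr h1), br_of (.inr h2), br_of (.inr h3)]
  rfl

theorem tab_ok (s : List (Fin 3)) (hl : s.length = 26) (hs : SF s) : chkS tab (enc s) = true := by
  have := chkA_spec tab 26 [] run s hl
  rw [List.append_nil] at this
  exact this hs

/-- a long squarefree extension gives squarefree extensions of every length -/
theorem extend {w y : List (Fin 3)} (h : SF (w ++ y))
    (hy : 42 * Nat.log 2 w.length + 440 ≤ y.length) (n : ℕ) :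
    ∃ x : List (Fin 3), n ≤ x.length ∧ SF (w ++ x) := by
  obtain ⟨l, hl⟩ : ∃ l, l = Nat.log 2 w.length := ⟨_, rfl⟩
  have h1 : w.length < 2 ^ (l + 1) := hl ▸ Nat.lt_pow_succ_log_self (by norm_num) _
  rw [← hl] at hy
  have h2 : SF (w ++ y.take (42 * l + 440)) :=
    h.of_infix ((List.prefix_append_right_inj w).2 (List.take_prefix _ _)).isInfix
  have h3 : (y.take (42 * l + 440)).length = 42 * l + 440 := by rw [List.length_take]; omega
  generalize y.take (42 * l + 440) = y at h2 h3
  have h4 : l + 1 ≤ 2 ^ l := Nat.lt_two_pow_self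
  obtain ⟨i, hi, a, hg⟩ := window tab_ok h2.reverse (W := 42 * l + 414) (m := l + 9)
    (by simp; omega) (by simp only [List.length_reverse, List.length_append, pow_add] at h1 ⊢; omega)
    (by omega)
  obtain ⟨z, e, hz⟩ := hg.ext tab_ok (by simp; omega) n
  have h5 := hz.1.reverse
  rw [List.reverse_append (as := w), List.drop_append_of_le_length (by simp; omega),
    ← List.cons_append, ← List.append_assoc, List.reverse_append, List.reverse_reverse] at h5
  exact ⟨_, by simp; omega, h5⟩

theorem upper {w : List (Fin 3)} {n : ℕ} (h : SIndex w n) :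
    n ≤ 42 * Nat.log 2 w.length + 440 := by
  obtain ⟨-, -, -, ⟨y, e, hy⟩, h2⟩ := h
  by_contra hc
  obtain ⟨x, hx, hs⟩ := extend hy (by omega) n
  exact h2 x hx hs

end Pool.Agent.MP_4bd596_co
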