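import Pool.Agent.MP_4bd596_co.Defs

/-! Almost squares in a squarefree word. Words are read from the end: the head is the last
letter. -/

set_option autoImplicit false

namespace Pool.Agent.MP_4bd596_co

open Finset

/-- length of the longest prefix that occurs again p places later -/
def km (p : ℕ) : List (Fin 3) → ℕ
  | [] => 0
  | a :: u => if u[p - 1]? = some a then km p u + 1 else 0

theorem km_spec {p : ℕ} (hp : 1 ≤ p) : ∀ (u : List (Fin 3)) (i : ℕ), i < km p u →
    i + p < u.length ∧ u[i]? = u[i + p]?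
  | [], i, h => by simp [km] at h
  | a :: u, i, h => by
    obtain ⟨p, rfl⟩ : ∃ q, p = q + 1 := ⟨p - 1, by omega⟩
    rw [km] at h
    split_ifs at h with e
    · rw [Nat.add_sub_cancel] at e
      rcases i with _ | i
      · have := (List.getElem?_eq_some_iff.1 e).1
        refine ⟨by simp; omega, ?_⟩
        rw [zero_add, List.getElem?_cons_succ, e, List.getElem?_cons_zero]
      · obtain ⟨h1, h2⟩ := km_spec hp u i (by omega)
        refine ⟨by simp; omega, ?_⟩
        rw [show i + 1 + (p + 1) = (i + (p + 1)) + 1 by ring, List.getElem?_cons_succ,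
          List.getElem?_cons_succ, h2]
    · omega

theorem km_ge {p : ℕ} (hp : 1 ≤ p) : ∀ (u : List (Fin 3)) (j : ℕ),
    (∀ i < j, i < u.length ∧ u[i]? = u[i + p]?) → j ≤ km p u
  | _, 0, _ => Nat.zero_le _
  | [], j + 1, h => by simpa using (h 0 (by omega)).1
  | a :: u, j + 1, h => by
    obtain ⟨p, rfl⟩ : ∃ q, p = q + 1 := ⟨p - 1, by omega⟩
    have h0 := (h 0 (by omega)).2
    rw [zero_add, List.getElem?_cons_succ, List.getElem?_cons_zero] at h0
    rw [km, Nat.add_sub_cancel, if_pos h0.symm]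
    refine Nat.succ_le_succ (km_ge hp u j fun i hi => ?_)
    obtain ⟨h1, h2⟩ := h (i + 1) (by omega)
    rw [show i + 1 + (p + 1) = (i + (p + 1)) + 1 by ring, List.getElem?_cons_succ,
      List.getElem?_cons_succ] at h2
    exact ⟨by simpa using h1, h2⟩

theorem km_iff {p : ℕ} (hp : 1 ≤ p) {u : List (Fin 3)} {j : ℕ} (hj : j ≤ u.length) :
    j ≤ km p u ↔ u.take j = (u.drop p).take j := by
  constructor
  · intro h
    refine List.ext_getElem? fun i => ?_
    rw [List.getElem?_take, List.getElem?_take]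
    split_ifs with hi
    · rw [List.getElem?_drop, add_comm p i, (km_spec hp u i (by omega)).2]
    · rfl
  · intro h
    refine km_ge hp u j fun i hi => ⟨by omega, ?_⟩
    have := congrArg (fun l => l[i]?) h
    simp only [List.getElem?_take, if_pos hi, List.getElem?_drop] at this
    rw [this, add_comm]

theorem SF.of_infix {u v : List (Fin 3)} (h : SF v) (e : u <:+: v) : SF u :=
  fun x hx h' => h x hx (h'.trans e)

theorem SF.reverse {v : List (Fin 3)} (h : SF v) : SF v.reverse := fun x hx h' =>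
  h x.reverse (by simpa using hx) (by
    rw [← List.reverse_append, ← List.reverse_infix, List.reverse_reverse]; exact h')

theorem SF.no_sq {v : List (Fin 3)} (h : SF v) (i r : ℕ) (hr : 1 ≤ r) (hl : i + 2 * r ≤ v.length)
    (e : ∀ j < r, v[i + j]? = v[i + j + r]?) : False := by
  have h1 : r ≤ km r (v.drop i) := km_ge hr _ _ fun j hj =>
    ⟨by rw [List.length_drop]; omega, by
      rw [List.getElem?_drop, List.getElem?_drop, e j hj, add_assoc]⟩
  rw [km_iff hr (by rw [List.length_drop]; omega)] at h1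
  refine h ((v.drop i).take r) (fun e => ?_) ?_
  · have := congrArg List.length e
    simp at this
    omega
  · nth_rewrite 2 [h1]
    rw [← List.take_add]
    exact (List.take_prefix _ _).isInfix.trans (List.drop_suffix _ _).isInfix

theorem SF.km_lt {u : List (Fin 3)} (h : SF u) {p : ℕ} (hp : 1 ≤ p) : km p u < p := by
  by_contra hc
  refine h.no_sq 0 p hp ?_ fun j hj => ?_
  · have := (km_spec hp u (p - 1) (by omega)).1
    omega
  · rw [zero_add]
    exact (km_spec hp u j (by omega)).2

theorem SF.cons {u : List (Fin 3)} (h : SF u) {a : Fin 3}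
    (hk : ∀ p, 1 ≤ p → km p (a :: u) < p) : SF (a :: u) := by
  intro x hx h'
  rcases List.infix_cons_iff.1 h' with ⟨t, e⟩ | e
  · have hp : 1 ≤ x.length := List.length_pos_iff.2 hx
    refine absurd (hk _ hp) (not_lt.2 ?_)
    rw [km_iff hp (by rw [← e]; simp), ← e]
    simp
  · exact h x hx e

/-- deficiency of the period x.2 just before the letter number x.1 from the end -/
def df (v : List (Fin 3)) (x : ℕ × ℕ) : ℕ := x.2 - km x.2 (v.drop (x.1 + 1))

theorem df_spec {v : List (Fin 3)} {a p D : ℕ} (h : df v (a, p) ≤ D) (t : ℕ) (h1 : a < t)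
    (h2 : t + D ≤ a + p) : t + p < v.length ∧ v[t]? = v[t + p]? := by
  unfold df at h
  simp only at h
  obtain ⟨k1, k2⟩ := km_spec (p := p) (by omega) (v.drop (a + 1)) (t - (a + 1)) (by omega)
  rw [List.length_drop] at k1
  rw [List.getElem?_drop, List.getElem?_drop, ← add_assoc,
    show a + 1 + (t - (a + 1)) = t by omega] at k2
  exact ⟨by omega, k2⟩

theorem sep_lt {v : List (Fin 3)} (h : SF v) {a p b q D : ℕ} (hp : df v (a, p) ≤ D)
    (hq : df v (b, q) ≤ D) (h1 : D ≤ p) (h2 : p < q) (h3 : q + D ≤ 2 * p) :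
    a + p + (p - D) < b + q ∨ b + q + (p - D) < a + p := by
  by_contra hc
  obtain ⟨r, rfl⟩ : ∃ r, q = p + r := ⟨q - p, by omega⟩
  by_cases hh : b + (p + r) ≤ a + p
  · refine h.no_sq (a + 1 - r) r (by omega) ?_ fun j hj => ?_
    · have := (df_spec hp (a + r) (by omega) (by omega)).1
      omega
    · rw [(df_spec hq (a + 1 - r + j) (by omega) (by omega)).2,
        (df_spec hp (a + 1 - r + j + r) (by omega) (by omega)).2]
      congr 1
      omega
  · refine h.no_sq (max a b + 1 + p) r (by omega) ?_ fun j hj => ?_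
    · have := (df_spec hq (max a b + r) (by omega) (by omega)).1
      omega
    · have e1 := (df_spec hp (max a b + 1 + j) (by omega) (by omega)).2
      have e2 := (df_spec hq (max a b + 1 + j) (by omega) (by omega)).2
      rw [show max a b + 1 + p + j = max a b + 1 + j + p by ring, ← e1, e2]
      congr 1
      ring

/-- ends of runs in a window -/
def Pr (v : List (Fin 3)) (W n : ℕ) : Finset (ℕ × ℕ) :=
  (range W ×ˢ Icc 22 n).filter fun x => v[x.1]? ≠ v[x.1 + x.2]?

theorem card_class {v : List (Fin 3)} (h : SF v) (W n D R : ℕ) (hR : 1 ≤ R) :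
    (((Pr v W n).filter fun x => df v x ≤ D ∧ D + R ≤ x.2 + 1 ∧ x.2 + 2 ≤ D + 2 * R).card : ℝ) ≤
      W / R + 2 := by
  have : ((Pr v W n).filter fun x => df v x ≤ D ∧ D + R ≤ x.2 + 1 ∧ x.2 + 2 ≤ D + 2 * R).card ≤
      (range (W / R + 2)).card := by
    refine card_le_card_of_injOn (fun x => (x.1 + x.2 + 1 - (D + R)) / R) ?_ ?_
    · rintro ⟨a, p⟩ hx
      simp only [Pr, coe_filter, mem_filter, mem_product, mem_range, mem_Icc, Set.mem_ofPred_eq,
        coe_range, Set.mem_Iio] at hx ⊢
      have : (a + p + 1 - (D + R)) / R ≤ (W + R) / R := Nat.div_le_div_right (by omega)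
      rw [Nat.add_div_right _ (by omega)] at this
      omega
    · have key : ∀ a p b q : ℕ, v[a]? ≠ v[a + p]? → v[b]? ≠ v[b + q]? → df v (a, p) ≤ D →
          df v (b, q) ≤ D → D + R ≤ p + 1 → q + 2 ≤ D + 2 * R → p ≤ q →
          (a + p + 1 - (D + R)) / R = (b + q + 1 - (D + R)) / R → (a, p) = (b, q) := by
        intro a p b q ea eb da db h1 h2 h3 e
        have k1 := Nat.div_add_mod (a + p + 1 - (D + R)) R
        have k2 := Nat.div_add_mod (b + q + 1 - (D + R)) R
        have k3 := Nat.mod_lt (a + p + 1 - (D + R)) (show R > 0 by omega)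
        have k4 := Nat.mod_lt (b + q + 1 - (D + R)) (show R > 0 by omega)
        rw [e] at k1
        rcases h3.eq_or_lt with rfl | h3
        · rcases lt_trichotomy a b with hab | rfl | hab
          · exact absurd (df_spec da b hab (by omega)).2 eb
          · rfl
          · exact absurd (df_spec db a hab (by omega)).2 ea
        · have := sep_lt h da db (by omega) h3 (by omega)
          omega
      rintro ⟨a, p⟩ hx ⟨b, q⟩ hy e
      simp only [Pr, coe_filter, mem_filter, mem_product, mem_range, mem_Icc,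
        Set.mem_ofPred_eq] at hx hy e
      rcases le_total p q with hpq | hpq
      · exact key a p b q hx.1.2 hy.1.2 hx.2.1 hy.2.1 hx.2.2.1 hy.2.2.2 hpq e
      · exact (key b q a p hy.1.2 hx.1.2 hy.2.1 hx.2.1 hy.2.2.1 hx.2.2.2 hpq e.symm).symm
  rw [card_range] at this
  calc _ ≤ ((W / R + 2 : ℕ) : ℝ) := Nat.cast_le.2 this
    _ ≤ W / R + 2 := by
      push_cast
      gcongr
      exact Nat.cast_div_le

theorem card_classes {v : List (Fin 3)} (h : SF v) (W n D : ℕ) :
    ∀ m R : ℕ, 1 ≤ R →
    (((Pr v W n).filter fun x => df v x ≤ D ∧ D + R ≤ x.2 + 1 ∧ x.2 + 1 < D + 2 ^ m * R).card : ℝ) ≤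
      2 * W / R + 2 * m
  | 0, R, _ => by
    rw [filter_eq_empty_iff.2 fun x _ hx => by omega]
    simp only [card_empty, Nat.cast_zero, mul_zero, add_zero]
    positivity
  | m + 1, R, hR => by
    have h1 := card_class h W n D R hR
    have h2 := card_classes h W n D m (2 * R) (by omega)
    have h3 : ((Pr v W n).filter fun x => df v x ≤ D ∧ D + R ≤ x.2 + 1 ∧
        x.2 + 1 < D + 2 ^ (m + 1) * R).card ≤ _ + _ := (card_le_card (fun x hx => by
      have e : 2 ^ (m + 1) * R = 2 ^ m * (2 * R) := by ring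
      simp only [mem_union, mem_filter] at hx ⊢
      by_cases hc : x.2 + 2 ≤ D + 2 * R
      · exact .inl ⟨hx.1, hx.2.1, hx.2.2.1, hc⟩
      · exact .inr ⟨hx.1, hx.2.1, by omega, by omega⟩)).trans (card_union_le
      ((Pr v W n).filter fun x => df v x ≤ D ∧ D + R ≤ x.2 + 1 ∧ x.2 + 2 ≤ D + 2 * R)
      ((Pr v W n).filter fun x => df v x ≤ D ∧ D + 2 * R ≤ x.2 + 1 ∧
        x.2 + 1 < D + 2 ^ m * (2 * R)))
    have h4 := (Nat.cast_le (α := ℝ)).2 h3
    have h5 : (2 * W / (2 * R : ℕ) : ℝ) = W / R := by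
      push_cast
      rw [mul_div_mul_left _ _ (by norm_num)]
    have h6 : (2 * W / R : ℝ) = 2 * (W / R) := by ring
    push_cast at h4 ⊢
    linarith

/-- number of run ends with small deficiency -/
def NN (v : List (Fin 3)) (W n D : ℕ) : ℕ := ((Pr v W n).filter fun x => df v x ≤ D).card

/-- weighted number of run ends -/
noncomputable def SS (v : List (Fin 3)) (W n D : ℕ) : ℝ :=
  ∑ x ∈ Pr v W n, (7 / 9 : ℝ) ^ (df v x - D)

theorem NN_small {v : List (Fin 3)} (h : SF v) (W : ℕ) {n m : ℕ} (hm : n < 2 ^ m) (j : ℕ)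
    (hj : j ≤ 21) : (NN v W n (21 - j) : ℝ) ≤ 2 * W / (j + 2) + 2 * m := by
  have h1 := card_classes h W n (21 - j) m (j + 2) (by omega)
  push_cast at h1
  refine le_trans (Nat.cast_le.2 (card_le_card fun x hx => ?_)) h1
  simp only [Pr, mem_filter, mem_product, mem_range, mem_Icc] at hx ⊢
  have : 2 ^ m * (j + 2) = 2 ^ m * j + 2 * 2 ^ m := by ring
  exact ⟨hx.1, hx.2, by omega, by omega⟩

theorem NN_big {v : List (Fin 3)} (h : SF v) (W : ℕ) {n m : ℕ} (hm : n < 2 ^ m) (j : ℕ) :
    (NN v W n (21 + j) : ℝ) ≤ (j + 1) * W + 2 * m := by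
  have h1 := card_classes h W n (21 + j) m 2 (by omega)
  have h3 : NN v W n (21 + j) ≤ _ + _ := (card_le_card (fun x hx => by
      simp only [Pr, mem_union, mem_filter, mem_product, mem_range, mem_Icc] at hx ⊢
      by_cases hc : x.2 ≤ 21 + j
      · exact .inl ⟨hx.1.1.1, hx.1.1.2.1, hc⟩
      · exact .inr ⟨hx.1, hx.2, by omega, by omega⟩)).trans (card_union_le
      (range W ×ˢ Icc 22 (21 + j))
      ((Pr v W n).filter fun x => df v x ≤ 21 + j ∧ 21 + j + 2 ≤ x.2 + 1 ∧
        x.2 + 1 < 21 + j + 2 ^ m * 2))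
  rw [card_product, card_range, Nat.card_Icc, show 21 + j + 1 - 22 = j by omega] at h3
  have h4 := (Nat.cast_le (α := ℝ)).2 h3
  push_cast at h4 h1
  linarith

theorem SS_step (v : List (Fin 3)) (W n D : ℕ) :
    SS v W n D = 2 / 9 * NN v W n D + 7 / 9 * SS v W n (D + 1) := by
  rw [NN, card_filter, SS, SS]
  push_cast
  rw [mul_sum, mul_sum, ← sum_add_distrib]
  refine sum_congr rfl fun x _ => ?_
  split_ifs with h
  · rw [show df v x - D = 0 by omega, show df v x - (D + 1) = 0 by omega]
    norm_num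
  · rw [show df v x - D = df v x - (D + 1) + 1 by omega, pow_succ]
    ring

theorem SS_big {v : List (Fin 3)} (h : SF v) (W : ℕ) {n m : ℕ} (hm : n < 2 ^ m) :
    ∀ i j : ℕ, n ≤ i + j → SS v W n (21 + j) ≤ (j + 9 / 2) * W + 2 * m
  | 0, j, hj => by
    have h1 := NN_big h W hm j
    have : SS v W n (21 + j) = NN v W n (21 + j) := by
      have e : ∀ x ∈ Pr v W n, df v x ≤ 21 + j := fun x hx => by
        simp only [Pr, mem_filter, mem_product, mem_range, mem_Icc] at hx
        unfold df
        omega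
      rw [NN, filter_true_of_mem e, SS, card_eq_sum_ones]
      push_cast
      exact sum_congr rfl fun x hx => by rw [Nat.sub_eq_zero_of_le (e x hx), pow_zero]
    have : (0 : ℝ) ≤ W := Nat.cast_nonneg _
    linarith
  | i + 1, j, hj => by
    have h1 := NN_big h W hm j
    have h2 := SS_big h W hm i (j + 1) (by omega)
    rw [SS_step, add_assoc 21]
    push_cast at h2
    linarith

/-- the density bound -/
noncomputable def BB : ℕ → ℝ
  | 0 => 9 / 2
  | j + 1 => 2 / 9 * (2 / (j + 3)) + 7 / 9 * BB j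

theorem SS_small {v : List (Fin 3)} (h : SF v) (W : ℕ) {n m : ℕ} (hm : n < 2 ^ m) :
    ∀ j : ℕ, j ≤ 21 → SS v W n (21 - j) ≤ BB j * W + 2 * m
  | 0, _ => by simpa [BB] using SS_big h W hm n 0 le_rfl
  | j + 1, hj => by
    have h1 := NN_small h W hm (j + 1) hj
    have h2 := SS_small h W hm j (by omega)
    rw [SS_step, show 21 - (j + 1) + 1 = 21 - j by omega, BB]
    have : (2 * W / ((j + 1 : ℕ) + 2) : ℝ) = 2 / (j + 3) * W := by
      push_cast
      ring
    rw [this] at h1
    linarith

theorem SS_three {v : List (Fin 3)} (h : SF v) (W : ℕ) {n m : ℕ} (hm : n < 2 ^ m) :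
    SS v W n 3 ≤ 1774 / 10000 * W + 2 * m := by
  have h1 := SS_small h W hm 18 (by omega)
  have h2 : BB 18 ≤ 1774 / 10000 := by
    simp only [BB]
    norm_num
  have : (0 : ℝ) ≤ W := Nat.cast_nonneg _
  exact h1.trans (by gcongr)

end Pool.Agent.MP_4bd596_co
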